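import Mathlib

set_option autoImplicit false

/-!
# Convex geometries, resolutions, primitivity: definitions
-/

namespace Pool.Agent.Q234.CG

/-- A convex geometry on the set `X`: (G1), (G2), (G3). -/
structure IsConvexGeometry {X : Type} (G : Set (Set X)) : Prop where
  empty_mem : ∅ ∈ G
  inter_mem : ∀ F ∈ G, ∀ H ∈ G, F ∩ H ∈ G
  extend : ∀ F ∈ G, F ≠ Set.univ → ∃ x, x ∉ F ∧ insert x F ∈ G

/-- The least member of `G` containing `A`. -/
def conv {X : Type} (G : Set (Set X)) (A : Set X) : Set X := ⋂₀ {F | F ∈ G ∧ A ⊆ F}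

/-- The extreme points of `A`. -/
def ex {X : Type} (G : Set (Set X)) (A : Set X) : Set X := {a | a ∈ A ∧ a ∉ conv G (A \ {a})}

/-- The resolution with base `GX` and fibers `GY x`. -/
def resolution {X : Type} {Y : X → Type} (GX : Set (Set X)) (GY : ∀ x, Set (Set (Y x))) :
    Set (Set (Σ x, Y x)) :=
  {D | Sigma.fst '' D ∈ GX ∧ (∀ x ∈ Sigma.fst '' D, Sigma.mk x ⁻¹' D ∈ GY x) ∧
    ∀ x ∈ Sigma.fst '' D \ ex GX (Sigma.fst '' D), ∀ y : Y x, (⟨x, y⟩ : Σ x, Y x) ∈ D}

/-- Isomorphism of set families. -/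
def Iso {Z W : Type} (G : Set (Set Z)) (H : Set (Set W)) : Prop :=
  ∃ e : Z ≃ W, ∀ D : Set Z, D ∈ G ↔ e '' D ∈ H

/-- `G` is primitive: it is not isomorphic to a resolution of convex geometries on finite nonempty
sets with at least two base points and at least one fiber with at least two points. -/
def IsPrimitive {Z : Type} (G : Set (Set Z)) : Prop :=
  ¬ ∃ (X : Type) (Y : X → Type) (GX : Set (Set X)) (GY : ∀ x, Set (Set (Y x))),
    Finite X ∧ (∀ x, Finite (Y x) ∧ Nonempty (Y x)) ∧ IsConvexGeometry GX ∧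
      (∀ x, IsConvexGeometry (GY x)) ∧ 2 ≤ Nat.card X ∧ (∃ x, 2 ≤ Nat.card (Y x)) ∧
      Iso G (resolution GX GY)

/-- The type of the convex geometries on `X`. -/
def CG (X : Type) : Type := {G : Set (Set X) // IsConvexGeometry G}

/-- The number of convex geometries on `{1, ..., n}`. -/
noncomputable def L (n : ℕ) : ℕ := Nat.card (CG (Fin n))

/-- The number of primitive convex geometries on `{1, ..., n}`. -/
noncomputable def Lpr (n : ℕ) : ℕ := Set.ncard {G : CG (Fin n) | IsPrimitive G.1}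

lemma Iso.refl {Z : Type} (G : Set (Set Z)) : Iso G G := ⟨Equiv.refl Z, fun D => by simp⟩

lemma Iso.symm {Z W : Type} {G : Set (Set Z)} {H : Set (Set W)} (h : Iso G H) : Iso H G := by
  obtain ⟨e, he⟩ := h
  refine ⟨e.symm, fun D => ?_⟩
  rw [he, Equiv.image_symm_image]

lemma Iso.trans {Z W V : Type} {G : Set (Set Z)} {H : Set (Set W)} {K : Set (Set V)}
    (h : Iso G H) (h' : Iso H K) : Iso G K := by
  obtain ⟨e, he⟩ := h
  obtain ⟨f, hf⟩ := h'
  refine ⟨e.trans f, fun D => ?_⟩
  rw [he, hf, ← Set.image_comp]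
  rfl

/-- Isomorphism as an equivalence relation on the convex geometries on `{1, ..., n}`. -/
def isoSetoid (n : ℕ) : Setoid (CG (Fin n)) where
  r G H := Iso G.1 H.1
  iseqv := ⟨fun G => Iso.refl G.1, fun h => Iso.symm h, fun h h' => Iso.trans h h'⟩

/-- The number of isomorphism classes of convex geometries on `n` elements. -/
noncomputable def U (n : ℕ) : ℕ := Nat.card (Quotient (isoSetoid n))

/-- The number of isomorphism classes of primitive convex geometries on `n` elements. -/
noncomputable def Upr (n : ℕ) : ℕ :=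
  Set.ncard {c : Quotient (isoSetoid n) | ∃ G : CG (Fin n), IsPrimitive G.1 ∧ Quotient.mk _ G = c}

end Pool.Agent.Q234.CG
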