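import Mathlib
import Pool.Agent.Q234.CGDefs

set_option autoImplicit false

namespace Pool.Agent.Q234.CG

open Set

section basics

variable {X : Type} [Finite X] {G : Set (Set X)}

lemma univ_mem (hG : IsConvexGeometry G) : univ ∈ G := by
  obtain ⟨F, hF⟩ := (Set.toFinite G).exists_maximal ⟨∅, hG.empty_mem⟩
  by_cases h : F = univ
  · rw [← h]; exact hF.1
  · obtain ⟨x, hx, hxF⟩ := hG.extend F hF.1 h
    exact absurd (hF.2 hxF (subset_insert x F) (mem_insert x F)) hx

lemma conv_mem (hG : IsConvexGeometry G) (A : Set X) : conv G A ∈ G := by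
  obtain ⟨F, hF⟩ := (Set.toFinite {F | F ∈ G ∧ A ⊆ F}).exists_minimal
    ⟨univ, univ_mem hG, subset_univ A⟩
  have : conv G A = F := by
    apply Subset.antisymm
    · exact sInter_subset_of_mem hF.1
    · intro x hx F' hF'
      have h1 : F ∩ F' ∈ {F | F ∈ G ∧ A ⊆ F} :=
        ⟨hG.inter_mem _ hF.1.1 _ hF'.1, subset_inter hF.1.2 hF'.2⟩
      exact (hF.2 h1 inter_subset_left hx).2
  rw [this]
  exact hF.1.1

omit [Finite X] in
lemma subset_conv (A : Set X) : A ⊆ conv G A := by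
  intro x hx F hF
  exact hF.2 hx

omit [Finite X] in
lemma conv_subset {A F : Set X} (hF : F ∈ G) (h : A ⊆ F) : conv G A ⊆ F :=
  sInter_subset_of_mem ⟨hF, h⟩

omit [Finite X] in
lemma conv_mono {A B : Set X} (h : A ⊆ B) : conv G A ⊆ conv G B := by
  intro x hx F hF
  exact hx F ⟨hF.1, h.trans hF.2⟩

lemma mem_ex_iff (hG : IsConvexGeometry G) {K : Set X} (hK : K ∈ G) {x : X} (hx : x ∈ K) :
    x ∈ ex G K ↔ K \ {x} ∈ G := by
  constructor
  · rintro ⟨-, h⟩
    have h1 : conv G (K \ {x}) = K \ {x} := by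
      apply Subset.antisymm
      · intro y hy
        refine ⟨conv_subset hK sdiff_subset hy, ?_⟩
        rintro rfl
        exact h hy
      · exact subset_conv _
    rw [← h1]
    exact conv_mem hG _
  · intro h
    exact ⟨hx, fun h' => (conv_subset h Subset.rfl h').2 rfl⟩

omit [Finite X] in
lemma ex_diff {K : Set X} {x y : X} (hy : y ∈ K) (hxy : y ≠ x)
    (h : y ∈ ex G K) : y ∈ ex G (K \ {x}) := by
  refine ⟨⟨hy, hxy⟩, fun h' => h.2 (conv_mono ?_ h')⟩
  rintro z ⟨⟨h1, -⟩, h2⟩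
  exact ⟨h1, h2⟩

end basics

/-- `B` behaves like a fiber of `G`. -/
def PB {Z : Type} (G : Set (Set Z)) (B : Set Z) : Prop :=
  ∀ D : Set Z, (D ∩ B).Nonempty →
    (D ∈ G ↔ (D ∪ B ∈ G ∧ (∃ D' ∈ G, D' ∩ B = D ∩ B) ∧ (B ⊆ D ∨ D \ B ∈ G)))

section resol

variable {X : Type} {Y : X → Type} [Finite X] [∀ x, Finite (Y x)] {GX : Set (Set X)}
  {GY : ∀ x, Set (Set (Y x))}

lemma PB_resolution (hX : IsConvexGeometry GX) (hY : ∀ x, IsConvexGeometry (GY x)) (x0 : X) :
    PB (resolution GX GY) {z | z.1 = x0} := by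
  intro D hne
  obtain ⟨y0, hy0⟩ : ∃ y0 : Y x0, (⟨x0, y0⟩ : Σ x, Y x) ∈ D := by
    obtain ⟨⟨x1, y1⟩, hy1, hx1⟩ := hne
    have hx1' : x1 = x0 := hx1
    subst hx1'
    exact ⟨y1, hy1⟩
  have hx0D : x0 ∈ Sigma.fst '' D := ⟨_, hy0, rfl⟩
  set B : Set (Σ x, Y x) := {z | z.1 = x0} with hB
  have hπU : Sigma.fst '' (D ∪ B) = Sigma.fst '' D := by
    ext x
    constructor
    · rintro ⟨z, hz | hz, rfl⟩
      · exact ⟨z, hz, rfl⟩
      · have : z.1 = x0 := hz
        rw [this]; exact hx0D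
    · rintro ⟨z, hz, rfl⟩
      exact ⟨z, Or.inl hz, rfl⟩
  have hπD : Sigma.fst '' (D \ B) = Sigma.fst '' D \ {x0} := by
    ext x
    constructor
    · rintro ⟨z, ⟨hz, hzB⟩, rfl⟩
      exact ⟨⟨z, hz, rfl⟩, hzB⟩
    · rintro ⟨⟨z, hz, rfl⟩, h2⟩
      exact ⟨z, ⟨hz, h2⟩, rfl⟩
  have htr : ∀ x, x ≠ x0 → Sigma.mk x ⁻¹' (D ∪ B) = Sigma.mk x ⁻¹' D := by
    intro x hx
    ext y
    simp only [mem_preimage, mem_union, hB, mem_ofPred_eq]
    constructor
    · rintro (h | h)
      · exact h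
      · exact absurd h hx
    · exact Or.inl
  have htr' : ∀ x, x ≠ x0 → Sigma.mk x ⁻¹' (D \ B) = Sigma.mk x ⁻¹' D := by
    intro x hx
    ext y
    simp only [mem_preimage, mem_sdiff, hB, mem_ofPred_eq]
    exact ⟨fun h => h.1, fun h => ⟨h, hx⟩⟩
  constructor
  · rintro ⟨h1, h2, h3⟩
    refine ⟨⟨?_, ?_, ?_⟩, ⟨D, ⟨h1, h2, h3⟩, rfl⟩, ?_⟩
    · rw [hπU]; exact h1
    · rw [hπU]
      intro x hx
      by_cases hxx : x = x0
      · subst hxx
        have : Sigma.mk x ⁻¹' (D ∪ B) = univ := by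
          ext y
          simp [hB]
        rw [this]
        exact univ_mem (hY x)
      · rw [htr x hxx]
        exact h2 x hx
    · rw [hπU]
      intro x hx y
      exact Or.inl (h3 x hx y)
    · by_cases hex : x0 ∈ ex GX (Sigma.fst '' D)
      · right
        have hcl : Sigma.fst '' D \ {x0} ∈ GX := (mem_ex_iff hX h1 hx0D).1 hex
        refine ⟨?_, ?_, ?_⟩
        · rw [hπD]; exact hcl
        · rw [hπD]
          rintro x ⟨hx, hxx⟩
          rw [htr' x hxx]
          exact h2 x hx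
        · rw [hπD]
          rintro x ⟨⟨hx, hxx⟩, hnex⟩ y
          refine ⟨h3 x ⟨hx, fun hc => hnex (ex_diff hx hxx hc)⟩ y, ?_⟩
          exact hxx
      · left
        rintro ⟨x, y⟩ hxy
        have hx : x = x0 := hxy
        subst hx
        exact h3 x ⟨hx0D, hex⟩ y
  · rintro ⟨⟨h1, h2, h3⟩, ⟨D', ⟨h4, h5, h6⟩, h7⟩, h8⟩
    rcases h8 with h8 | ⟨h8, h9, h10⟩
    · have : D ∪ B = D := union_eq_left.2 h8
      rw [this] at h1 h2 h3
      exact ⟨h1, h2, h3⟩
    · rw [hπU] at h1 h2 h3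
      rw [hπD] at h8
      refine ⟨h1, ?_, ?_⟩
      · intro x hx
        by_cases hxx : x = x0
        · subst hxx
          have e1 : Sigma.mk x ⁻¹' D = Sigma.mk x ⁻¹' D' := by
            ext y
            have := Set.ext_iff.1 h7 ⟨x, y⟩
            simp only [mem_inter_iff, hB, mem_ofPred_eq, and_true] at this
            exact this.symm
          rw [e1]
          apply h5
          have hy : (⟨x, y0⟩ : Σ x, Y x) ∈ D' ∩ B := by
            rw [h7]; exact ⟨hy0, rfl⟩
          exact ⟨_, hy.1, rfl⟩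
        · rw [← htr x hxx]
          exact h2 x hx
      · intro x hx y
        by_cases hxx : x = x0
        · subst hxx
          exact absurd ((mem_ex_iff hX h1 hx0D).2 h8) hx.2
        · rcases h3 x hx y with h | h
          · exact h
          · exact absurd h hxx

end resol

/-- A nonprimitive geometry has a fiber. -/
lemma exists_fiber {Z : Type} [Finite Z] {G : Set (Set Z)} (hG : ¬ IsPrimitive G) :
    ∃ B : Set Z, 2 ≤ B.ncard ∧ B.ncard + 1 ≤ Nat.card Z ∧ PB G B := by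
  unfold IsPrimitive at hG
  push Not at hG
  obtain ⟨X, Y, GX, GY, hXfin, hYfin, hGX, hGY, hX2, ⟨x0, hx0⟩, e, he⟩ := hG
  have := hXfin
  have : ∀ x, Finite (Y x) := fun x => (hYfin x).1
  set F : Set (Σ x, Y x) := {z | z.1 = x0} with hF
  refine ⟨e ⁻¹' F, ?_, ?_, ?_⟩
  · have h1 : (e ⁻¹' F).ncard = F.ncard := by
      rw [← Equiv.image_symm_eq_preimage, Set.ncard_image_of_injective _ e.symm.injective]
    rw [h1]
    have h2 : F = Sigma.mk x0 '' univ := by
      ext ⟨x, y⟩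
      simp only [hF, mem_ofPred_eq, image_univ, mem_range]
      constructor
      · rintro rfl
        exact ⟨y, rfl⟩
      · rintro ⟨y', h⟩
        exact (congrArg Sigma.fst h).symm
    rw [h2, Set.ncard_image_of_injective _ sigma_mk_injective, Set.ncard_univ]
    exact hx0
  · obtain ⟨x1, hx1⟩ : ∃ x1 : X, x1 ≠ x0 := by
      have : Nontrivial X := Finite.one_lt_card_iff_nontrivial.1 (by omega)
      exact exists_ne x0
    obtain ⟨y1⟩ := (hYfin x1).2
    have h1 : e.symm ⟨x1, y1⟩ ∉ e ⁻¹' F := by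
      simp [hF, hx1]
    have h2 : (e ⁻¹' F).ncard < (univ : Set Z).ncard := by
      refine Set.ncard_lt_ncard ?_ (Set.toFinite _)
      exact ⟨subset_univ _, fun h => h1 (h (mem_univ _))⟩
    rw [Set.ncard_univ] at h2
    exact h2
  · have hP := PB_resolution hGX hGY x0
    intro D hD
    have e1 : e '' (D ∪ e ⁻¹' F) = e '' D ∪ F := by
      rw [image_union, Equiv.image_preimage]
    have e2 : e '' (D \ e ⁻¹' F) = e '' D \ F := by
      rw [image_sdiff e.injective, Equiv.image_preimage]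
    have e3 : ∀ D' : Set Z, e '' (D' ∩ e ⁻¹' F) = e '' D' ∩ F := by
      intro D'
      rw [image_inter e.injective, Equiv.image_preimage]
    have hne : (e '' D ∩ F).Nonempty := by
      rw [← e3]; exact hD.image _
    rw [he, he, he, hP (e '' D) hne, e1, e2]
    have e4 : (∃ D' ∈ resolution GX GY, D' ∩ F = e '' D ∩ F) ↔
        ∃ D' ∈ G, D' ∩ e ⁻¹' F = D ∩ e ⁻¹' F := by
      constructor
      · rintro ⟨D', h1, h2⟩
        refine ⟨e ⁻¹' D', ?_, ?_⟩
        · rw [he, Equiv.image_preimage]; exact h1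
        · apply e.injective.image_injective
          rw [e3, e3, Equiv.image_preimage, h2]
      · rintro ⟨D', h1, h2⟩
        refine ⟨e '' D', (he D').1 h1, ?_⟩
        rw [← e3, ← e3, h2]
    have e5 : F ⊆ e '' D ↔ e ⁻¹' F ⊆ D := by
      constructor
      · intro h z hz
        obtain ⟨w, hw, hwz⟩ := h hz
        rwa [e.injective hwz] at hw
      · intro h z hz
        exact ⟨e.symm z, h (by simpa using hz), by simp⟩
    rw [e4, e5]

end Pool.Agent.Q234.CG
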