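import Mathlib
import Pool.Agent.Q234.CGStruct

set_option autoImplicit false

namespace Pool.Agent.Q234.CG

open Set

instance {X : Type} [Finite X] : Finite (CG X) := Subtype.finite

section transport

variable {X Y : Type}

/-- transport of a family along an equivalence -/
def tr (e : X ≃ Y) (G : Set (Set X)) : Set (Set Y) := {D | e ⁻¹' D ∈ G}

lemma tr_CG (e : X ≃ Y) {G : Set (Set X)} (hG : IsConvexGeometry G) :
    IsConvexGeometry (tr e G) := by
  refine ⟨?_, ?_, ?_⟩
  · exact hG.empty_mem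
  · intro F hF H hH
    exact hG.inter_mem _ hF _ hH
  · intro F hF hne
    obtain ⟨x, hx, hxF⟩ := hG.extend _ hF (by
      intro h
      apply hne
      rw [← Equiv.image_preimage e F, h, image_univ, e.surjective.range_eq])
    refine ⟨e x, hx, ?_⟩
    have : e ⁻¹' (insert (e x) F) = insert x (e ⁻¹' F) := by
      ext y
      simp
    show e ⁻¹' (insert (e x) F) ∈ G
    rw [this]
    exact hxF

/-- the bijection between convex geometries induced by a bijection -/
def CGcongr (e : X ≃ Y) : CG X ≃ CG Y where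
  toFun G := ⟨tr e G.1, tr_CG e G.2⟩
  invFun G := ⟨tr e.symm G.1, tr_CG e.symm G.2⟩
  left_inv G := by
    apply Subtype.ext
    ext D
    show e ⁻¹' (e.symm ⁻¹' D) ∈ G.1 ↔ D ∈ G.1
    rw [Equiv.preimage_symm_preimage]
  right_inv G := by
    apply Subtype.ext
    ext D
    show e.symm ⁻¹' (e ⁻¹' D) ∈ G.1 ↔ D ∈ G.1
    rw [Equiv.symm_preimage_preimage]

lemma card_CG (X : Type) [Finite X] : Nat.card (CG X) = L (Nat.card X) :=
  Nat.card_congr (CGcongr (Finite.equivFin X))

end transport

section extension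

variable {X : Type}

/-- extension of a geometry by one point -/
def ext (G S : Set (Set X)) : Set (Set (Option X)) :=
  {E | (none ∈ E ∧ some ⁻¹' E ∈ G) ∨
    (none ∉ E ∧ some ⁻¹' E ∈ G ∧ (some ⁻¹' E = ∅ ∨ ∃ T ∈ S, some ⁻¹' E ⊆ T))}

lemma ext_CG {G : Set (Set X)} (hG : IsConvexGeometry G) (S : Set (Set X)) :
    IsConvexGeometry (ext G S) := by
  refine ⟨?_, ?_, ?_⟩
  · right
    exact ⟨fun h => h, hG.empty_mem, Or.inl rfl⟩
  · intro F hF H hH
    have hi : some ⁻¹' (F ∩ H) = some ⁻¹' F ∩ some ⁻¹' H := rfl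
    have hGF : some ⁻¹' F ∈ G := by
      rcases hF with h | h
      · exact h.2
      · exact h.2.1
    have hGH : some ⁻¹' H ∈ G := by
      rcases hH with h | h
      · exact h.2
      · exact h.2.1
    have hin : some ⁻¹' (F ∩ H) ∈ G := by rw [hi]; exact hG.inter_mem _ hGF _ hGH
    rcases hF with hF | hF
    · rcases hH with hH | hH
      · exact Or.inl ⟨⟨hF.1, hH.1⟩, hin⟩
      · refine Or.inr ⟨fun h => hH.1 h.2, hin, ?_⟩
        rcases hH.2.2 with h | ⟨T, hT, h⟩
        · left
          rw [hi, h, inter_empty]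
        · right
          exact ⟨T, hT, inter_subset_right.trans h⟩
    · refine Or.inr ⟨fun h => hF.1 h.1, hin, ?_⟩
      rcases hF.2.2 with h | ⟨T, hT, h⟩
      · left
        rw [hi, h, empty_inter]
      · right
        exact ⟨T, hT, inter_subset_left.trans h⟩
  · intro F hF hne
    rcases hF with hF | hF
    · obtain ⟨x, hx, hxF⟩ := hG.extend _ hF.2 (by
        intro h
        apply hne
        ext z
        rcases z with _ | z
        · exact ⟨fun _ => trivial, fun _ => hF.1⟩
        · refine ⟨fun _ => trivial, fun _ => ?_⟩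
          have : z ∈ some ⁻¹' F := by rw [h]; trivial
          exact this)
      refine ⟨some x, hx, Or.inl ⟨Or.inr hF.1, ?_⟩⟩
      have : some ⁻¹' (insert (some x) F) = insert x (some ⁻¹' F) := by
        ext y
        simp
      rw [this]
      exact hxF
    · refine ⟨none, hF.1, Or.inl ⟨Or.inl rfl, ?_⟩⟩
      have : some ⁻¹' (insert none F) = some ⁻¹' F := by
        ext y
        simp
      rw [this]
      exact hF.2.1

lemma mem_ext_none (G S : Set (Set X)) (F : Set X) :
    insert none (some '' F) ∈ ext G S ↔ F ∈ G := by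
  have : some ⁻¹' (insert none (some '' F)) = F := by
    ext y
    simp
  constructor
  · rintro (h | h)
    · rw [this] at h
      exact h.2
    · exact absurd (Or.inl rfl) h.1
  · intro h
    left
    rw [this]
    exact ⟨Or.inl rfl, h⟩

lemma mem_ext_some (G S : Set (Set X)) (F : Set X) (hF : F ≠ ∅) :
    some '' F ∈ ext G S ↔ F ∈ G ∧ ∃ T ∈ S, F ⊆ T := by
  have h1 : some ⁻¹' (some '' F) = F := preimage_image_eq _ (Option.some_injective X)
  have h2 : none ∉ some '' F := by simp
  constructor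
  · rintro (h | h)
    · exact absurd h.1 h2
    · rw [h1] at h
      exact ⟨h.2.1, h.2.2.resolve_left hF⟩
  · intro h
    right
    rw [h1]
    exact ⟨h2, h.1, Or.inr h.2⟩

lemma univ_CG (X : Type) : IsConvexGeometry (univ : Set (Set X)) := by
  refine ⟨mem_univ _, fun _ _ _ _ => mem_univ _, fun F _ hF => ?_⟩
  obtain ⟨x, hx⟩ := (Set.ne_univ_iff_exists_notMem F).1 hF
  exact ⟨x, hx, mem_univ _⟩

lemma level [Finite X] {G : Set (Set X)} {w : ℕ}
    (h : w * Nat.card X < G.ncard) (hX : 0 < Nat.card X) :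
    ∃ k, 1 ≤ k ∧ w ≤ {F | F ∈ G ∧ F.ncard = k}.ncard := by
  classical
  have hGfin : G.Finite := Set.toFinite G
  set s : Finset (Set X) := hGfin.toFinset.erase ∅ with hs
  have hcard : w * Nat.card X ≤ s.card := by
    have h1 : hGfin.toFinset.card = G.ncard := (Set.ncard_eq_toFinset_card G hGfin).symm
    have h2 := Finset.pred_card_le_card_erase (s := hGfin.toFinset) (a := ∅)
    rw [hs]
    omega
  obtain ⟨k, hk, hkw⟩ := Finset.exists_le_card_fiber_of_mul_le_card_of_maps_to
    (s := s) (t := Finset.Icc 1 (Nat.card X)) (f := Set.ncard) (n := w) (by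
      intro F hF
      rw [hs, Finset.mem_erase] at hF
      rw [Finset.mem_Icc]
      constructor
      · rw [Nat.one_le_iff_ne_zero, ne_eq, Set.ncard_eq_zero]
        exact hF.1
      · rw [← Set.ncard_univ]
        exact Set.ncard_le_ncard (subset_univ F)) ⟨1, by simp; omega⟩ (by
      rw [Nat.card_Icc]
      rw [Nat.add_sub_cancel, mul_comm]
      exact hcard)
  refine ⟨k, (Finset.mem_Icc.1 hk).1, hkw.trans ?_⟩
  rw [← Set.ncard_coe_finset]
  apply Set.ncard_le_ncard _ (Set.toFinite _)
  intro F hF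
  rw [Finset.mem_coe, Finset.mem_filter, hs, Finset.mem_erase, Set.Finite.mem_toFinset] at hF
  exact ⟨hF.1.2, hF.2⟩

lemma exists_iota [Finite X] {G : Set (Set X)} {w : ℕ}
    (h : w * Nat.card X < G.ncard) (hX : 0 < Nat.card X) :
    ∃ ι : Fin w → Set X, Function.Injective ι ∧ (∀ i, ι i ∈ G) ∧ (∀ i, ι i ≠ ∅) ∧
      ∀ i j, ι i ⊆ ι j → i = j := by
  classical
  obtain ⟨k, hk1, hkw⟩ := level h hX
  set T : Set (Set X) := {F | F ∈ G ∧ F.ncard = k} with hT
  have : Fintype T := Fintype.ofFinite T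
  obtain ⟨f⟩ : Nonempty (Fin w ↪ T) := by
    apply Function.Embedding.nonempty_of_card_le
    rw [Fintype.card_fin, ← Nat.card_eq_fintype_card]
    exact hkw
  refine ⟨fun i => (f i : Set X), fun i j hij => f.injective (Subtype.ext hij),
    fun i => (f i).2.1, fun i h0 => ?_, fun i j hij => ?_⟩
  · have h0' : ((f i : T) : Set X) = ∅ := h0
    have := (f i).2.2
    rw [h0', Set.ncard_empty] at this
    omega
  · apply f.injective
    apply Subtype.ext
    apply Set.eq_of_subset_of_ncard_le hij _ (Set.toFinite _)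
    rw [(f i).2.2, (f j).2.2]

/-- The growth inequality. -/
lemma growth (N w : ℕ) (hN : 0 < N) :
    Set.ncard {G : CG (Fin N) | w * N < G.1.ncard} * 2 ^ w ≤ L (N + 1) := by
  classical
  have hcN : Nat.card (Fin N) = N := Nat.card_fin N
  have hι : ∀ G : {G : CG (Fin N) | w * N < G.1.ncard}, ∃ ι : Fin w → Set (Fin N),
      Function.Injective ι ∧ (∀ i, ι i ∈ G.1.1) ∧ (∀ i, ι i ≠ ∅) ∧
      ∀ i j, ι i ⊆ ι j → i = j := by
    intro G
    have h := G.2
    apply exists_iota
    · rw [hcN]; exact h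
    · rw [hcN]; exact hN
  choose ι h1 h2 h3 h4 using hι
  let Φ : {G : CG (Fin N) | w * N < G.1.ncard} × Set (Fin w) → CG (Option (Fin N)) :=
    fun p => ⟨ext p.1.1.1 (ι p.1 '' p.2), ext_CG p.1.1.2 _⟩
  have hΦ : Function.Injective Φ := by
    rintro ⟨G, s⟩ ⟨G', s'⟩ h
    have h5 : ext G.1.1 (ι G '' s) = ext G'.1.1 (ι G' '' s') := congrArg Subtype.val h
    have h6 : G = G' := by
      apply Subtype.ext
      apply Subtype.ext
      ext F
      rw [← mem_ext_none G.1.1 (ι G '' s) F, h5, mem_ext_none]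
    subst h6
    have h7 : s = s' := by
      ext i
      have h8 := mem_ext_some G.1.1 (ι G '' s) (ι G i) (h3 G i)
      have h9 := mem_ext_some G.1.1 (ι G '' s') (ι G i) (h3 G i)
      rw [h5] at h8
      have h10 := h8.symm.trans h9
      have key : ∀ t : Set (Fin w), (ι G i ∈ G.1.1 ∧ ∃ T ∈ ι G '' t, ι G i ⊆ T) ↔ i ∈ t := by
        intro t
        constructor
        · rintro ⟨-, T, ⟨j, hj, rfl⟩, hsub⟩
          rwa [h4 G i j hsub]
        · intro hi
          exact ⟨h2 G i, _, ⟨i, hi, rfl⟩, Subset.rfl⟩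
      rw [← key s, ← key s']
      exact h10
    rw [h7]
  have h5 := Nat.card_le_card_of_injective Φ hΦ
  rw [Nat.card_prod, card_CG (Option (Fin N))] at h5
  have h6 : Nat.card (Option (Fin N)) = N + 1 := by
    rw [Nat.card_eq_fintype_card, Fintype.card_option, Fintype.card_fin]
  have h7 : Nat.card (Set (Fin w)) = 2 ^ w := by
    rw [Nat.card_eq_fintype_card, Fintype.card_set, Fintype.card_fin]
  rw [h6, h7] at h5
  exact h5

lemma mono (N : ℕ) : L N ≤ L (N + 1) := by
  rcases Nat.eq_zero_or_pos N with rfl | hN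
  · have h1 : L 0 ≤ 1 := by
      unfold L
      rw [Finite.card_le_one_iff_subsingleton]
      refine ⟨fun G H => Subtype.ext ?_⟩
      ext D
      have : D = ∅ := Subsingleton.elim _ _
      rw [this]
      exact ⟨fun _ => H.2.empty_mem, fun _ => G.2.empty_mem⟩
    have h2 : 0 < L 1 := by
      unfold L
      have : Nonempty (CG (Fin 1)) := ⟨⟨univ, univ_CG _⟩⟩
      exact Nat.card_pos
    exact h1.trans h2
  · have h := growth N 0 hN
    have h1 : {G : CG (Fin N) | 0 * N < G.1.ncard} = univ := by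
      ext G
      simp only [mem_ofPred_eq, mem_univ, iff_true, zero_mul]
      rw [Set.ncard_pos]
      exact ⟨∅, G.2.empty_mem⟩
    rw [h1, Set.ncard_univ, pow_zero, mul_one] at h
    exact h

lemma mono' {a b : ℕ} (h : a ≤ b) : L a ≤ L b := monotone_nat_of_le_succ mono h

lemma powerset_bound (N w : ℕ) (hN : 0 < N) (hw : w * N < 2 ^ N) : 2 ^ w ≤ L (N + 1) := by
  have h := growth N w hN
  have h1 : 1 ≤ Set.ncard {G : CG (Fin N) | w * N < G.1.ncard} := by
    rw [Nat.one_le_iff_ne_zero, ← Nat.pos_iff_ne_zero, Set.ncard_pos]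
    refine ⟨⟨univ, univ_CG _⟩, ?_⟩
    show w * N < (univ : Set (Set (Fin N))).ncard
    rw [Set.ncard_univ, Nat.card_eq_fintype_card, Fintype.card_set, Fintype.card_fin]
    exact hw
  calc 2 ^ w = 1 * 2 ^ w := (one_mul _).symm
    _ ≤ _ := Nat.mul_le_mul_right _ h1
    _ ≤ _ := h

/-- few geometries have few closed sets -/
lemma few (N m : ℕ) : Set.ncard {G : CG (Fin N) | G.1.ncard ≤ m} ≤ 2 ^ (N * m) := by
  classical
  have hf : ∀ G : {G : CG (Fin N) | G.1.ncard ≤ m}, ∃ f : Fin m → Set (Fin N),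
      Set.range f = G.1.1 := by
    intro G
    have : Fintype G.1.1 := Fintype.ofFinite _
    have : Nonempty G.1.1 := ⟨⟨∅, G.1.2.empty_mem⟩⟩
    obtain ⟨e⟩ : Nonempty (G.1.1 ↪ Fin m) := by
      apply Function.Embedding.nonempty_of_card_le
      rw [Fintype.card_fin, ← Nat.card_eq_fintype_card]
      exact G.2
    refine ⟨fun i => (Function.invFun e i : G.1.1), ?_⟩
    ext F
    constructor
    · rintro ⟨i, rfl⟩
      exact (Function.invFun e i).2
    · intro hF
      refine ⟨e ⟨F, hF⟩, ?_⟩
      show ((Function.invFun e (e ⟨F, hF⟩) : G.1.1) : Set (Fin N)) = F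
      rw [Function.leftInverse_invFun e.injective]
  choose f hf using hf
  have hinj : Function.Injective f := by
    intro G G' h
    apply Subtype.ext
    apply Subtype.ext
    rw [← hf G, ← hf G', h]
  have h1 := Nat.card_le_card_of_injective f hinj
  have h2 : Nat.card (Fin m → Set (Fin N)) = 2 ^ (N * m) := by
    rw [Nat.card_eq_fintype_card, Fintype.card_fun, Fintype.card_set, Fintype.card_fin,
      Fintype.card_fin, pow_mul]
  rw [h2] at h1
  exact h1

lemma growth' (N w : ℕ) (hN : 0 < N) (h : 2 * 2 ^ (N * (w * N)) ≤ L N) :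
    L N * 2 ^ w ≤ 2 * L (N + 1) := by
  classical
  have h1 := growth N w hN
  have h2 := few N (w * N)
  have h3 : Set.ncard {G : CG (Fin N) | G.1.ncard ≤ w * N} +
      Set.ncard {G : CG (Fin N) | w * N < G.1.ncard} = L N := by
    rw [← Set.ncard_union_eq]
    · have : {G : CG (Fin N) | G.1.ncard ≤ w * N} ∪ {G : CG (Fin N) | w * N < G.1.ncard} =
          univ := by
        ext G
        simp only [mem_union, mem_ofPred_eq, mem_univ, iff_true]
        exact le_or_gt _ _
      rw [this, Set.ncard_univ]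
      rfl
    · rw [Set.disjoint_left]
      intro G hG hG'
      exact (not_lt.2 (show G.1.ncard ≤ w * N from hG)) hG'
  have h4 : L N ≤ 2 * Set.ncard {G : CG (Fin N) | w * N < G.1.ncard} := by omega
  calc L N * 2 ^ w ≤ (2 * Set.ncard {G : CG (Fin N) | w * N < G.1.ncard}) * 2 ^ w :=
        Nat.mul_le_mul_right _ h4
    _ = 2 * (Set.ncard {G : CG (Fin N) | w * N < G.1.ncard} * 2 ^ w) := by ring
    _ ≤ 2 * L (N + 1) := Nat.mul_le_mul_left _ h1

lemma upper (N : ℕ) : L N ≤ 2 ^ 2 ^ N := by
  classical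
  have h1 : Nat.card (CG (Fin N)) ≤ Nat.card (Set (Set (Fin N))) :=
    Nat.card_le_card_of_injective (fun G : CG (Fin N) => G.1) Subtype.val_injective
  rw [Nat.card_eq_fintype_card (α := Set (Set (Fin N))), Fintype.card_set, Fintype.card_set,
    Fintype.card_fin] at h1
  exact h1

end extension

end Pool.Agent.Q234.CG
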