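import Mathlib
import Pool.Agent.Q234.CGCount

set_option autoImplicit false

namespace Pool.Agent.Q234.CG

open Set

section

variable {Z : Type}

/-- the subset of `Z` that corresponds to a subset of the quotient `Option Bᶜ` -/
def lift (B : Set Z) (E : Set (Option (Bᶜ : Set Z))) : Set Z :=
  {z | (z ∈ B ∧ none ∈ E) ∨ ∃ h : z ∈ Bᶜ, some ⟨z, h⟩ ∈ E}

/-- the quotient geometry -/
def quot (G : Set (Set Z)) (B : Set Z) : Set (Set (Option (Bᶜ : Set Z))) := {E | lift B E ∈ G}

/-- the restricted geometry -/
def rest (G : Set (Set Z)) (B : Set Z) : Set (Set B) := {E | ∃ D ∈ G, Subtype.val ⁻¹' D = E}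

lemma lift_inter (B : Set Z) (E F : Set (Option (Bᶜ : Set Z))) :
    lift B (E ∩ F) = lift B E ∩ lift B F := by
  ext z
  constructor
  · rintro (⟨h1, h2, h3⟩ | ⟨h1, h2, h3⟩)
    · exact ⟨Or.inl ⟨h1, h2⟩, Or.inl ⟨h1, h3⟩⟩
    · exact ⟨Or.inr ⟨h1, h2⟩, Or.inr ⟨h1, h3⟩⟩
  · rintro ⟨h1 | ⟨h1, h1'⟩, h2 | ⟨h2, h2'⟩⟩
    · exact Or.inl ⟨h1.1, h1.2, h2.2⟩
    · exact absurd h1.1 h2
    · exact absurd h2.1 h1
    · exact Or.inr ⟨h1, h1', h2'⟩

lemma quot_CG {G : Set (Set Z)} (hG : IsConvexGeometry G) {B : Set Z}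
    (hP : PB G B) : IsConvexGeometry (quot G B) := by
  refine ⟨?_, ?_, ?_⟩
  · have : lift B ∅ = ∅ := by
      ext z
      simp [lift]
    show lift B ∅ ∈ G
    rw [this]
    exact hG.empty_mem
  · intro E hE F hF
    show lift B (E ∩ F) ∈ G
    rw [lift_inter]
    exact hG.inter_mem _ hE _ hF
  · intro E hE hne
    have hE' : lift B E ∈ G := hE
    by_cases hnone : none ∈ E ∨ B = ∅
    · -- some element outside `B` is missing
      by_cases huniv : lift B E = univ
      · have hB : B = ∅ := by
          rcases hnone with h | h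
          · exfalso
            apply hne
            ext z
            rcases z with _ | ⟨z, hz⟩
            · exact ⟨fun _ => trivial, fun _ => h⟩
            · refine ⟨fun _ => trivial, fun _ => ?_⟩
              have : z ∈ lift B E := by rw [huniv]; trivial
              rcases this with h1 | ⟨h1, h2⟩
              · exact absurd h1.1 hz
              · exact h2
          · exact h
        refine ⟨none, ?_, ?_⟩
        · intro h
          apply hne
          ext z
          rcases z with _ | ⟨z, hz⟩
          · exact ⟨fun _ => trivial, fun _ => h⟩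
          · refine ⟨fun _ => trivial, fun _ => ?_⟩
            have : z ∈ lift B E := by rw [huniv]; trivial
            rcases this with h1 | ⟨h1, h2⟩
            · exact absurd h1.1 hz
            · exact h2
        · show lift B (insert none E) ∈ G
          have : lift B (insert none E) = lift B E := by
            ext z
            simp [lift, hB]
          rw [this]
          exact hE'
      · obtain ⟨z, hz, hzG⟩ := hG.extend _ hE' huniv
        have hzB : z ∉ B := by
          intro h
          rcases hnone with h' | h'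
          · exact hz (Or.inl ⟨h, h'⟩)
          · rw [h'] at h
            exact h
        refine ⟨some ⟨z, hzB⟩, fun h => hz (Or.inr ⟨hzB, h⟩), ?_⟩
        show lift B (insert (some ⟨z, hzB⟩) E) ∈ G
        have : lift B (insert (some ⟨z, hzB⟩) E) = insert z (lift B E) := by
          ext y
          simp only [lift, mem_ofPred_eq, mem_insert_iff, Option.some.injEq, Subtype.mk.injEq,
            reduceCtorEq, false_or, mem_compl_iff]
          constructor
          · rintro (h | ⟨h, h1 | h1⟩)
            · exact Or.inr (Or.inl h)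
            · exact Or.inl h1
            · exact Or.inr (Or.inr ⟨h, h1⟩)
          · rintro (h | h | ⟨h, h1⟩)
            · exact Or.inr ⟨by rw [h]; exact hzB, Or.inl h⟩
            · exact Or.inl h
            · exact Or.inr ⟨h, Or.inr h1⟩
        rw [this]
        exact hzG
    · push Not at hnone
      obtain ⟨hn, hBne⟩ := hnone
      obtain ⟨b, hb⟩ := hBne
      have hdisj : ∀ z ∈ B, z ∉ lift B E := by
        intro z hz h
        rcases h with h | ⟨h, -⟩
        · exact hn h.2
        · exact h hz
      obtain ⟨z, hz, hzG⟩ := hG.extend _ hE' (by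
        intro h
        exact hdisj b hb (by rw [h]; trivial))
      by_cases hzB : z ∈ B
      · refine ⟨none, hn, ?_⟩
        show lift B (insert none E) ∈ G
        have h1 : (insert z (lift B E) ∩ B).Nonempty := ⟨z, Or.inl rfl, hzB⟩
        have h2 := ((hP _ h1).1 hzG).1
        have h3 : insert z (lift B E) ∪ B = lift B (insert none E) := by
          ext y
          simp only [lift, mem_ofPred_eq, mem_insert_iff, mem_union, true_or, and_true,
            reduceCtorEq, false_or]
          constructor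
          · rintro ((h | h) | h)
            · exact Or.inl (by rw [h]; exact hzB)
            · rcases h with h | h
              · exact Or.inl h.1
              · exact Or.inr h
            · exact Or.inl h
          · rintro (h | h)
            · exact Or.inr h
            · exact Or.inl (Or.inr (Or.inr h))
        rw [← h3]
        exact h2
      · refine ⟨some ⟨z, hzB⟩, fun h => hz (Or.inr ⟨hzB, h⟩), ?_⟩
        show lift B (insert (some ⟨z, hzB⟩) E) ∈ G
        have : lift B (insert (some ⟨z, hzB⟩) E) = insert z (lift B E) := by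
          ext y
          simp only [lift, mem_ofPred_eq, mem_insert_iff, Option.some.injEq, Subtype.mk.injEq,
            reduceCtorEq, false_or, mem_compl_iff]
          constructor
          · rintro (h | ⟨h, h1 | h1⟩)
            · exact Or.inr (Or.inl h)
            · exact Or.inl h1
            · exact Or.inr (Or.inr ⟨h, h1⟩)
          · rintro (h | h | ⟨h, h1⟩)
            · exact Or.inr ⟨by rw [h]; exact hzB, Or.inl h⟩
            · exact Or.inl h
            · exact Or.inr ⟨h, Or.inr h1⟩
        rw [this]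
        exact hzG

lemma rest_CG [Finite Z] {G : Set (Set Z)} (hG : IsConvexGeometry G) (B : Set Z) :
    IsConvexGeometry (rest G B) := by
  refine ⟨⟨∅, hG.empty_mem, rfl⟩, ?_, ?_⟩
  · rintro _ ⟨D, hD, rfl⟩ _ ⟨D', hD', rfl⟩
    exact ⟨D ∩ D', hG.inter_mem _ hD _ hD', rfl⟩
  · rintro _ ⟨D0, hD0, rfl⟩ hne
    obtain ⟨D, hD⟩ := (Set.toFinite {D | D ∈ G ∧ (Subtype.val ⁻¹' D : Set B) =
      Subtype.val ⁻¹' D0}).exists_maximal ⟨D0, hD0, rfl⟩
    obtain ⟨z, hz, hzG⟩ := hG.extend D hD.1.1 (by
      intro h
      apply hne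
      rw [← hD.1.2, h]
      rfl)
    have hzB : z ∈ B := by
      by_contra hzB
      have h1 : insert z D ∈ {D | D ∈ G ∧ (Subtype.val ⁻¹' D : Set B) =
          Subtype.val ⁻¹' D0} := by
        refine ⟨hzG, ?_⟩
        rw [← hD.1.2]
        ext y
        simp only [mem_preimage, mem_insert_iff, or_iff_right_iff_imp]
        intro h
        exact absurd (by rw [← h]; exact y.2) hzB
      exact hz (hD.2 h1 (subset_insert z D) (mem_insert z D))
    refine ⟨⟨z, hzB⟩, ?_, insert z D, hzG, ?_⟩
    · rw [← hD.1.2]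
      exact hz
    · rw [← hD.1.2]
      ext y
      simp only [mem_preimage, mem_insert_iff, Subtype.ext_iff]

/-- membership for the sets that are disjoint from `B` or contain `B` -/
lemma mem_of_quot {G : Set (Set Z)} {B : Set Z} {D : Set Z}
    (hD : D ∩ B = ∅ ∨ B ⊆ D) :
    D ∈ G ↔ ({o | (o = none ∧ B ⊆ D) ∨ ∃ z : (Bᶜ : Set Z), o = some z ∧ z.1 ∈ D} :
      Set (Option (Bᶜ : Set Z))) ∈ quot G B := by
  have : lift B ({o | (o = none ∧ B ⊆ D) ∨ ∃ z : (Bᶜ : Set Z), o = some z ∧ z.1 ∈ D} :
      Set (Option (Bᶜ : Set Z))) = D := by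
    ext y
    simp only [lift, mem_ofPred_eq, true_and, reduceCtorEq, false_and, exists_false, or_false,
      Option.some.injEq, false_or]
    constructor
    · rintro (⟨h1, h2⟩ | ⟨h1, z, h2, h3⟩)
      · exact h2 h1
      · rw [← h2] at h3
        exact h3
    · intro hy
      by_cases hyB : y ∈ B
      · left
        refine ⟨hyB, ?_⟩
        rcases hD with h | h
        · exfalso
          have : y ∈ D ∩ B := ⟨hy, hyB⟩
          rw [h] at this
          exact this
        · exact h
      · right
        exact ⟨hyB, ⟨y, hyB⟩, rfl, hy⟩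
  show _ ↔ lift B _ ∈ G
  rw [this]

lemma recover {G G' : Set (Set Z)} {B : Set Z} (hP : PB G B) (hP' : PB G' B)
    (hq : quot G B = quot G' B) (hr : rest G B = rest G' B) : G = G' := by
  have h1 : ∀ D : Set Z, (D ∩ B = ∅ ∨ B ⊆ D) → (D ∈ G ↔ D ∈ G') := by
    intro D hD
    rw [mem_of_quot hD, hq, ← mem_of_quot hD]
  have h2 : ∀ D : Set Z, (∃ D' ∈ G, D' ∩ B = D ∩ B) ↔ (∃ D' ∈ G', D' ∩ B = D ∩ B) := by
    intro D
    have key : ∀ K : Set (Set Z), (∃ D' ∈ K, D' ∩ B = D ∩ B) ↔
        (Subtype.val ⁻¹' D : Set B) ∈ rest K B := by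
      intro K
      constructor
      · rintro ⟨D', h3, h4⟩
        refine ⟨D', h3, ?_⟩
        ext y
        have := Set.ext_iff.1 h4 y
        simp only [mem_inter_iff, y.2, and_true] at this
        exact this
      · rintro ⟨D', h3, h4⟩
        refine ⟨D', h3, ?_⟩
        ext y
        constructor
        · rintro ⟨h5, h6⟩
          refine ⟨?_, h6⟩
          have : (⟨y, h6⟩ : B) ∈ (Subtype.val ⁻¹' D' : Set B) := h5
          rw [h4] at this
          exact this
        · rintro ⟨h5, h6⟩
          refine ⟨?_, h6⟩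
          have : (⟨y, h6⟩ : B) ∈ (Subtype.val ⁻¹' D : Set B) := h5
          rw [← h4] at this
          exact this
    rw [key, key, hr]
  ext D
  rcases (D ∩ B).eq_empty_or_nonempty with h | h
  · exact h1 D (Or.inl h)
  · rw [hP D h, hP' D h, h1 (D ∪ B) (Or.inr subset_union_right), h2 D,
      h1 (D \ B) (Or.inl (by ext y; simp))]

end

/-- the number of the nonprimitive geometries -/
noncomputable def Lnp (n : ℕ) : ℕ := Set.ncard {G : CG (Fin n) | ¬ IsPrimitive G.1}

/-- The upper bound for the number of nonprimitive geometries. -/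
lemma Lnp_le (n : ℕ) : Lnp n ≤ 2 ^ n * (L (n - 1) * 2 ^ 2 ^ ((n + 1) / 2)) := by
  classical
  have hf : ∀ G : {G : CG (Fin n) | ¬ IsPrimitive G.1}, ∃ B : Set (Fin n), 2 ≤ B.ncard ∧
      B.ncard + 1 ≤ n ∧ PB G.1.1 B := by
    intro G
    have := exists_fiber G.2
    rwa [Nat.card_fin] at this
  choose B h2 h3 h4 using hf
  let T := {B : Set (Fin n) // 2 ≤ B.ncard ∧ B.ncard + 1 ≤ n}
  let Φ : {G : CG (Fin n) | ¬ IsPrimitive G.1} →
      Σ B : T, CG (Option (B.1ᶜ : Set (Fin n))) × CG B.1 := fun G =>
    ⟨⟨B G, h2 G, h3 G⟩, ⟨quot G.1.1 (B G), quot_CG G.1.2 (h4 G)⟩,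
      ⟨rest G.1.1 (B G), rest_CG G.1.2 (B G)⟩⟩
  have hΦ : Function.Injective Φ := by
    intro G G' h
    have e1 : B G = B G' := congrArg (fun x => x.1.1) h
    let P : (Σ B : T, CG (Option (B.1ᶜ : Set (Fin n))) × CG B.1) → Prop := fun x =>
      x.2.1.1 = quot G.1.1 x.1.1 ∧ x.2.2.1 = rest G.1.1 x.1.1
    have hP : P (Φ G) := ⟨rfl, rfl⟩
    rw [h] at hP
    have hP1 : quot G'.1.1 (B G') = quot G.1.1 (B G') := hP.1
    have hP2 : rest G'.1.1 (B G') = rest G.1.1 (B G') := hP.2
    have := recover (e1 ▸ h4 G) (h4 G') hP1.symm hP2.symm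
    exact Subtype.ext (Subtype.ext this)
  have h5 := Nat.card_le_card_of_injective Φ hΦ
  rw [Nat.card_sigma] at h5
  have h6 : ∀ B : T, Nat.card (CG (Option (B.1ᶜ : Set (Fin n))) × CG B.1) ≤
      L (n - 1) * 2 ^ 2 ^ ((n + 1) / 2) := by
    intro B
    obtain ⟨B, hB2, hBn⟩ := B
    rw [Nat.card_prod, card_CG, card_CG]
    have c1 : Nat.card B = B.ncard := rfl
    have c2 : Nat.card (Option (Bᶜ : Set (Fin n))) = n - B.ncard + 1 := by
      rw [Finite.card_option]
      have : Nat.card (Bᶜ : Set (Fin n)) = Bᶜ.ncard := rfl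
      rw [this, Set.ncard_compl, Nat.card_fin]
    rw [c1, c2]
    rcases le_total B.ncard (n - B.ncard + 1) with h | h
    · refine Nat.mul_le_mul (mono' (by omega)) ((upper _).trans ?_)
      apply Nat.pow_le_pow_right (by norm_num)
      apply Nat.pow_le_pow_right (by norm_num)
      omega
    · rw [mul_comm]
      refine Nat.mul_le_mul (mono' (by omega)) ((upper _).trans ?_)
      apply Nat.pow_le_pow_right (by norm_num)
      apply Nat.pow_le_pow_right (by norm_num)
      omega
  have h7 : Fintype.card T ≤ 2 ^ n := by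
    have := Fintype.card_subtype_le (fun B : Set (Fin n) => 2 ≤ B.ncard ∧ B.ncard + 1 ≤ n)
    rw [Fintype.card_set, Fintype.card_fin] at this
    exact this
  calc Lnp n ≤ ∑ B : T, Nat.card (CG (Option (B.1ᶜ : Set (Fin n))) × CG B.1) := h5
    _ ≤ ∑ B : T, L (n - 1) * 2 ^ 2 ^ ((n + 1) / 2) := Finset.sum_le_sum fun B _ => h6 B
    _ = Fintype.card T * (L (n - 1) * 2 ^ 2 ^ ((n + 1) / 2)) := by
        rw [Finset.sum_const, Finset.card_univ, smul_eq_mul]
    _ ≤ _ := Nat.mul_le_mul_right _ h7

end Pool.Agent.Q234.CG
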