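import Mathlib
import Pool.Agent.Q234.CGUpper

set_option autoImplicit false

namespace Pool.Agent.Q234.CG

open Set Filter Topology

lemma num1 : ∀ M : ℕ, 20 ≤ M → 8 * (2 * M + 1) ^ 3 ≤ 2 ^ M := by
  intro M hM
  induction M, hM using Nat.le_induction with
  | base => norm_num
  | succ M hM ih =>
    rw [pow_succ 2 M]
    have h : 8 * (2 * (M + 1) + 1) ^ 3 ≤ 8 * (2 * M + 1) ^ 3 * 2 := by
      nlinarith [mul_le_mul hM hM (by norm_num) (by omega), sq_nonneg (M : ℤ)]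
    omega

lemma num2 : ∀ M : ℕ, 20 ≤ M → (2 * M + 2) ^ 2 + 2 * M + 2 ≤ 2 ^ (M + 1) := by
  intro M hM
  have h := num1 M hM
  rw [pow_succ 2 M]
  nlinarith

lemma num3 (N : ℕ) (hN : 40 ≤ N) :
    ((N * ((2 ^ ((N + 2) / 2) + (N + 1) ^ 2 + N + 1) * N)) + 1) * (N - 1) < 2 ^ (N - 1) := by
  set M := N / 2 with hM
  have hM20 : 20 ≤ M := by omega
  have e1 : (N + 2) / 2 = M + 1 := by omega
  rw [e1]
  have hNM : N ≤ 2 * M + 1 := by omega
  have hNM' : 2 * M ≤ N := by omega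
  set w := 2 ^ (M + 1) + (N + 1) ^ 2 + N + 1 with hw
  have hw1 : w ≤ 2 ^ (M + 2) := by
    have h2 := num2 M hM20
    have h3 : (N + 1) ^ 2 ≤ (2 * M + 2) ^ 2 := Nat.pow_le_pow_left (by omega) 2
    have h4 : 2 ^ (M + 2) = 2 ^ (M + 1) + 2 ^ (M + 1) := by ring
    omega
  have h5 : (N * (w * N) + 1) * (N - 1) < N * (w * N) * N := by
    obtain ⟨K, rfl⟩ : ∃ K, N = K + 1 := ⟨N - 1, by omega⟩
    rw [Nat.add_sub_cancel]
    have hw0 : 0 < w := by positivity
    have h6 : K < (K + 1) * (w * (K + 1)) := by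
      calc K < (K + 1) * (1 * 1) := by omega
        _ ≤ (K + 1) * (w * (K + 1)) :=
          Nat.mul_le_mul_left _ (Nat.mul_le_mul hw0 (by omega))
    nlinarith
  have h6 : N * (w * N) * N ≤ (2 * M + 1) ^ 3 * 2 ^ (M + 2) := by
    calc N * (w * N) * N = N ^ 3 * w := by ring
      _ ≤ (2 * M + 1) ^ 3 * 2 ^ (M + 2) :=
        Nat.mul_le_mul (Nat.pow_le_pow_left hNM 3) hw1
  have h7 : (2 * M + 1) ^ 3 * 2 ^ (M + 2) ≤ 2 ^ (N - 1) := by
    have h8 := num1 M hM20
    have h9 : 2 ^ (M + 2) = 8 * 2 ^ (M - 1) := by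
      obtain ⟨K, hK⟩ : ∃ K, M = K + 1 := ⟨M - 1, by omega⟩
      rw [hK, Nat.add_sub_cancel]
      ring
    calc (2 * M + 1) ^ 3 * 2 ^ (M + 2) = (8 * (2 * M + 1) ^ 3) * 2 ^ (M - 1) := by
          rw [h9]; ring
      _ ≤ 2 ^ M * 2 ^ (M - 1) := Nat.mul_le_mul_right _ h8
      _ = 2 ^ (M + (M - 1)) := by rw [pow_add]
      _ ≤ 2 ^ (N - 1) := Nat.pow_le_pow_right (by norm_num) (by omega)
  omega

/-- The main inequality. -/
lemma main_ineq (n : ℕ) (hn : 41 ≤ n) : Lnp n * 2 ^ (n ^ 2) ≤ 2 * L n := by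
  obtain ⟨N, rfl⟩ : ∃ N, n = N + 1 := ⟨n - 1, by omega⟩
  have hN : 40 ≤ N := by omega
  set w := 2 ^ ((N + 2) / 2) + (N + 1) ^ 2 + N + 1 with hw
  have h1 : 2 * 2 ^ (N * (w * N)) ≤ L N := by
    have h2 := powerset_bound (N - 1) (N * (w * N) + 1) (by omega) (num3 N hN)
    rw [Nat.sub_add_cancel (by omega : 1 ≤ N)] at h2
    calc 2 * 2 ^ (N * (w * N)) = 2 ^ (N * (w * N) + 1) := by ring
      _ ≤ L N := h2
  have h3 := growth' N w (by omega) h1
  have h4 := Lnp_le (N + 1)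
  rw [Nat.add_sub_cancel, show N + 1 + 1 = N + 2 from rfl] at h4
  have h5 : Lnp (N + 1) * 2 ^ ((N + 1) ^ 2 + N + 1) ≤ 2 ^ (N + 1) * (2 * L (N + 1)) := by
    calc Lnp (N + 1) * 2 ^ ((N + 1) ^ 2 + N + 1)
        ≤ (2 ^ (N + 1) * (L N * 2 ^ 2 ^ ((N + 2) / 2))) * 2 ^ ((N + 1) ^ 2 + N + 1) :=
          Nat.mul_le_mul_right _ h4
      _ = 2 ^ (N + 1) * (L N * 2 ^ w) := by
          rw [hw, show 2 ^ ((N + 2) / 2) + (N + 1) ^ 2 + N + 1 =
            2 ^ ((N + 2) / 2) + ((N + 1) ^ 2 + N + 1) by ring, pow_add 2 (2 ^ ((N + 2) / 2))]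
          ring
      _ ≤ 2 ^ (N + 1) * (2 * L (N + 1)) := Nat.mul_le_mul_left _ h3
  have h6 : Lnp (N + 1) * 2 ^ ((N + 1) ^ 2 + N + 1) =
      2 ^ (N + 1) * (Lnp (N + 1) * 2 ^ ((N + 1) ^ 2)) := by
    rw [show (N + 1) ^ 2 + N + 1 = (N + 1) ^ 2 + (N + 1) by ring, pow_add 2 ((N + 1) ^ 2)]
    ring
  rw [h6] at h5
  exact Nat.le_of_mul_le_mul_left h5 (by positivity)

lemma L_pos (n : ℕ) : 0 < L n := by
  have : Nonempty (CG (Fin n)) := ⟨⟨univ, univ_CG _⟩⟩
  exact Nat.card_pos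

lemma Lpr_add (n : ℕ) : Lpr n + Lnp n = L n := by
  unfold Lpr Lnp
  rw [← Set.ncard_union_eq]
  · have : {G : CG (Fin n) | IsPrimitive G.1} ∪ {G : CG (Fin n) | ¬ IsPrimitive G.1} = univ := by
      ext G
      simp only [mem_union, mem_ofPred_eq, mem_univ, iff_true]
      exact em _
    rw [this, Set.ncard_univ]
    rfl
  · rw [Set.disjoint_left]
    intro G hG hG'
    exact hG' hG

lemma ratio_tendsto (a b : ℕ → ℕ) (h : ∀ᶠ n in atTop, (b n - a n : ℝ) * 2 ^ n ≤ 2 * b n)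
    (hb : ∀ n, 0 < b n) (hab : ∀ n, a n ≤ b n) :
    Tendsto (fun n => (a n : ℝ) / b n) atTop (𝓝 1) := by
  have h1 : Tendsto (fun n : ℕ => (1 : ℝ) - 2 * (1 / 2) ^ n) atTop (𝓝 (1 - 2 * 0)) :=
    tendsto_const_nhds.sub ((tendsto_pow_atTop_nhds_zero_of_lt_one (by norm_num)
      (by norm_num)).const_mul 2)
  rw [mul_zero, sub_zero] at h1
  refine tendsto_of_tendsto_of_tendsto_of_le_of_le' h1 tendsto_const_nhds ?_ ?_
  · filter_upwards [h] with n hn
    have hbn : (0 : ℝ) < b n := by exact_mod_cast hb n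
    rw [le_div_iff₀ hbn]
    have h2 : (0 : ℝ) < 2 ^ n := by positivity
    have h3 : ((1 : ℝ) / 2) ^ n * 2 ^ n = 1 := by
      rw [← mul_pow]; norm_num
    have h4 : (1 - 2 * (1 / 2 : ℝ) ^ n) * b n * 2 ^ n = b n * 2 ^ n - 2 * b n := by
      linear_combination (-2 * (b n : ℝ)) * h3
    have h5 : (1 - 2 * (1 / 2 : ℝ) ^ n) * b n * 2 ^ n ≤ a n * 2 ^ n := by
      rw [h4]; linarith
    exact le_of_mul_le_mul_right h5 h2
  · refine Eventually.of_forall fun n => ?_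
    have hbn : (0 : ℝ) < b n := by exact_mod_cast hb n
    rw [div_le_one hbn]
    exact_mod_cast hab n

lemma L_le_U (n : ℕ) : L n ≤ U n * n.factorial := by
  classical
  have hf : ∀ G : CG (Fin n), ∃ e : Fin n ≃ Fin n, ∀ D : Set (Fin n),
      D ∈ G.1 ↔ e '' D ∈ (Quotient.out (Quotient.mk (isoSetoid n) G)).1 := by
    intro G
    have h : (isoSetoid n).r (Quotient.out (Quotient.mk (isoSetoid n) G)) G :=
      Quotient.mk_out (s := isoSetoid n) G
    have h' : Iso G.1 (Quotient.out (Quotient.mk (isoSetoid n) G)).1 := Iso.symm h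
    exact h'
  choose e he using hf
  let Φ : CG (Fin n) → Quotient (isoSetoid n) × Equiv.Perm (Fin n) :=
    fun G => (Quotient.mk _ G, e G)
  have hΦ : Function.Injective Φ := by
    intro G H h
    simp only [Φ, Prod.mk.injEq] at h
    apply Subtype.ext
    ext D
    rw [he G D, he H D, h.1, h.2]
  have h1 := Nat.card_le_card_of_injective Φ hΦ
  rw [Nat.card_prod, Nat.card_eq_fintype_card (α := Equiv.Perm (Fin n)), Fintype.card_perm,
    Fintype.card_fin] at h1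
  exact h1

lemma U_le (n : ℕ) : U n ≤ Upr n + Lnp n := by
  classical
  have h1 : (univ : Set (Quotient (isoSetoid n))) ⊆
      {c : Quotient (isoSetoid n) | ∃ G : CG (Fin n), IsPrimitive G.1 ∧ Quotient.mk _ G = c} ∪
      (Quotient.mk (isoSetoid n)) '' {G : CG (Fin n) | ¬ IsPrimitive G.1} := by
    intro c _
    induction c using Quotient.inductionOn with
    | h G =>
      by_cases hG : IsPrimitive G.1
      · exact Or.inl ⟨G, hG, rfl⟩
      · exact Or.inr ⟨G, hG, rfl⟩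
  have h2 := Set.ncard_le_ncard h1 (Set.toFinite _)
  rw [Set.ncard_univ] at h2
  calc U n ≤ _ := h2
    _ ≤ Upr n + ((Quotient.mk (isoSetoid n)) '' {G : CG (Fin n) | ¬ IsPrimitive G.1}).ncard :=
        Set.ncard_union_le _ _
    _ ≤ Upr n + Lnp n := by
        gcongr
        exact Set.ncard_image_le (Set.toFinite _)

lemma U_pos (n : ℕ) : 0 < U n := by
  have : Nonempty (CG (Fin n)) := ⟨⟨univ, univ_CG _⟩⟩
  have : Nonempty (Quotient (isoSetoid n)) := ⟨Quotient.mk _ ⟨univ, univ_CG _⟩⟩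
  exact Nat.card_pos

lemma Upr_le (n : ℕ) : Upr n ≤ U n := by
  unfold Upr U
  rw [← Set.ncard_univ]
  exact Set.ncard_le_ncard (subset_univ _)

lemma fact_bound (n : ℕ) : n.factorial * 2 ^ n ≤ 2 ^ (n ^ 2) * 1 ∨ n = 0 := by
  rcases Nat.eq_zero_or_pos n with h | h
  · exact Or.inr h
  · left
    have h1 : n.factorial ≤ n ^ n := Nat.factorial_le_pow n
    have h2 : n ≤ 2 ^ (n - 1) := by
      have := Nat.lt_two_pow_self (n := n - 1)
      omega
    have h3 : n ^ n ≤ 2 ^ ((n - 1) * n) := by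
      rw [pow_mul]
      exact Nat.pow_le_pow_left h2 n
    calc n.factorial * 2 ^ n ≤ 2 ^ ((n - 1) * n) * 2 ^ n :=
          Nat.mul_le_mul_right _ (h1.trans h3)
      _ = 2 ^ ((n - 1) * n + n) := by rw [pow_add]
      _ = 2 ^ (n ^ 2) * 1 := by
          rw [mul_one]
          congr 1
          obtain ⟨k, rfl⟩ : ∃ k, n = k + 1 := ⟨n - 1, by omega⟩
          rw [Nat.add_sub_cancel]
          ring

theorem labelled : Tendsto (fun n => (Lpr n : ℝ) / L n) atTop (𝓝 1) := by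
  apply ratio_tendsto
  · filter_upwards [eventually_ge_atTop 41] with n hn
    have h1 := main_ineq n hn
    have h2 : (L n : ℝ) - Lpr n = Lnp n := by
      have := Lpr_add n
      rw [← this]; push_cast; ring
    rw [h2]
    have h3 : Lnp n * 2 ^ n ≤ 2 * L n := by
      refine le_trans (Nat.mul_le_mul_left _ (Nat.pow_le_pow_right (by norm_num) ?_)) h1
      nlinarith
    exact_mod_cast h3
  · exact L_pos
  · intro n
    have := Lpr_add n
    omega

theorem unlabelled : Tendsto (fun n => (Upr n : ℝ) / U n) atTop (𝓝 1) := by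
  apply ratio_tendsto
  · filter_upwards [eventually_ge_atTop 41] with n hn
    have h1 := main_ineq n hn
    have h2 := L_le_U n
    have h3 := U_le n
    have h4 : n.factorial * 2 ^ n ≤ 2 ^ (n ^ 2) := by
      rcases fact_bound n with h | h
      · rwa [mul_one] at h
      · omega
    have h5 : n.factorial * (Lnp n * 2 ^ n) ≤ n.factorial * (2 * U n) := by
      calc n.factorial * (Lnp n * 2 ^ n) = Lnp n * (n.factorial * 2 ^ n) := by ring
        _ ≤ Lnp n * 2 ^ (n ^ 2) := Nat.mul_le_mul_left _ h4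
        _ ≤ 2 * L n := h1
        _ ≤ 2 * (U n * n.factorial) := Nat.mul_le_mul_left _ h2
        _ = n.factorial * (2 * U n) := by ring
    have h6 := Nat.le_of_mul_le_mul_left h5 (Nat.factorial_pos n)
    have h7 : (U n : ℝ) - Upr n ≤ Lnp n := by
      have : (U n : ℝ) ≤ Upr n + Lnp n := by exact_mod_cast h3
      linarith
    have h8 : (Lnp n : ℝ) * 2 ^ n ≤ 2 * U n := by exact_mod_cast h6
    have h9 : (0 : ℝ) < 2 ^ n := by positivity
    nlinarith
  · exact U_pos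
  · exact Upr_le

end Pool.Agent.Q234.CG
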