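import Mathlib
import Pool.Agent.Q9.DE.Tau

/-! The energy of the differences of squares, and the number of pairs of points with equal values of two diagonal
quadratic forms in four variables. -/

set_option autoImplicit false

namespace Pool.Agent.Q234.EN

open Finset

/-- the pairs of integers in `[-R, R]` -/
noncomputable def Sq (R : ℕ) : Finset (ℤ × ℤ) := Icc (-(R : ℤ)) R ×ˢ Icc (-(R : ℤ)) R

/-- the difference of the squares -/
def D (s : ℤ × ℤ) : ℤ := s.1 ^ 2 - s.2 ^ 2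

/-- the number of the representations as a difference of two squares -/
noncomputable def rho (R : ℕ) (m : ℤ) : ℕ := ((Sq R).filter (fun s => D s = m)).card

lemma mem_Sq {R : ℕ} {s : ℤ × ℤ} : s ∈ Sq R ↔ (-(R : ℤ) ≤ s.1 ∧ s.1 ≤ R) ∧ (-(R : ℤ) ≤ s.2 ∧ s.2 ≤ R) := by
  unfold Sq
  rw [mem_product, mem_Icc, mem_Icc]

lemma rho_zero (R : ℕ) : rho R 0 ≤ 2 * (2 * R + 1) := by
  classical
  unfold rho
  have hsub : (Sq R).filter (fun s => D s = 0) ⊆
      ((Icc (-(R : ℤ)) R).image (fun a => (a, a))) ∪ ((Icc (-(R : ℤ)) R).image (fun a => (a, -a))) := by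
    intro s hs
    rw [mem_filter, mem_Sq] at hs
    obtain ⟨⟨h1, h2⟩, h3⟩ := hs
    unfold D at h3
    rw [mem_union, mem_image, mem_image]
    have h4 : s.1 ^ 2 = s.2 ^ 2 := by linarith
    rcases sq_eq_sq_iff_eq_or_eq_neg.1 h4 with h5 | h5
    · left
      exact ⟨s.1, mem_Icc.2 h1, Prod.ext rfl h5⟩
    · right
      exact ⟨s.1, mem_Icc.2 h1, Prod.ext rfl (by simp only; omega)⟩
  refine (card_le_card hsub).trans ((card_union_le _ _).trans ?_)
  have hc : (Icc (-(R : ℤ)) R).card = 2 * R + 1 := by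
    rw [Int.card_Icc]
    omega
  have h1 : ((Icc (-(R : ℤ)) R).image (fun a => (a, a))).card ≤ 2 * R + 1 := card_image_le.trans hc.le
  have h2 : ((Icc (-(R : ℤ)) R).image (fun a => (a, -a))).card ≤ 2 * R + 1 := card_image_le.trans hc.le
  omega

lemma rho_ne (R : ℕ) (m : ℤ) (hm : m ≠ 0) : rho R m ≤ 2 * m.natAbs.divisors.card := by
  classical
  unfold rho
  have h1 : ((Sq R).filter (fun s => D s = m)).card ≤
      ((m.natAbs.divisors.image (fun d : ℕ => (d : ℤ))) ∪ (m.natAbs.divisors.image (fun d : ℕ => -(d : ℤ)))).card := by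
    apply card_le_card_of_injOn (fun s => s.1 - s.2)
    · intro s hs
      rw [mem_coe, mem_filter] at hs
      have h3 := hs.2
      unfold D at h3
      have h4 : (s.1 - s.2) * (s.1 + s.2) = m := by rw [← h3]; ring
      rw [mem_coe, mem_union, mem_image, mem_image]
      have h5 : (s.1 - s.2).natAbs ∈ m.natAbs.divisors := by
        rw [Nat.mem_divisors]
        refine ⟨?_, Int.natAbs_ne_zero.2 hm⟩
        rw [Int.natAbs_dvd_natAbs]
        exact ⟨_, h4.symm⟩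
      rcases Int.natAbs_eq (s.1 - s.2) with h6 | h6
      · left
        exact ⟨_, h5, h6.symm⟩
      · right
        exact ⟨_, h5, h6.symm⟩
    · intro s hs t ht hst
      rw [mem_coe, mem_filter] at hs ht
      simp only at hst
      have h3 := hs.2
      have h4 := ht.2
      unfold D at h3 h4
      have h5 : (s.1 - s.2) * (s.1 + s.2) = m := by rw [← h3]; ring
      have h6 : (t.1 - t.2) * (t.1 + t.2) = m := by rw [← h4]; ring
      rw [← hst] at h6
      have h7 : s.1 - s.2 ≠ 0 := by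
        intro h0
        rw [h0, zero_mul] at h5
        exact hm h5.symm
      have h8 : s.1 + s.2 = t.1 + t.2 := mul_left_cancel₀ h7 (h5.trans h6.symm)
      exact Prod.ext (by omega) (by omega)
  refine h1.trans ((card_union_le _ _).trans ?_)
  have h2 : (m.natAbs.divisors.image (fun d : ℕ => (d : ℤ))).card ≤ m.natAbs.divisors.card := card_image_le
  have h3 : (m.natAbs.divisors.image (fun d : ℕ => -(d : ℤ))).card ≤ m.natAbs.divisors.card := card_image_le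
  omega

/-- the energy -/
lemma energy_eq (R : ℕ) : ((Sq R ×ˢ Sq R).filter (fun p => D p.1 = D p.2)).card =
    ∑ m ∈ Icc (-((R ^ 2 : ℕ) : ℤ)) ((R ^ 2 : ℕ) : ℤ), rho R m ^ 2 := by
  classical
  have hmem : ∀ p ∈ (Sq R ×ˢ Sq R).filter (fun p => D p.1 = D p.2), D p.1 ∈ Icc (-((R ^ 2 : ℕ) : ℤ)) ((R ^ 2 : ℕ) : ℤ) := by
    intro p hp
    rw [mem_filter, mem_product, mem_Sq] at hp
    obtain ⟨⟨⟨⟨h1, h2⟩, h3, h4⟩, -⟩, -⟩ := hp
    have h5 : p.1.1 ^ 2 ≤ (R : ℤ) ^ 2 := by nlinarith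
    have h6 : p.1.2 ^ 2 ≤ (R : ℤ) ^ 2 := by nlinarith
    unfold D
    rw [mem_Icc]
    push_cast
    constructor <;> nlinarith [sq_nonneg p.1.1, sq_nonneg p.1.2]
  rw [card_eq_sum_card_fiberwise hmem]
  apply sum_congr rfl
  intro m _
  have : (((Sq R ×ˢ Sq R).filter (fun p => D p.1 = D p.2)).filter (fun p => D p.1 = m)) =
      ((Sq R).filter (fun s => D s = m)) ×ˢ ((Sq R).filter (fun s => D s = m)) := by
    ext p
    rw [mem_filter, mem_filter, mem_product, mem_product, mem_filter, mem_filter]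
    constructor
    · rintro ⟨⟨⟨h1, h2⟩, h3⟩, h4⟩
      exact ⟨⟨h1, h4⟩, h2, h3 ▸ h4⟩
    · rintro ⟨⟨h1, h4⟩, h2, h5⟩
      exact ⟨⟨⟨h1, h2⟩, h4.trans h5.symm⟩, h4⟩
  rw [this, card_product]
  unfold rho
  ring

lemma energy_le (R : ℕ) (hR : 1 ≤ R) : (((Sq R ×ˢ Sq R).filter (fun p => D p.1 = D p.2)).card : ℝ) ≤
    44 * R ^ 2 * (1 + Real.log ((R ^ 2 : ℕ) : ℝ)) ^ 3 := by
  classical
  rw [energy_eq]
  obtain ⟨N, hN⟩ : ∃ N, N = R ^ 2 := ⟨_, rfl⟩
  rw [← hN]
  have hN1 : 1 ≤ N := by rw [hN]; exact Nat.one_le_pow _ _ hR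
  have hsub : Icc (-(N : ℤ)) N ⊆ {0} ∪ ((Icc 1 N).image (fun d : ℕ => (d : ℤ)) ∪ (Icc 1 N).image (fun d : ℕ => -(d : ℤ))) := by
    intro m hm
    rw [mem_Icc] at hm
    rw [mem_union, mem_singleton, mem_union, mem_image, mem_image]
    rcases lt_trichotomy m 0 with h | h | h
    · right; right
      exact ⟨m.natAbs, mem_Icc.2 ⟨by omega, by omega⟩, by omega⟩
    · left; exact h
    · right; left
      exact ⟨m.natAbs, mem_Icc.2 ⟨by omega, by omega⟩, by omega⟩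
  have h1 : ∑ m ∈ Icc (-(N : ℤ)) N, rho R m ^ 2 ≤ rho R 0 ^ 2 +
      (∑ d ∈ Icc 1 N, rho R (d : ℤ) ^ 2 + ∑ d ∈ Icc 1 N, rho R (-(d : ℤ)) ^ 2) := by
    refine (sum_le_sum_of_subset hsub).trans ?_
    refine (sum_union_inter (s₁ := {0}) (s₂ := ((Icc 1 N).image (fun d : ℕ => (d : ℤ)) ∪ (Icc 1 N).image (fun d : ℕ => -(d : ℤ))))
      (f := fun m => rho R m ^ 2) ▸ Nat.le_add_right _ _).trans ?_
    rw [sum_singleton]
    apply Nat.add_le_add_left
    refine (sum_union_inter (s₁ := (Icc 1 N).image (fun d : ℕ => (d : ℤ))) (s₂ := (Icc 1 N).image (fun d : ℕ => -(d : ℤ)))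
      (f := fun m => rho R m ^ 2) ▸ Nat.le_add_right _ _).trans ?_
    apply Nat.add_le_add
    · rw [sum_image (fun a _ b _ h => by simpa using h)]
    · rw [sum_image (fun a _ b _ h => by simpa using h)]
  have h2 : ∀ d ∈ Icc 1 N, rho R (d : ℤ) ^ 2 ≤ 4 * d.divisors.card ^ 2 := by
    intro d hd
    rw [mem_Icc] at hd
    have := rho_ne R (d : ℤ) (by omega)
    rw [Int.natAbs_natCast] at this
    calc rho R (d : ℤ) ^ 2 ≤ (2 * d.divisors.card) ^ 2 := Nat.pow_le_pow_left this 2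
      _ = _ := by ring
  have h3 : ∀ d ∈ Icc 1 N, rho R (-(d : ℤ)) ^ 2 ≤ 4 * d.divisors.card ^ 2 := by
    intro d hd
    rw [mem_Icc] at hd
    have := rho_ne R (-(d : ℤ)) (by omega)
    rw [Int.natAbs_neg, Int.natAbs_natCast] at this
    calc rho R (-(d : ℤ)) ^ 2 ≤ (2 * d.divisors.card) ^ 2 := Nat.pow_le_pow_left this 2
      _ = _ := by ring
  have h4 : ∑ m ∈ Icc (-(N : ℤ)) N, rho R m ^ 2 ≤ (2 * (2 * R + 1)) ^ 2 + 8 * ∑ d ∈ Icc 1 N, d.divisors.card ^ 2 := by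
    refine h1.trans ?_
    have e1 := sum_le_sum h2
    have e2 := sum_le_sum h3
    rw [← mul_sum] at e1 e2
    have e3 := Nat.pow_le_pow_left (rho_zero R) 2
    omega
  have h5 := Pool.Agent.Q9.DE.tau_sq N
  have h6 : ((∑ m ∈ Icc (-(N : ℤ)) N, rho R m ^ 2 : ℕ) : ℝ) ≤ (2 * (2 * R + 1)) ^ 2 + 8 * ∑ d ∈ Icc 1 N, ((d.divisors.card : ℕ) : ℝ) ^ 2 := by
    exact_mod_cast h4
  refine h6.trans ?_
  have hRr : (1 : ℝ) ≤ R := by exact_mod_cast hR
  have hNr : (N : ℝ) = (R : ℝ) ^ 2 := by rw [hN]; push_cast; rfl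
  have hlog : 0 ≤ Real.log (N : ℝ) := Real.log_natCast_nonneg N
  have h7 : 1 ≤ (1 + Real.log (N : ℝ)) ^ 3 := one_le_pow₀ (by linarith)
  rw [hNr] at h5
  have h8 : (2 * (2 * (R : ℝ) + 1)) ^ 2 ≤ 36 * R ^ 2 := by nlinarith
  have h9 : 36 * (R : ℝ) ^ 2 * 1 ≤ 36 * R ^ 2 * (1 + Real.log (N : ℝ)) ^ 3 := mul_le_mul_of_nonneg_left h7 (by positivity)
  rw [← hNr] at h5 ⊢
  rw [← hNr] at h8 h9
  linarith

lemma cross_le {α β γ : Type*} [DecidableEq γ] (S : Finset α) (T : Finset β) (f : α → γ) (g : β → γ) :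
    2 * ((S ×ˢ T).filter (fun p => f p.1 = g p.2)).card ≤ ((S ×ˢ S).filter (fun p => f p.1 = f p.2)).card +
      ((T ×ˢ T).filter (fun p => g p.1 = g p.2)).card := by
  classical
  set Z := S.image f ∪ T.image g with hZ
  have e1 : ((S ×ˢ T).filter (fun p => f p.1 = g p.2)).card =
      ∑ z ∈ Z, (S.filter (fun a => f a = z)).card * (T.filter (fun b => g b = z)).card := by
    rw [card_eq_sum_card_fiberwise (f := fun p : α × β => f p.1) (t := Z)]
    · apply sum_congr rfl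
      intro z _
      rw [← card_product]
      congr 1
      ext p
      simp only [mem_filter, mem_product]
      constructor
      · rintro ⟨⟨⟨h1, h2⟩, h3⟩, h4⟩
        exact ⟨⟨h1, h4⟩, h2, h3 ▸ h4⟩
      · rintro ⟨⟨h1, h4⟩, h2, h5⟩
        exact ⟨⟨⟨h1, h2⟩, h4.trans h5.symm⟩, h4⟩
    · intro p hp
      rw [mem_coe, mem_filter, mem_product] at hp
      rw [hZ, mem_coe, mem_union]
      exact Or.inl (mem_image_of_mem f hp.1.1)
  have e2 : ((S ×ˢ S).filter (fun p => f p.1 = f p.2)).card =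
      ∑ z ∈ Z, (S.filter (fun a => f a = z)).card * (S.filter (fun a => f a = z)).card := by
    rw [card_eq_sum_card_fiberwise (f := fun p : α × α => f p.1) (t := Z)]
    · apply sum_congr rfl
      intro z _
      rw [← card_product]
      congr 1
      ext p
      simp only [mem_filter, mem_product]
      constructor
      · rintro ⟨⟨⟨h1, h2⟩, h3⟩, h4⟩
        exact ⟨⟨h1, h4⟩, h2, h3 ▸ h4⟩
      · rintro ⟨⟨h1, h4⟩, h2, h5⟩
        exact ⟨⟨⟨h1, h2⟩, h4.trans h5.symm⟩, h4⟩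
    · intro p hp
      rw [mem_coe, mem_filter, mem_product] at hp
      rw [hZ, mem_coe, mem_union]
      exact Or.inl (mem_image_of_mem f hp.1.1)
  have e3 : ((T ×ˢ T).filter (fun p => g p.1 = g p.2)).card =
      ∑ z ∈ Z, (T.filter (fun a => g a = z)).card * (T.filter (fun a => g a = z)).card := by
    rw [card_eq_sum_card_fiberwise (f := fun p : β × β => g p.1) (t := Z)]
    · apply sum_congr rfl
      intro z _
      rw [← card_product]
      congr 1
      ext p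
      simp only [mem_filter, mem_product]
      constructor
      · rintro ⟨⟨⟨h1, h2⟩, h3⟩, h4⟩
        exact ⟨⟨h1, h4⟩, h2, h3 ▸ h4⟩
      · rintro ⟨⟨h1, h4⟩, h2, h5⟩
        exact ⟨⟨⟨h1, h2⟩, h4.trans h5.symm⟩, h4⟩
    · intro p hp
      rw [mem_coe, mem_filter, mem_product] at hp
      rw [hZ, mem_coe, mem_union]
      exact Or.inr (mem_image_of_mem g hp.1.1)
  rw [e1, e2, e3, mul_sum, ← sum_add_distrib]
  apply sum_le_sum
  intro z _
  obtain ⟨x, hx⟩ : ∃ x, x = (S.filter (fun a => f a = z)).card := ⟨_, rfl⟩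
  obtain ⟨y, hy⟩ : ∃ y, y = (T.filter (fun a => g a = z)).card := ⟨_, rfl⟩
  rw [← hx, ← hy]
  zify
  nlinarith [sq_nonneg ((x : ℤ) - y)]

/-- the quadruples of pairs with `D s₀ = D s₂ + 2 D s₃`, `D s₁ = - 2 D s₂ - 3 D s₃` -/
lemma quad_le (R : ℕ) : (((Sq R ×ˢ Sq R) ×ˢ (Sq R ×ˢ Sq R)).filter (fun p =>
    ((D p.1.1, D p.1.2) : ℤ × ℤ) = (D p.2.1 + 2 * D p.2.2, -2 * D p.2.1 - 3 * D p.2.2))).card ≤
    ((Sq R ×ˢ Sq R).filter (fun p => D p.1 = D p.2)).card ^ 2 := by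
  classical
  have h1 := cross_le (Sq R ×ˢ Sq R) (Sq R ×ˢ Sq R) (fun p => ((D p.1, D p.2) : ℤ × ℤ))
    (fun p => ((D p.1 + 2 * D p.2, -2 * D p.1 - 3 * D p.2) : ℤ × ℤ))
  have e0 : (((Sq R ×ˢ Sq R) ×ˢ (Sq R ×ˢ Sq R)).filter (fun p => ((D p.1.1, D p.1.2) : ℤ × ℤ) = (D p.2.1, D p.2.2))).card =
      ((Sq R ×ˢ Sq R).filter (fun p => D p.1 = D p.2)).card ^ 2 := by
    rw [sq, ← card_product]
    apply card_bij (fun p _ => ((p.1.1, p.2.1), (p.1.2, p.2.2)))
    · intro p hp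
      simp only [mem_filter, mem_product, Prod.mk.injEq] at hp ⊢
      tauto
    · intro p _ q _ h
      simp only [Prod.mk.injEq] at h
      exact Prod.ext (Prod.ext h.1.1 h.2.1) (Prod.ext h.1.2 h.2.2)
    · intro q hq
      refine ⟨((q.1.1, q.2.1), (q.1.2, q.2.2)), ?_, rfl⟩
      simp only [mem_filter, mem_product, Prod.mk.injEq] at hq ⊢
      tauto
  have e1 : ((Sq R ×ˢ Sq R) ×ˢ (Sq R ×ˢ Sq R)).filter (fun p =>
      ((D p.1.1 + 2 * D p.1.2, -2 * D p.1.1 - 3 * D p.1.2) : ℤ × ℤ) = (D p.2.1 + 2 * D p.2.2, -2 * D p.2.1 - 3 * D p.2.2)) =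
      ((Sq R ×ˢ Sq R) ×ˢ (Sq R ×ˢ Sq R)).filter (fun p => ((D p.1.1, D p.1.2) : ℤ × ℤ) = (D p.2.1, D p.2.2)) := by
    apply filter_congr
    intro p _
    simp only [Prod.mk.injEq]
    constructor
    · rintro ⟨h2, h3⟩
      constructor <;> omega
    · rintro ⟨h2, h3⟩
      constructor <;> omega
  rw [e1, e0] at h1
  omega

end Pool.Agent.Q234.EN
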