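import Mathlib
import Pool.Agent.Q234.EN
import Pool.Agent.W65.FS.Lower
import Pool.Agent.H373R2.T7.LamZ

/-! Four squares: for almost all odd `n` the form `x² + 3 y² + 5 z² + 7 w²` has many values at the representations. -/

set_option autoImplicit false

namespace Pool.Agent.Q234.FV

open Finset Pool.Agent.Q234.EN Pool.Agent.W65.FS

/-- the second form -/
def q2 (u : Fin 4 → ℤ) : ℤ := u 0 ^ 2 + 3 * u 1 ^ 2 + 5 * u 2 ^ 2 + 7 * u 3 ^ 2

open Classical in
/-- the values at the representations of `n` -/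
noncomputable def Val (n : ℕ) : Finset ℕ := (range (7 * n + 1)).filter (fun p => ∃ x y z w : ℤ,
  (n : ℤ) = x ^ 2 + y ^ 2 + z ^ 2 + w ^ 2 ∧ (p : ℤ) = x ^ 2 + 3 * y ^ 2 + 5 * z ^ 2 + 7 * w ^ 2)

/-- the pairs of representations with equal values -/
noncomputable def Eqp (n : ℕ) : Finset ((Fin 4 → ℤ) × (Fin 4 → ℤ)) :=
  (preps n ×ˢ preps n).filter (fun p => q2 p.1 = q2 p.2)

lemma preps_sum {n : ℕ} {u : Fin 4 → ℤ} (h : u ∈ preps n) : u 0 ^ 2 + u 1 ^ 2 + u 2 ^ 2 + u 3 ^ 2 = n := by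
  unfold preps at h
  rw [mem_filter, mem_reps, Fin.sum_univ_four] at h
  exact h.1

lemma preps_Sq {n R : ℕ} (hn : n < (R + 1) ^ 2) {u : Fin 4 → ℤ} (h : u ∈ preps n) (i : Fin 4) : -(R : ℤ) ≤ u i ∧ u i ≤ R := by
  have h1 := preps_sum h
  have h2 : u i ^ 2 ≤ n := by
    rw [← h1]
    have a0 := sq_nonneg (u 0)
    have a1 := sq_nonneg (u 1)
    have a2 := sq_nonneg (u 2)
    have a3 := sq_nonneg (u 3)
    fin_cases i
    · show u 0 ^ 2 ≤ _
      linarith
    · show u 1 ^ 2 ≤ _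
      linarith
    · show u 2 ^ 2 ≤ _
      linarith
    · show u 3 ^ 2 ≤ _
      linarith
  have h3 : u i ^ 2 < ((R : ℤ) + 1) ^ 2 := by
    have : (n : ℤ) < ((R : ℤ) + 1) ^ 2 := by exact_mod_cast hn
    linarith
  have h4 := abs_lt_of_sq_lt_sq h3 (by positivity)
  rw [abs_lt] at h4
  constructor <;> omega

lemma sq_le (n : ℕ) : (preps n).card ^ 2 ≤ (Val n).card * (Eqp n).card := by
  classical
  have h0 : ∀ u ∈ preps n, (q2 u).toNat ∈ Val n := by
    intro u hu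
    have h1 := preps_sum hu
    unfold Val
    have h2 : 0 ≤ q2 u := by unfold q2; positivity
    have h3 : ((q2 u).toNat : ℤ) = q2 u := Int.toNat_of_nonneg h2
    rw [mem_filter, mem_range]
    refine ⟨?_, u 0, u 1, u 2, u 3, h1.symm, by rw [h3]; rfl⟩
    have h4 : q2 u ≤ 7 * n := by
      unfold q2
      nlinarith [sq_nonneg (u 0), sq_nonneg (u 1), sq_nonneg (u 2), sq_nonneg (u 3)]
    omega
  have h1 : (preps n).card = ∑ v ∈ Val n, ((preps n).filter (fun u => (q2 u).toNat = v)).card :=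
    card_eq_sum_card_fiberwise h0
  have h2 : (Eqp n).card = ∑ v ∈ Val n, ((preps n).filter (fun u => (q2 u).toNat = v)).card ^ 2 := by
    rw [card_eq_sum_card_fiberwise (f := fun p : (Fin 4 → ℤ) × (Fin 4 → ℤ) => (q2 p.1).toNat) (t := Val n)]
    · apply sum_congr rfl
      intro v _
      rw [sq, ← card_product]
      congr 1
      ext p
      unfold Eqp
      simp only [mem_filter, mem_product]
      have k1 : 0 ≤ q2 p.1 := by unfold q2; positivity
      have k2 : 0 ≤ q2 p.2 := by unfold q2; positivity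
      constructor
      · rintro ⟨⟨⟨h1, h2⟩, h3⟩, h4⟩
        exact ⟨⟨h1, h4⟩, h2, by omega⟩
      · rintro ⟨⟨h1, h4⟩, h2, h5⟩
        exact ⟨⟨⟨h1, h2⟩, by omega⟩, h4⟩
    · intro p hp
      unfold Eqp at hp
      rw [mem_coe, mem_filter, mem_product] at hp
      exact h0 _ hp.1.1
  rw [h1, h2]
  exact sq_sum_le_card_mul_sum_sq

/-- the total number of pairs -/
lemma total (X R : ℕ) (hX : X < (R + 1) ^ 2) : ∑ n ∈ Icc 1 X, (Eqp n).card ≤
    ((Sq R ×ˢ Sq R).filter (fun p => D p.1 = D p.2)).card ^ 2 := by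
  classical
  refine le_trans ?_ (quad_le R)
  rw [← card_sigma]
  apply card_le_card_of_injOn (fun s : (_ : ℕ) × ((Fin 4 → ℤ) × (Fin 4 → ℤ)) =>
    (((s.2.1 0, s.2.2 0), (s.2.1 1, s.2.2 1)), ((s.2.1 2, s.2.2 2), (s.2.1 3, s.2.2 3))))
  · intro s hs
    rw [mem_coe, mem_sigma, mem_Icc] at hs
    obtain ⟨⟨h1, h2⟩, h3⟩ := hs
    unfold Eqp at h3
    rw [mem_filter, mem_product] at h3
    obtain ⟨⟨h4, h5⟩, h6⟩ := h3
    have hn : s.1 < (R + 1) ^ 2 := lt_of_le_of_lt h2 hX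
    have a := preps_Sq hn h4
    have b := preps_Sq hn h5
    have c := preps_sum h4
    have d := preps_sum h5
    rw [mem_coe, mem_filter, mem_product, mem_product, mem_product, mem_Sq, mem_Sq, mem_Sq, mem_Sq]
    refine ⟨⟨⟨⟨a 0, b 0⟩, a 1, b 1⟩, ⟨a 2, b 2⟩, a 3, b 3⟩, ?_⟩
    unfold q2 at h6
    simp only [D, Prod.mk.injEq]
    constructor <;> linarith
  · intro s hs t ht hst
    rw [mem_coe, mem_sigma] at hs ht
    obtain ⟨n, u, u'⟩ := s
    obtain ⟨m, v, v'⟩ := t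
    simp only [Prod.mk.injEq] at hst
    obtain ⟨⟨⟨h1, h2⟩, h3, h4⟩, ⟨h5, h6⟩, h7, h8⟩ := hst
    have e1 : u = v := by
      funext i
      fin_cases i
      · exact h1
      · exact h3
      · exact h5
      · exact h7
    have e2 : u' = v' := by
      funext i
      fin_cases i
      · exact h2
      · exact h4
      · exact h6
      · exact h8
    subst e1 e2
    unfold Eqp at hs ht
    simp only [mem_filter, mem_product] at hs ht
    have k1 := preps_sum hs.2.1.1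
    have k2 := preps_sum ht.2.1.1
    have : n = m := by
      rw [k1] at k2
      exact_mod_cast k2
    subst this
    rfl

lemma preps_low (n : ℕ) (hn : Odd n) : n ≤ (preps n).card * n.divisors.card ^ 2 := by
  have h0 : n ≠ 0 := by
    rintro rfl
    simp at hn
  have : NeZero n := ⟨h0⟩
  exact (Fset_lower n hn).trans (Nat.mul_le_mul_right _ ((Fset_le n hn).trans (sol_le n hn)))

open Classical in
/-- **Many values for almost all odd `n`.** -/
theorem val_card (A : ℕ) : ∃ X₀ : ℕ, ∀ X : ℕ, X₀ ≤ X →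
    (((Icc 1 X).filter (fun n : ℕ => Odd n ∧ ¬ ((n : ℝ) ≤ (Val n).card * Real.log n ^ (6 * A + 40)))).card : ℝ) ≤
      X / Real.log X ^ A := by
  obtain ⟨n1, h1⟩ := Pool.Agent.H373R2.T7.ev_L' (max 4 (2 ^ 40 * 44 ^ 2 * 2 ^ (6 * A + 40)))
  obtain ⟨n2, h2⟩ := Pool.Agent.H373R2.T7.ev_log' (A + 1) 1
  refine ⟨max n1 (max n2 16), fun X hX => ?_⟩
  have b1 : n1 ≤ X := le_trans (le_max_left _ _) hX
  have b2 : n2 ≤ X := le_trans (le_trans (le_max_left _ _) (le_max_right _ _)) hX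
  have b3 : 16 ≤ X := le_trans (le_trans (le_max_right _ _) (le_max_right _ _)) hX
  have hL := h1 X b1
  have hs := h2 X b2
  obtain ⟨L, hLd⟩ : ∃ L, L = Real.log X := ⟨_, rfl⟩
  rw [← hLd] at hL hs ⊢
  rw [one_mul] at hs
  have hL4 : 4 ≤ L := (le_max_left _ _).trans hL
  have hLc : 2 ^ 40 * 44 ^ 2 * 2 ^ (6 * A + 40) ≤ L := (le_max_right _ _).trans hL
  have hL0 : 0 < L := by linarith
  have hXr : (16 : ℝ) ≤ X := by exact_mod_cast b3
  have hX0 : (0 : ℝ) < X := by linarith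
  -- the three exceptional sets
  obtain ⟨R, hR⟩ : ∃ R, R = Nat.sqrt X := ⟨_, rfl⟩
  have hR1 : 1 ≤ R := by rw [hR]; exact Nat.sqrt_pos.2 (by omega)
  have hR2 : X < (R + 1) ^ 2 := by rw [hR]; exact Nat.lt_succ_sqrt' X
  have hR3 : R ^ 2 ≤ X := by rw [hR]; exact Nat.sqrt_le' X
  set B1 := Icc 1 ⌊(X : ℝ) / L ^ (A + 1)⌋₊ with hB1
  set B2 := (Icc 1 X).filter (fun n => L ^ (A + 3) < ((n.divisors.card : ℕ) : ℝ)) with hB2
  set B3 := (Icc 1 X).filter (fun n => X * L ^ (A + 10) < ((Eqp n).card : ℝ)) with hB3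
  have c1 : (B1.card : ℝ) ≤ X / L ^ (A + 1) := by
    rw [hB1, Nat.card_Icc, Nat.add_sub_cancel]
    exact Nat.floor_le (by positivity)
  have hlog1 : (1 + L) ^ 3 ≤ L ^ 4 := by
    have e1 : 1 + L ≤ 2 * L := by linarith
    have e2 : (1 + L) ^ 3 ≤ (2 * L) ^ 3 := pow_le_pow_left₀ (by linarith) e1 3
    have e3 : (8 : ℝ) ≤ L := by
      have h9 : (8 : ℝ) ≤ 2 ^ 40 * 44 ^ 2 * 2 ^ (6 * A + 40) := by
        have : (1 : ℝ) ≤ 2 ^ (6 * A + 40) := one_le_pow₀ (by norm_num)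
        nlinarith
      linarith
    calc (1 + L) ^ 3 ≤ (2 * L) ^ 3 := e2
      _ = 8 * L ^ 3 := by ring
      _ ≤ L * L ^ 3 := by gcongr
      _ = L ^ 4 := by ring
  have c2 : (B2.card : ℝ) ≤ X / L ^ (A + 1) := by
    have e1 := Pool.Agent.Q9.DE.tau_sq X
    rw [← hLd] at e1
    have e2 : ∑ _n ∈ B2, L ^ (2 * A + 6) ≤ ∑ n ∈ Icc 1 X, ((n.divisors.card : ℕ) : ℝ) ^ 2 := by
      refine le_trans (sum_le_sum (fun n hn => ?_)) (sum_le_sum_of_subset_of_nonneg (filter_subset _ _) (fun _ _ _ => by positivity))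
      have := (mem_filter.1 hn).2
      calc L ^ (2 * A + 6) = (L ^ (A + 3)) ^ 2 := by rw [← pow_mul]; congr 1; ring
        _ ≤ _ := pow_le_pow_left₀ (by positivity) this.le 2
    rw [sum_const, nsmul_eq_mul] at e2
    rw [le_div_iff₀ (by positivity)]
    have e3 : (B2.card : ℝ) * L ^ (2 * A + 6) ≤ X * L ^ 4 := e2.trans (e1.trans (mul_le_mul_of_nonneg_left hlog1 hX0.le))
    have e4 : (B2.card : ℝ) * L ^ (A + 1) * L ^ (A + 5) ≤ X * L ^ (A + 5) := by
      calc (B2.card : ℝ) * L ^ (A + 1) * L ^ (A + 5) = B2.card * L ^ (2 * A + 6) := by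
            rw [mul_assoc, ← pow_add]; congr 2; ring
        _ ≤ X * L ^ 4 := e3
        _ ≤ X * L ^ (A + 5) := by
            apply mul_le_mul_of_nonneg_left _ hX0.le
            exact pow_le_pow_right₀ (by linarith) (by omega)
    exact le_of_mul_le_mul_right e4 (by positivity)
  have c3 : (B3.card : ℝ) ≤ X / L ^ (A + 1) := by
    have e1 := total X R hR2
    have e2 := energy_le R hR1
    have hlR : Real.log ((R ^ 2 : ℕ) : ℝ) ≤ L := by
      rw [hLd]
      apply Real.log_le_log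
      · exact_mod_cast Nat.pos_of_ne_zero (by positivity)
      · exact_mod_cast hR3
    have hlR0 : 0 ≤ Real.log ((R ^ 2 : ℕ) : ℝ) := Real.log_natCast_nonneg _
    have e3 : (((Sq R ×ˢ Sq R).filter (fun p => D p.1 = D p.2)).card : ℝ) ≤ 44 * X * L ^ 4 := by
      refine e2.trans ?_
      have k1 : ((R : ℝ)) ^ 2 ≤ X := by exact_mod_cast hR3
      have k2 : (1 + Real.log ((R ^ 2 : ℕ) : ℝ)) ^ 3 ≤ (1 + L) ^ 3 := pow_le_pow_left₀ (by linarith) (by linarith) 3
      calc 44 * (R : ℝ) ^ 2 * (1 + Real.log ((R ^ 2 : ℕ) : ℝ)) ^ 3 ≤ 44 * X * (1 + L) ^ 3 := by gcongr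
        _ ≤ 44 * X * L ^ 4 := by gcongr
    have e4 : ((∑ n ∈ Icc 1 X, (Eqp n).card : ℕ) : ℝ) ≤ (44 * X * L ^ 4) ^ 2 := by
      calc ((∑ n ∈ Icc 1 X, (Eqp n).card : ℕ) : ℝ) ≤ ((((Sq R ×ˢ Sq R).filter (fun p => D p.1 = D p.2)).card ^ 2 : ℕ) : ℝ) := by
            exact_mod_cast e1
        _ = (((Sq R ×ˢ Sq R).filter (fun p => D p.1 = D p.2)).card : ℝ) ^ 2 := by push_cast; rfl
        _ ≤ _ := pow_le_pow_left₀ (Nat.cast_nonneg _) e3 2
    have e5 : ∑ _n ∈ B3, (X * L ^ (A + 10)) ≤ ∑ n ∈ Icc 1 X, ((Eqp n).card : ℝ) := by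
      refine le_trans (sum_le_sum (fun n hn => ?_)) (sum_le_sum_of_subset_of_nonneg (filter_subset _ _) (fun _ _ _ => by positivity))
      exact (mem_filter.1 hn).2.le
    rw [sum_const, nsmul_eq_mul] at e5
    push_cast at e4
    have e6 : (B3.card : ℝ) * (X * L ^ (A + 10)) ≤ (44 * X * L ^ 4) ^ 2 := e5.trans e4
    have e7 : (44 : ℝ) ^ 2 ≤ L := by
      have : (1 : ℝ) ≤ 2 ^ (6 * A + 40) := one_le_pow₀ (by norm_num)
      nlinarith
    rw [le_div_iff₀ (by positivity)]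
    have e8 : (X * L ^ 9) * ((B3.card : ℝ) * L ^ (A + 1)) ≤ (X * L ^ 9) * X := by
      calc (X * L ^ 9) * ((B3.card : ℝ) * L ^ (A + 1)) = B3.card * (X * L ^ (A + 10)) := by
            rw [pow_add L A 10, pow_succ L A]; ring
        _ ≤ (44 * X * L ^ 4) ^ 2 := e6
        _ = X * X * L ^ 8 * 44 ^ 2 := by ring
        _ ≤ X * X * L ^ 8 * L := by gcongr
        _ = (X * L ^ 9) * X := by ring
    exact le_of_mul_le_mul_left e8 (by positivity)
  have hsub : (Icc 1 X).filter (fun n : ℕ => Odd n ∧ ¬ ((n : ℝ) ≤ (Val n).card * Real.log n ^ (6 * A + 40))) ⊆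
      B1 ∪ (B2 ∪ B3) := by
    intro n hn
    rw [mem_filter] at hn
    obtain ⟨hn1, hodd, hn2⟩ := hn
    by_contra hcon
    rw [mem_union, mem_union] at hcon
    push Not at hcon
    obtain ⟨k1, k2, k3⟩ := hcon
    have hnX := mem_Icc.1 hn1
    have m1 : (X : ℝ) / L ^ (A + 1) < n := by
      by_contra h
      push Not at h
      exact k1 (mem_Icc.2 ⟨hnX.1, Nat.le_floor h⟩)
    have m2 : ((n.divisors.card : ℕ) : ℝ) ≤ L ^ (A + 3) := by
      by_contra h
      push Not at h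
      exact k2 (mem_filter.2 ⟨hn1, h⟩)
    have m3 : ((Eqp n).card : ℝ) ≤ X * L ^ (A + 10) := by
      by_contra h
      push Not at h
      exact k3 (mem_filter.2 ⟨hn1, h⟩)
    apply hn2
    have hnr : (1 : ℝ) ≤ n := by exact_mod_cast hnX.1
    have hn0 : (0 : ℝ) < n := by linarith
    -- log n ≥ L / 2
    have hlog : L / 2 ≤ Real.log n := by
      have q1 : √(X : ℝ) ≤ n := by
        refine le_trans ?_ m1.le
        rw [le_div_iff₀ (by positivity)]
        calc √(X : ℝ) * L ^ (A + 1) ≤ √(X : ℝ) * √(X : ℝ) := mul_le_mul_of_nonneg_left hs (Real.sqrt_nonneg _)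
          _ = X := Real.mul_self_sqrt hX0.le
      have q2 := Real.log_le_log (Real.sqrt_pos.2 hX0) q1
      rwa [Real.log_sqrt hX0.le, ← hLd] at q2
    have hln0 : 0 < Real.log n := by linarith
    have p1 := preps_low n hodd
    have p1r : (n : ℝ) ≤ (preps n).card * L ^ (2 * A + 6) := by
      have q1 : (n : ℝ) ≤ (preps n).card * ((n.divisors.card : ℕ) : ℝ) ^ 2 := by exact_mod_cast p1
      refine q1.trans (mul_le_mul_of_nonneg_left ?_ (Nat.cast_nonneg _))
      calc ((n.divisors.card : ℕ) : ℝ) ^ 2 ≤ (L ^ (A + 3)) ^ 2 := pow_le_pow_left₀ (Nat.cast_nonneg _) m2 2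
        _ = L ^ (2 * A + 6) := by rw [← pow_mul]; congr 1; ring
    have p2 : ((preps n).card : ℝ) ^ 2 ≤ (Val n).card * (X * L ^ (A + 10)) := by
      have q1 : ((preps n).card : ℝ) ^ 2 ≤ (Val n).card * (Eqp n).card := by exact_mod_cast sq_le n
      exact q1.trans (mul_le_mul_of_nonneg_left m3 (Nat.cast_nonneg _))
    have p3 : (n : ℝ) ^ 2 ≤ (Val n).card * (X * L ^ (5 * A + 22)) := by
      calc (n : ℝ) ^ 2 ≤ ((preps n).card * L ^ (2 * A + 6)) ^ 2 := pow_le_pow_left₀ hn0.le p1r 2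
        _ = ((preps n).card : ℝ) ^ 2 * L ^ (4 * A + 12) := by rw [mul_pow, ← pow_mul]; congr 2; ring
        _ ≤ ((Val n).card * (X * L ^ (A + 10))) * L ^ (4 * A + 12) := mul_le_mul_of_nonneg_right p2 (by positivity)
        _ = (Val n).card * (X * (L ^ (A + 10) * L ^ (4 * A + 12))) := by ring
        _ = _ := by rw [← pow_add]; congr 3; ring
    have p4 : (X : ℝ) ≤ n * L ^ (A + 1) := by
      rw [div_lt_iff₀ (by positivity)] at m1
      exact m1.le
    have p5 : (n : ℝ) * n ≤ n * ((Val n).card * L ^ (6 * A + 23)) := by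
      calc (n : ℝ) * n = (n : ℝ) ^ 2 := by ring
        _ ≤ (Val n).card * (X * L ^ (5 * A + 22)) := p3
        _ ≤ (Val n).card * ((n * L ^ (A + 1)) * L ^ (5 * A + 22)) := by gcongr
        _ = n * ((Val n).card * (L ^ (A + 1) * L ^ (5 * A + 22))) := by ring
        _ = _ := by rw [← pow_add]; congr 3; ring
    have p6 : (n : ℝ) ≤ (Val n).card * L ^ (6 * A + 23) := le_of_mul_le_mul_left p5 hn0
    refine p6.trans (mul_le_mul_of_nonneg_left ?_ (Nat.cast_nonneg _))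
    have hl2 : L ≤ 2 * Real.log n := by linarith
    have hl1 : 2 ^ (6 * A + 23) ≤ Real.log n := by
      have q1 : (2 : ℝ) ^ (6 * A + 40) = 2 ^ (6 * A + 23) * 2 ^ 17 := by rw [← pow_add]
      have q2 : (0 : ℝ) < 2 ^ (6 * A + 23) := by positivity
      rw [q1] at hLc
      nlinarith
    have hl11 : 1 ≤ Real.log n := le_trans (one_le_pow₀ (by norm_num)) hl1
    calc L ^ (6 * A + 23) ≤ (2 * Real.log n) ^ (6 * A + 23) := pow_le_pow_left₀ hL0.le hl2 _
      _ = 2 ^ (6 * A + 23) * Real.log n ^ (6 * A + 23) := mul_pow _ _ _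
      _ ≤ Real.log n * Real.log n ^ (6 * A + 23) := by gcongr
      _ = Real.log n ^ (6 * A + 24) := by rw [pow_succ (Real.log n) (6 * A + 23)]; ring
      _ ≤ Real.log n ^ (6 * A + 40) := pow_le_pow_right₀ hl11 (by omega)
  have hc : (((Icc 1 X).filter (fun n : ℕ => Odd n ∧ ¬ ((n : ℝ) ≤ (Val n).card * Real.log n ^ (6 * A + 40)))).card : ℝ) ≤
      B1.card + (B2.card + B3.card) := by
    have := (card_le_card hsub).trans ((card_union_le _ _).trans (Nat.add_le_add_left (card_union_le _ _) _))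
    exact_mod_cast this
  refine hc.trans ?_
  have hfin : X / L ^ (A + 1) + (X / L ^ (A + 1) + X / L ^ (A + 1)) ≤ X / L ^ A := by
    rw [pow_succ, ← div_div]
    have q1 : 0 < (X : ℝ) / L ^ A := by positivity
    have q2 : (X : ℝ) / L ^ A / L ≤ X / L ^ A / 4 := div_le_div_of_nonneg_left q1.le (by norm_num) hL4
    linarith
  linarith

end Pool.Agent.Q234.FV
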