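import Pool.Agent.W23.SG.All
import Pool.Agent.Y886.UTD

/-!
# Sums of a prime with restricted index and an almost prime

Engine for the hand-ins `PrimeIndexedPlusAlmostPrime` and `ArbitraryIndices`.
-/

set_option autoImplicit false

open Finset Filter Topology

namespace Pool.Agent.Q234.Idx

/-- `N = p + m s`, where all prime factors of `m` are `< X ^ ε` and `s` has at most two prime factors (counted with
multiplicity), all of them `> X ^ (1 / 7)` -/
def Represents (ε : ℝ) (X N p : ℕ) : Prop :=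
  ∃ m s : ℕ, 0 < m ∧ 0 < s ∧ p + m * s = N ∧
    (∀ l : ℕ, l.Prime → l ∣ m → (l : ℝ) < (X : ℝ) ^ ε) ∧
    s.primeFactorsList.length ≤ 2 ∧ ∀ q ∈ s.primeFactors, (X : ℝ) ^ (1 / 7 : ℝ) < q

open Classical in
/-- the number of the `x` in `I` such that `N = P x + m s` as above -/
noncomputable def reps (ε : ℝ) (P : ℕ → ℕ) (I : Finset ℕ) (X N : ℕ) : ℕ :=
  (I.filter (fun x => Represents ε X N (P x))).card

open Classical in
/-- the `N` in `(X, 2 X]` for which less than the proportion `c` of the `x` in `I` is counted by `reps` -/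
noncomputable def exceptional (ε c : ℝ) (P : ℕ → ℕ) (I : Finset ℕ) (X : ℕ) : Finset ℕ :=
  (Ioc X (2 * X)).filter (fun N => (reps ε P I X N : ℝ) < c * I.card)

/-- **Arbitrary sets of indices.** -/
theorem sets (ε : ℝ) (hε : 0 < ε) : ∃ c C η : ℝ, 0 < c ∧ 0 < C ∧ 0 < η ∧ ∀ (P : ℕ → ℕ) (X : ℕ), 2 ≤ X →
    ∀ I : Finset ℕ, (∀ x ∈ I, (P x).Prime ∧ P x ≤ X) → Set.InjOn P (I : Set ℕ) → (X : ℝ) ^ (1 - η) ≤ I.card →
      ((exceptional ε c P I X).card : ℝ) ≤ C * (X / (I.card * Real.log X)) := by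
  classical
  obtain ⟨c, C₀, η, hc, hη, hsp⟩ := Pool.Agent.W23.SG.sparse_sets ε hε
  refine ⟨c, max C₀ 1, η, hc, lt_max_of_lt_right one_pos, hη, ?_⟩
  intro P X hX2 I hI hinj hcard
  have hc2 : (I.image P).card = I.card := card_image_of_injOn hinj
  have h3 := hsp X hX2 (I.image P) (fun p hp => by
    obtain ⟨x, hx, rfl⟩ := mem_image.1 hp
    exact hI x hx) (by rw [hc2]; exact hcard)
  rw [hc2] at h3
  have hX0 : (0 : ℝ) < X := by exact_mod_cast (by omega : 0 < X)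
  have hn0 : (0 : ℝ) < I.card := (Real.rpow_pos_of_pos hX0 _).trans_le hcard
  have hl : 0 < Real.log (X : ℝ) := Real.log_pos (by exact_mod_cast (by omega : 1 < X))
  refine le_trans ?_ (h3.trans (mul_le_mul_of_nonneg_right (le_max_left _ _) (by positivity)))
  refine Nat.cast_le.2 ?_
  apply card_le_card_of_injOn (fun N : ℕ => (N : ℤ))
  · intro N hN
    have hN' := mem_coe.1 hN
    unfold exceptional at hN'
    rw [mem_filter, mem_Ioc] at hN'
    obtain ⟨⟨h5, h6⟩, h7⟩ := hN'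
    rw [mem_coe, mem_filter, mem_Icc]
    refine ⟨⟨by show -(2 * (X : ℤ)) ≤ (N : ℤ); omega, by show (N : ℤ) ≤ 2 * (X : ℤ); omega⟩, ?_⟩
    refine lt_of_le_of_lt (Nat.cast_le.2 ?_) h7
    unfold reps
    rw [filter_image]
    refine card_image_le.trans ?_
    apply card_le_card
    intro x hx
    rw [mem_filter] at hx ⊢
    obtain ⟨hx1, hx2, m, s, hms, hm, hs, hq⟩ := hx
    refine ⟨hx1, ?_⟩
    have hpX := (hI x hx1).2
    have hNp : ((N : ℤ) - P x).natAbs = N - P x := by omega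
    rw [hNp] at hms
    have hpos : 0 < m * s := by omega
    exact ⟨m, s, Nat.pos_of_mul_pos_right hpos, Nat.pos_of_mul_pos_left hpos, by omega, hm, hs, hq⟩
  · intro N _ N' _ h
    have h' : (N : ℤ) = (N' : ℤ) := h
    exact_mod_cast h'

/-- a lower bound for the number of the `a`-primes, uniform in `a` -/
theorem many (η₀ : ℝ) (hη : 0 < η₀) : ∃ K : ℝ, 1 ≤ K ∧
    ∀ᶠ X : ℕ in atTop, ∀ a : ℕ, ((a : ℝ) + 1) * Real.log (Real.log X) ≤ min η₀ 1 / 4 * Real.log X →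
      ∃ S : Finset ℕ, S ⊆ Icc 1 X ∧ (∀ p ∈ S, Pool.Agent.H197R2.PG.PI a p) ∧
      (X : ℝ) ≤ (K * Real.log X) ^ (a + 1) * S.card ∧
      2 * (X : ℝ) ^ (1 - η₀) ≤ S.card := by
  classical
  obtain ⟨κ, hκ, hd⟩ := Pool.Agent.Y886.UT.dens_exp
  have hE : 1 ≤ Real.exp κ := Real.one_le_exp hκ
  refine ⟨2 * Real.exp κ, by linarith, ?_⟩
  have tN : Tendsto (fun N : ℕ => (N : ℝ)) atTop atTop := tendsto_natCast_atTop_atTop
  have tL : Tendsto (fun N : ℕ => Real.log (N : ℝ)) atTop atTop := Real.tendsto_log_atTop.comp tN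
  have tLL : Tendsto (fun N : ℕ => Real.log (Real.log (N : ℝ))) atTop atTop := Real.tendsto_log_atTop.comp tL
  obtain ⟨η₁, hη₁⟩ : ∃ η₁, η₁ = min η₀ 1 := ⟨_, rfl⟩
  have hη10 : 0 < η₁ := by rw [hη₁]; exact lt_min hη one_pos
  have hη1a : η₁ ≤ η₀ := by rw [hη₁]; exact min_le_left _ _
  have hη1b : η₁ ≤ 1 := by rw [hη₁]; exact min_le_right _ _
  rw [← hη₁]
  have tp : Tendsto (fun N : ℕ => (N : ℝ) ^ (η₁ / 2)) atTop atTop :=
    (tendsto_rpow_atTop (by positivity)).comp tN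
  filter_upwards [eventually_ge_atTop 2, tLL.eventually_ge_atTop (1 + κ), tp.eventually_ge_atTop 4]
    with X hX2 hl hp2 a ha
  have hXr : (2 : ℝ) ≤ X := by exact_mod_cast hX2
  have hX0 : (0 : ℝ) < X := by linarith
  obtain ⟨L, hL⟩ : ∃ L, L = Real.log (X : ℝ) := ⟨_, rfl⟩
  rw [← hL] at hl ha ⊢
  have hL0 : 0 < L := by rw [hL]; exact Real.log_pos (by linarith)
  obtain ⟨l, hl0⟩ : ∃ l, l = Real.log L := ⟨_, rfl⟩
  rw [← hl0] at hl ha
  have hexpl : Real.exp l = L := by rw [hl0, Real.exp_log hL0]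
  obtain ⟨S, hS1, hS2, hS3⟩ := hd a X l hX2 (by linarith) (by rw [hexpl, hL])
  refine ⟨S, hS1, hS2, ?_⟩
  have ha0 : (0 : ℝ) ≤ a := Nat.cast_nonneg a
  have h1 : ((a : ℝ) + 1) * (l + κ) ≤ η₁ / 2 * L := by
    have : ((a : ℝ) + 1) * (l + κ) ≤ ((a : ℝ) + 1) * (2 * l) :=
      mul_le_mul_of_nonneg_left (by linarith) (by linarith)
    nlinarith
  have h2 : (X : ℝ) ^ (1 - η₁ / 2) ≤ X * Real.exp (-(((a : ℝ) + 1) * (l + κ))) := by
    rw [Real.rpow_sub hX0, Real.rpow_one, Real.exp_neg, div_eq_mul_inv]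
    apply mul_le_mul_of_nonneg_left _ hX0.le
    apply inv_anti₀ (Real.exp_pos _)
    rw [Real.rpow_def_of_pos hX0, ← hL]
    exact Real.exp_le_exp.2 (by linarith)
  have h3 : 4 ≤ (X : ℝ) ^ (1 - η₁ / 2) := by
    refine hp2.trans ?_
    exact Real.rpow_le_rpow_of_exponent_le (by linarith) (by linarith)
  have h4 : (X : ℝ) * Real.exp (-(((a : ℝ) + 1) * (l + κ))) ≤ 2 * S.card := by
    linarith
  constructor
  · have h5 : (Real.exp κ * L) ^ (a + 1) = Real.exp (((a : ℝ) + 1) * (l + κ)) := by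
      rw [← hexpl, ← Real.exp_add, ← Real.exp_nat_mul]
      congr 1
      push_cast
      ring
    have h6 : 2 * (Real.exp κ * L) ^ (a + 1) ≤ (2 * Real.exp κ * L) ^ (a + 1) := by
      rw [mul_assoc, mul_pow 2]
      apply mul_le_mul_of_nonneg_right _ (by positivity)
      calc (2 : ℝ) = 2 ^ 1 := (pow_one _).symm
        _ ≤ 2 ^ (a + 1) := pow_le_pow_right₀ (by norm_num) (by omega)
    rw [Real.exp_neg, ← div_eq_mul_inv, div_le_iff₀ (Real.exp_pos _), ← h5] at h4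
    calc (X : ℝ) ≤ 2 * S.card * (Real.exp κ * L) ^ (a + 1) := h4
      _ = (2 * (Real.exp κ * L) ^ (a + 1)) * S.card := by ring
      _ ≤ (2 * Real.exp κ * L) ^ (a + 1) * S.card := mul_le_mul_of_nonneg_right h6 (Nat.cast_nonneg _)
  · have h6 : (X : ℝ) ^ (1 - η₀) ≤ (X : ℝ) ^ (1 - η₁) :=
      Real.rpow_le_rpow_of_exponent_le (by linarith) (by linarith)
    have h7 : 4 * (X : ℝ) ^ (1 - η₁) ≤ (X : ℝ) ^ (1 - η₁ / 2) := by
      have e : (X : ℝ) ^ (1 - η₁ / 2) = (X : ℝ) ^ (η₁ / 2) * (X : ℝ) ^ (1 - η₁) := by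
        rw [← Real.rpow_add hX0]
        congr 1
        ring
      rw [e]
      exact mul_le_mul_of_nonneg_right hp2 (Real.rpow_nonneg hX0.le _)
    linarith

end Pool.Agent.Q234.Idx
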