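import Pool.Agent.Y843.HS.Top
import Pool.Agent.Y843.HG.VGold

/-!
# Narrow progressions in subsets of sifted sets: all but few elements, uniformly

A corollary of Szemerédi's theorem relative to sifted sets (`Pool.Agent.Y843.HS.fin`) in the form which is used in the
hand-ins, and an upper bound for the sieve product.
-/

set_option autoImplicit false

namespace Pool.Agent.Q234.NPU

open Finset Filter
open Pool.Agent.Y843.HS (Pr VV Pr_mem Pr_prime VV_split)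
open Pool.Agent.Y843.HG (V1 V1_bounds V1_pos fac1)

/-- `n` is one of the terms of a `k`-term arithmetic progression of elements of `S` with a difference between `1` and `D` -/
def OnAP (k : ℕ) (D : ℝ) (S : Set ℕ) (n : ℕ) : Prop :=
  ∃ a d : ℕ, 1 ≤ d ∧ (d : ℝ) ≤ D ∧ (∀ j < k, a + j * d ∈ S) ∧ ∃ j < k, n = a + j * d

open Classical in
/-- **All but few elements of a subset of a sifted set are on narrow progressions** -/
theorem few (k r : ℕ) (hk : 1 ≤ k) (κ δ : ℝ) (hκ : 0 < κ) (hδ : 0 < δ) : ∃ B X₀ : ℕ, ∀ X A : ℕ, X₀ ≤ X →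
    ∀ Z : ℕ → Finset ℕ, (∀ p : ℕ, p.Prime → (p : ℝ) ≤ (X : ℝ) ^ κ →
      (Z p).card ≤ r ∧ (Z p).card < p ∧ ∀ c ∈ Z p, c < p) →
    ∀ S : Finset ℕ, S ⊆ Ioc A (A + X) →
    (∀ n ∈ S, ∀ p : ℕ, p.Prime → (p : ℝ) ≤ (X : ℝ) ^ κ → n % p ∉ Z p) →
    ((S.filter (fun n => ¬ OnAP k (Real.log X ^ B) (S : Set ℕ) n)).card : ℝ) ≤
      δ * X * VV Z 0 ⌊(X : ℝ) ^ κ⌋₊ := by
  obtain ⟨B, X₀, h⟩ := Pool.Agent.Y843.HS.fin k r κ δ hκ hδ
  refine ⟨B, X₀, fun X A hX Z hZ S hS hav => ?_⟩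
  by_contra hcon
  push Not at hcon
  obtain ⟨T, hT⟩ : ∃ T : Finset ℕ, T = S.filter (fun n => ¬ OnAP k (Real.log X ^ B) (S : Set ℕ) n) := ⟨_, rfl⟩
  rw [← hT] at hcon
  have hTS : T ⊆ S := by rw [hT]; exact filter_subset _ _
  obtain ⟨a, d, h1, h2, h3⟩ := h X A hX Z hZ T (hTS.trans hS) (fun n hn => hav n (hTS hn)) hcon.le
  have h4 := h3 0 (by omega)
  rw [zero_mul, add_zero, hT, mem_filter] at h4
  exact h4.2 ⟨a, d, h1, h2, fun j hj => mem_coe.2 (hTS (h3 j hj)), 0, by omega, by simp⟩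

lemma pow_bound {p r c : ℕ} (hp : p.Prime) (h : r ≤ c) : 1 - (c : ℝ) / p ≤ (1 - 1 / (p : ℝ)) ^ r := by
  have hp0 : (0 : ℝ) < p := by exact_mod_cast hp.pos
  have h1 : -2 ≤ -(1 / (p : ℝ)) := by
    have : 1 / (p : ℝ) ≤ 1 := by
      rw [div_le_one hp0]
      exact_mod_cast hp.one_lt.le
    linarith
  have h2 := one_add_mul_le_pow h1 r
  have h3 : (r : ℝ) ≤ c := by exact_mod_cast h
  have h4 : 1 - (c : ℝ) / p ≤ 1 + r * -(1 / (p : ℝ)) := by
    have : (r : ℝ) / p ≤ c / p := div_le_div_of_nonneg_right h3 hp0.le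
    have e : (r : ℝ) * -(1 / (p : ℝ)) = -(r / p) := by ring
    rw [e]
    linarith
  have e : 1 + -(1 / (p : ℝ)) = 1 - 1 / (p : ℝ) := by ring
  rw [e] at h2
  exact h4.trans h2

lemma V1_split {a b : ℕ} (hab : a ≤ b) : V1 a * ∏ p ∈ Pr a b, (1 - 1 / (p : ℝ)) = V1 b := by
  have h := VV_split (fun _ => {0}) (Nat.zero_le a) hab
  unfold VV at h
  unfold V1
  simpa using h

/-- an upper bound for the sieve product -/
theorem VV_le (r p₀ : ℕ) : ∃ C : ℝ, 0 < C ∧ ∀ y : ℕ, 2 ≤ y → ∀ Z : ℕ → Finset ℕ,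
    (∀ p : ℕ, p.Prime → (Z p).card ≤ p) → (∀ p : ℕ, p.Prime → p₀ < p → r ≤ (Z p).card) →
    VV Z 0 y ≤ C / Real.log y ^ r := by
  obtain ⟨c, C, hc, hC, hV⟩ := V1_bounds
  have hv := V1_pos p₀
  refine ⟨max ((C / V1 p₀) ^ r) (Real.log (p₀ + 2) ^ r), lt_max_of_lt_left (by positivity), ?_⟩
  intro y hy Z hZ1 hZ2
  have hly : 0 < Real.log (y : ℝ) := Real.log_pos (by exact_mod_cast (by omega : 1 < y))
  have hf : ∀ a b : ℕ, ∀ p ∈ Pr a b, 0 ≤ 1 - ((Z p).card : ℝ) / p ∧ 1 - ((Z p).card : ℝ) / p ≤ 1 := by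
    intro a b p hp
    have hpp := Pr_prime hp
    have hp0 : (0 : ℝ) < p := by exact_mod_cast hpp.pos
    constructor
    · rw [sub_nonneg, div_le_one hp0]
      exact_mod_cast hZ1 p hpp
    · have : (0 : ℝ) ≤ ((Z p).card : ℝ) / p := by positivity
      linarith
  rcases le_or_gt p₀ y with h | h
  · rw [← VV_split Z (Nat.zero_le p₀) h]
    have h1 : VV Z 0 p₀ ≤ 1 := prod_le_one (fun p hp => (hf _ _ p hp).1) fun p hp => (hf _ _ p hp).2
    have h2 : VV Z p₀ y ≤ (V1 y / V1 p₀) ^ r := by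
      rw [← V1_split h, mul_div_cancel_left₀ _ hv.ne', ← prod_pow]
      unfold VV
      apply Finset.prod_le_prod
      · intro p hp
        exact (hf _ _ p hp).1
      · intro p hp
        exact pow_bound (Pr_prime hp) (hZ2 p (Pr_prime hp) (Pr_mem.1 hp).1.1)
    have h3 : 0 ≤ VV Z p₀ y := prod_nonneg fun p hp => (hf _ _ p hp).1
    calc VV Z 0 p₀ * VV Z p₀ y ≤ 1 * (V1 y / V1 p₀) ^ r := mul_le_mul h1 h2 h3 (by norm_num)
      _ ≤ (C / Real.log y / V1 p₀) ^ r := by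
          rw [one_mul]
          apply pow_le_pow_left₀ (by have := V1_pos y; positivity)
          exact div_le_div_of_nonneg_right (hV y hy).2 hv.le
      _ = (C / V1 p₀) ^ r / Real.log y ^ r := by rw [← div_pow]; congr 1; ring
      _ ≤ _ := div_le_div_of_nonneg_right (le_max_left _ _) (by positivity)
  · have h1 : VV Z 0 y ≤ 1 := prod_le_one (fun p hp => (hf _ _ p hp).1) fun p hp => (hf _ _ p hp).2
    refine h1.trans ?_
    rw [le_div_iff₀ (by positivity), one_mul]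
    refine le_trans ?_ (le_max_right _ _)
    apply pow_le_pow_left₀ hly.le
    apply Real.log_le_log (by exact_mod_cast (by omega : 0 < y))
    exact_mod_cast (by omega : y ≤ p₀ + 2)

end Pool.Agent.Q234.NPU
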