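import Mathlib
import Pool.Agent.TH882.Y4
import Pool.Agent.TH882.K4

/-! Systems of polynomials with varying constant terms at the primes with indices in a syndetic set. -/

set_option autoImplicit false

open Finset Filter Topology Polynomial

namespace Pool.Agent.Q234.SY

open Pool.Agent.TH882.HY (Syn IS IS_most)
open Pool.Agent.TH882.KS (LocV SysA sys_most)
open Pool.Agent.H361R2.PP

/-- the `m`-th prime -/
noncomputable def pn (m : ℕ) : ℕ := Nat.nth Nat.Prime (m - 1)

lemma pn_index {q : ℕ} (hq : q.Prime) : pn (Nat.primeCounting q) = q := by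
  unfold pn Nat.primeCounting Nat.primeCounting'
  rw [Nat.count_succ, if_pos hq, Nat.add_sub_cancel]
  exact Nat.nth_count hq

open Classical in
/-- the indices `m` of a set `K` with `pn m ≤ x` for which all the `g j (pn m) + k j` are prime -/
noncomputable def goodI {r : ℕ} (K : Set ℕ) (g : Fin r → ℤ[X]) (k : Fin r → ℕ) (x : ℕ) : Finset ℕ :=
  (Icc 1 x).filter (fun m => m ∈ K ∧ pn m ≤ x ∧ ∀ j, ((k j : ℤ) + (g j).eval (pn m : ℤ)).toNat.Prime)

lemma index_le {q : ℕ} (hq : q.Prime) : 1 ≤ Nat.primeCounting q ∧ Nat.primeCounting q ≤ q := by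
  constructor
  · unfold Nat.primeCounting Nat.primeCounting'
    rw [Nat.count_succ, if_pos hq]
    omega
  · have h := Nat.add_two_le_nth_prime (Nat.primeCounting q - 1)
    have h2 : Nat.nth Nat.Prime (Nat.primeCounting q - 1) = q := pn_index hq
    rw [h2] at h
    omega

open Classical in
/-- **almost all systems, index sets which are syndetic** -/
theorem synd (M : ℕ) (hM : 1 ≤ M) (K : Set ℕ) (hK : Syn M K) {r : ℕ} (g : Fin r → ℤ[X])
    (hd : ∀ j, 1 ≤ (g j).natDegree) (hl : ∀ j, 0 < (g j).leadingCoeff) (B : ℕ) (κ : ℝ) (hκ : 0 < κ) :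
    ∃ c : ℝ, 0 < c ∧ ∃ x₀ : ℕ, ∀ x : ℕ, x₀ ≤ x →
      (((Fintype.piFinset (fun j : Fin r => Icc 1 (B * x ^ (g j).natDegree))).filter
        (fun k => LocV (fun _ => 1) g k ∧ ((goodI K g k x).card : ℝ) <
          c * (x / Real.log x ^ (r + 1)))).card : ℝ) ≤ κ * ∏ j, (x : ℝ) ^ (g j).natDegree := by
  obtain ⟨c, hc, x₀, h⟩ := sys_most g hd hl (IS K) (IS_most M hM K hK) B κ hκ
  refine ⟨c, hc, x₀, fun x hx => le_trans ?_ (h x hx)⟩
  apply Nat.cast_le.2
  apply card_le_card
  intro k hk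
  rw [mem_filter] at hk ⊢
  refine ⟨hk.1, hk.2.1, lt_of_le_of_lt ?_ hk.2.2⟩
  apply Nat.cast_le.2
  apply card_le_card_of_injOn Nat.primeCounting
  · intro q hq
    unfold SysA at hq
    rw [mem_coe, mem_filter, mem_Ico] at hq
    obtain ⟨⟨hq1, hq2⟩, hq3, hq4⟩ := hq
    unfold IS at hq3
    rw [mem_filter] at hq3
    obtain ⟨-, hqp, hqK⟩ := hq3
    have hi := index_le hqp
    have hqx : q ≤ x := by omega
    unfold goodI
    rw [mem_coe, mem_filter, mem_Icc, pn_index hqp]
    exact ⟨⟨hi.1, hi.2.trans hqx⟩, hqK, hqx, hq4⟩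
  · intro q hq q' hq' heq
    unfold SysA IS at hq hq'
    rw [mem_coe, mem_filter, mem_filter] at hq hq'
    have e1 := pn_index hq.2.1.2.1
    have e2 := pn_index hq'.2.1.2.1
    rw [← e1, ← e2, heq]

/-- the multiples of `n` -/
def mul (n : ℕ) : Set ℕ := {m : ℕ | n ∣ m}

lemma syn_mul (n : ℕ) (hn : 1 ≤ n) : Syn n (mul n) := by
  intro j _
  refine ⟨(n - j % n) % n, Nat.mod_lt _ hn, ?_⟩
  show n ∣ j + (n - j % n) % n
  have h1 := Nat.mod_lt j hn
  rcases Nat.eq_zero_or_pos (j % n) with h0 | h0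
  · rw [h0, Nat.sub_zero, Nat.mod_self, add_zero]
    exact Nat.dvd_of_mod_eq_zero h0
  · rw [Nat.mod_eq_of_lt (by omega : n - j % n < n)]
    have h2 := Nat.div_add_mod j n
    have h3 : j + (n - j % n) = n * (j / n + 1) := by
      rw [mul_add, mul_one]
      omega
    rw [h3]
    exact Dvd.intro _ rfl

end Pool.Agent.Q234.SY
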