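import Mathlib
import Pool.Agent.W23.SG.All

/-!
# Shifts of primes with restricted index and almost primes

The versions of the theorems `dense_almost_prime` and `sparse_sets` of the starting files for shifts.
-/

set_option autoImplicit false

open Finset Filter Topology

namespace Pool.Agent.Q234.Sh

/-- `q + h = m s`, where `m ≤ X ^ ε` and `s > 1` has at most two prime factors (counted with multiplicity), all of
them `> X ^ (1 / 7)` -/
def RepD (ε : ℝ) (X q h : ℕ) : Prop :=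
  ∃ m s : ℕ, q + h = m * s ∧ (m : ℝ) ≤ (X : ℝ) ^ ε ∧ 1 < s ∧
    s.primeFactorsList.length ≤ 2 ∧ ∀ l ∈ s.primeFactors, (X : ℝ) ^ (1 / 7 : ℝ) < l

/-- `q + h = m s`, where all prime factors of `m` are `< X ^ ε` and `s` has at most two prime factors (counted with
multiplicity), all of them `> X ^ (1 / 7)` -/
def RepS (ε : ℝ) (X q h : ℕ) : Prop :=
  ∃ m s : ℕ, q + h = m * s ∧ (∀ l : ℕ, l.Prime → l ∣ m → (l : ℝ) < (X : ℝ) ^ ε) ∧
    s.primeFactorsList.length ≤ 2 ∧ ∀ l ∈ s.primeFactors, (X : ℝ) ^ (1 / 7 : ℝ) < l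

open Classical in
/-- dense sets of primes -/
theorem dense (δ ε : ℝ) (hδ : 0 < δ) (hε : 0 < ε) : ∃ (c : ℝ) (K : ℕ), 0 < c ∧ ∀ (P : ℕ → ℕ) (X : ℕ), 2 ≤ X →
    ∀ I : Finset ℕ, (∀ x ∈ I, (P x).Prime ∧ P x ≤ X) → Set.InjOn P (I : Set ℕ) → δ * X / Real.log X ≤ I.card →
      ((Icc 0 (2 * X)).filter (fun h => ((I.filter (fun x => RepD ε X (P x) h)).card : ℝ) < c * I.card)).card ≤ K := by
  obtain ⟨c, K, hc, hd⟩ := Pool.Agent.W23.DC.dense_almost_prime δ ε hδ hε
  refine ⟨c, K, hc, ?_⟩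
  intro P X hX2 I hI hinj hcard
  have hc2 : (I.image P).card = I.card := card_image_of_injOn hinj
  have h3 := hd X hX2 (I.image P) (fun p hp => by
    obtain ⟨x, hx, rfl⟩ := mem_image.1 hp
    exact hI x hx) (by rw [hc2]; exact hcard)
  rw [hc2] at h3
  refine le_trans ?_ h3
  apply card_le_card_of_injOn (fun N : ℕ => -(N : ℤ))
  · intro h hh
    rw [mem_coe, mem_filter, mem_Icc] at hh
    obtain ⟨⟨-, h6⟩, h7⟩ := hh
    rw [mem_coe, mem_filter, mem_Icc]
    refine ⟨⟨by show -(2 * (X : ℤ)) ≤ -(h : ℤ); omega, by show -(h : ℤ) ≤ 2 * (X : ℤ); omega⟩, ?_⟩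
    refine lt_of_le_of_lt (Nat.cast_le.2 ?_) h7
    rw [filter_image]
    refine card_image_le.trans ?_
    apply card_le_card
    intro x hx
    rw [mem_filter] at hx ⊢
    obtain ⟨hx1, m, s, hms, hm, hs1, hs, hq⟩ := hx
    refine ⟨hx1, m, s, ?_, hm, hs1, hs, hq⟩
    have hNp : (-(h : ℤ) - P x).natAbs = P x + h := by omega
    rw [hNp] at hms
    exact hms
  · intro N _ N' _ h
    have h' : -(N : ℤ) = -(N' : ℤ) := h
    omega

open Classical in
/-- arbitrary sets of primes -/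
theorem sets (ε : ℝ) (hε : 0 < ε) : ∃ c C η : ℝ, 0 < c ∧ 0 < C ∧ 0 < η ∧ ∀ (P : ℕ → ℕ) (X : ℕ), 2 ≤ X →
    ∀ I : Finset ℕ, (∀ x ∈ I, (P x).Prime ∧ P x ≤ X) → Set.InjOn P (I : Set ℕ) → (X : ℝ) ^ (1 - η) ≤ I.card →
      (((Icc 0 (2 * X)).filter (fun h => ((I.filter (fun x => RepS ε X (P x) h)).card : ℝ) < c * I.card)).card : ℝ) ≤
        C * (X / (I.card * Real.log X)) := by
  obtain ⟨c, C₀, η, hc, hη, hsp⟩ := Pool.Agent.W23.SG.sparse_sets ε hε
  refine ⟨c, max C₀ 1, η, hc, lt_max_of_lt_right one_pos, hη, ?_⟩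
  intro P X hX2 I hI hinj hcard
  have hc2 : (I.image P).card = I.card := card_image_of_injOn hinj
  have h3 := hsp X hX2 (I.image P) (fun p hp => by
    obtain ⟨x, hx, rfl⟩ := mem_image.1 hp
    exact hI x hx) (by rw [hc2]; exact hcard)
  rw [hc2] at h3
  have hX0 : (0 : ℝ) < X := by exact_mod_cast (by omega : 0 < X)
  have hn0 : (0 : ℝ) < I.card := (Real.rpow_pos_of_pos hX0 _).trans_le hcard
  have hl : 0 < Real.log (X : ℝ) := Real.log_pos (by exact_mod_cast (by omega : 1 < X))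
  refine le_trans ?_ (h3.trans (mul_le_mul_of_nonneg_right (le_max_left _ _) (by positivity)))
  refine Nat.cast_le.2 ?_
  apply card_le_card_of_injOn (fun N : ℕ => -(N : ℤ))
  · intro h hh
    rw [mem_coe, mem_filter, mem_Icc] at hh
    obtain ⟨⟨-, h6⟩, h7⟩ := hh
    rw [mem_coe, mem_filter, mem_Icc]
    refine ⟨⟨by show -(2 * (X : ℤ)) ≤ -(h : ℤ); omega, by show -(h : ℤ) ≤ 2 * (X : ℤ); omega⟩, ?_⟩
    refine lt_of_le_of_lt (Nat.cast_le.2 ?_) h7
    rw [filter_image]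
    refine card_image_le.trans ?_
    apply card_le_card
    intro x hx
    rw [mem_filter] at hx ⊢
    obtain ⟨hx1, -, m, s, hms, hm, hs, hq⟩ := hx
    refine ⟨hx1, m, s, ?_, hm, hs, hq⟩
    have hNp : (-(h : ℤ) - P x).natAbs = P x + h := by omega
    rw [hNp] at hms
    exact hms
  · intro N _ N' _ h
    have h' : -(N : ℤ) = -(N' : ℤ) := h
    omega

end Pool.Agent.Q234.Sh
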