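import Mathlib
import Pool.Agent.W23.SG.All

/-!
# Several shifts of primes with restricted index and almost primes

Induction over the theorem `dense_almost_prime` of the starting files: all but few vectors of shifts.
-/

set_option autoImplicit false

open Finset

namespace Pool.Agent.Q234.ShR

/-- `|a| = m s`, where `m ≤ X ^ ε` and `s > 1` has at most two prime factors (counted with multiplicity), all of
them `> X ^ (1 / 7)` -/
def Rep (ε : ℝ) (X : ℕ) (a : ℤ) : Prop :=
  ∃ m s : ℕ, a.natAbs = m * s ∧ (m : ℝ) ≤ (X : ℝ) ^ ε ∧ 1 < s ∧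
    s.primeFactorsList.length ≤ 2 ∧ ∀ l ∈ s.primeFactors, (X : ℝ) ^ (1 / 7 : ℝ) < l

open Classical in
/-- one shift -/
theorem one (δ ε : ℝ) (hδ : 0 < δ) (hε : 0 < ε) : ∃ (c : ℝ) (K : ℕ), 0 < c ∧ ∀ (X : ℕ), 2 ≤ X → ∀ (P : ℕ → ℕ)
    (I : Finset ℕ), (∀ x ∈ I, (P x).Prime ∧ P x ≤ X) → Set.InjOn P (I : Set ℕ) → δ * X / Real.log X ≤ I.card →
      ((Icc (-(2 * X : ℤ)) (2 * X)).filter (fun h : ℤ =>
        ((I.filter (fun x => Rep ε X (P x + h))).card : ℝ) < c * I.card)).card ≤ K := by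
  obtain ⟨c, K, hc, hd⟩ := Pool.Agent.W23.DC.dense_almost_prime δ ε hδ hε
  refine ⟨c, K, hc, ?_⟩
  intro X hX2 P I hI hinj hcard
  have hc2 : (I.image P).card = I.card := card_image_of_injOn hinj
  have h3 := hd X hX2 (I.image P) (fun p hp => by
    obtain ⟨x, hx, rfl⟩ := mem_image.1 hp
    exact hI x hx) (by rw [hc2]; exact hcard)
  rw [hc2] at h3
  refine le_trans ?_ h3
  apply card_le_card_of_injOn (fun N : ℤ => -N)
  · intro h hh
    rw [mem_coe, mem_filter, mem_Icc] at hh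
    obtain ⟨⟨h5, h6⟩, h7⟩ := hh
    rw [mem_coe, mem_filter, mem_Icc]
    refine ⟨⟨by show -(2 * (X : ℤ)) ≤ -h; omega, by show -h ≤ 2 * (X : ℤ); omega⟩, ?_⟩
    refine lt_of_le_of_lt (Nat.cast_le.2 ?_) h7
    rw [filter_image]
    refine card_image_le.trans ?_
    apply card_le_card
    intro x hx
    rw [mem_filter] at hx ⊢
    obtain ⟨hx1, m, s, hms, hm, hs1, hs, hq⟩ := hx
    refine ⟨hx1, m, s, ?_, hm, hs1, hs, hq⟩
    have hNp : (-h - (P x : ℤ)).natAbs = ((P x : ℤ) + h).natAbs := by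
      rw [← Int.natAbs_neg]
      congr 1
      ring
    rw [hNp] at hms
    exact hms
  · intro N _ N' _ h
    have h' : -N = -N' := h
    omega

open Classical in
lemma fub {α β : Type} (S : Finset α) (T : Finset β) (P : α → β → Prop) (bad : Finset α) (ε1 ε2 : ℝ) (hε2 : 0 ≤ ε2)
    (h1 : (bad.card : ℝ) ≤ ε1 * S.card) (h2 : ∀ a ∈ S, a ∉ bad → ((T.filter (fun b => P a b)).card : ℝ) ≤ ε2 * T.card) :
    (((S ×ˢ T).filter (fun g => P g.1 g.2)).card : ℝ) ≤ (ε1 + ε2) * (S.card * T.card) := by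
  have e1 : ((S ×ˢ T).filter (fun g => P g.1 g.2)).card = ∑ a ∈ S, (T.filter (fun b => P a b)).card := by
    rw [card_filter, sum_product]
    apply sum_congr rfl
    intro a _
    rw [card_filter]
  rw [e1]
  push_cast
  have h3 : ∀ a ∈ S, ((T.filter (fun b => P a b)).card : ℝ) ≤ (if a ∈ bad then (T.card : ℝ) else 0) + ε2 * T.card := by
    intro a ha
    have hT : (0 : ℝ) ≤ ε2 * T.card := by positivity
    by_cases hb : a ∈ bad
    · rw [if_pos hb]
      have : ((T.filter (fun b => P a b)).card : ℝ) ≤ T.card := by exact_mod_cast card_filter_le _ _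
      linarith
    · rw [if_neg hb, zero_add]
      exact h2 a ha hb
  refine (sum_le_sum h3).trans ?_
  rw [sum_add_distrib, ← sum_filter, sum_const, sum_const, nsmul_eq_mul, nsmul_eq_mul]
  have h4 : ((S.filter (fun a => a ∈ bad)).card : ℝ) ≤ bad.card := by
    have : S.filter (fun a => a ∈ bad) ⊆ bad := fun a ha => (mem_filter.1 ha).2
    exact_mod_cast card_le_card this
  have h5 : ((S.filter (fun a => a ∈ bad)).card : ℝ) * T.card ≤ ε1 * S.card * T.card :=
    mul_le_mul_of_nonneg_right (h4.trans h1) (Nat.cast_nonneg _)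
  nlinarith


open Classical in
/-- several shifts -/
theorem multi (ε : ℝ) (hε : 0 < ε) : ∀ (r : ℕ) (δ : ℝ), 0 < δ → ∃ (c : ℝ) (K : ℕ), 0 < c ∧ ∀ (X : Fin r → ℕ),
    (∀ i, 2 ≤ X i) → ∀ (P : Fin r → ℕ → ℕ) (I : Finset ℕ), (∀ i, ∀ x ∈ I, (P i x).Prime ∧ P i x ≤ X i) →
    (∀ i, Set.InjOn (P i) (I : Set ℕ)) → (∀ i, δ * X i / Real.log (X i) ≤ I.card) →
      (((Fintype.piFinset fun i => Icc (-(2 * X i : ℤ)) (2 * X i)).filter (fun h : Fin r → ℤ =>
        ((I.filter (fun x => ∀ i, Rep ε (X i) (P i x + h i))).card : ℝ) < c * I.card)).card : ℝ) ≤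
        K * (∑ i, 1 / (X i : ℝ)) * ∏ i, (4 * (X i : ℝ) + 1) := by
  intro r
  induction r with
  | zero =>
    intro δ hδ
    refine ⟨1, 0, one_pos, fun X _ P I _ _ _ => ?_⟩
    have h1 : (Fintype.piFinset fun i : Fin 0 => Icc (-(2 * X i : ℤ)) (2 * X i)).filter (fun h : Fin 0 → ℤ =>
        ((I.filter (fun x => ∀ i, Rep ε (X i) (P i x + h i))).card : ℝ) < 1 * I.card) = ∅ := by
      apply filter_eq_empty_iff.2
      intro h _ hlt
      have h2 : I.filter (fun x => ∀ i, Rep ε (X i) (P i x + h i)) = I :=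
        filter_true_of_mem fun j _ i => i.elim0
      rw [h2, one_mul] at hlt
      exact lt_irrefl _ hlt
    rw [h1]
    simp
  | succ r ih =>
    intro δ hδ
    obtain ⟨c₁, K₁, hc₁, h1⟩ := one δ ε hδ hε
    obtain ⟨c₂, K₂, hc₂, h2⟩ := ih (c₁ * δ) (by positivity)
    refine ⟨c₁ * c₂, max K₁ K₂, by positivity, fun X hX P I hI hinj hcard => ?_⟩
    have hX0 : ∀ i, (0 : ℝ) < X i := fun i => by exact_mod_cast (by have := hX i; omega : 0 < X i)
    have k1 := h1 (X 0) (hX 0) (P 0) I (hI 0) (hinj 0) (hcard 0)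
    obtain ⟨Q, hQ⟩ : ∃ Q : ℤ → (Fin r → ℤ) → Prop, ∀ a b, Q a b ↔
        ((I.filter (fun x => Rep ε (X 0) (P 0 x + a) ∧ ∀ i : Fin r, Rep ε (X i.succ) (P i.succ x + b i))).card : ℝ) <
        (c₁ * c₂) * I.card := ⟨_, fun _ _ => Iff.rfl⟩
    set S := Icc (-(2 * X 0 : ℤ)) (2 * X 0) with hS
    set T := Fintype.piFinset (fun i : Fin r => Icc (-(2 * X i.succ : ℤ)) (2 * X i.succ)) with hT
    have hcI : ∀ Z : ℕ, ((Icc (-(2 * Z : ℤ)) (2 * Z)).card : ℝ) = 4 * (Z : ℝ) + 1 := by
      intro Z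
      rw [Int.card_Icc]
      have : ((2 * (Z : ℤ) + 1 - -(2 * (Z : ℤ))).toNat) = 4 * Z + 1 := by omega
      rw [this]
      push_cast
      ring
    have hTc : (T.card : ℝ) = ∏ i : Fin r, (4 * (X i.succ : ℝ) + 1) := by
      rw [hT, Fintype.card_piFinset]
      push_cast
      apply prod_congr rfl
      intro i _
      exact hcI _
    have hSc : (S.card : ℝ) = 4 * (X 0 : ℝ) + 1 := hcI _
    have hσ0 : (0 : ℝ) ≤ ∑ i : Fin r, 1 / (X i.succ : ℝ) := sum_nonneg fun i _ => (by have := hX0 i.succ; positivity)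
    have hfub := fub S T Q (S.filter (fun h : ℤ => ((I.filter (fun x => Rep ε (X 0) (P 0 x + h))).card : ℝ) < c₁ * I.card))
      (K₁ * (1 / (X 0 : ℝ))) (K₂ * ∑ i : Fin r, 1 / (X i.succ : ℝ)) (by positivity) (by
        have e1 : ((S.filter (fun h : ℤ => ((I.filter (fun x => Rep ε (X 0) (P 0 x + h))).card : ℝ) < c₁ * I.card)).card : ℝ) ≤ K₁ := by
          exact_mod_cast k1
        refine e1.trans ?_
        rw [hSc]
        have e2 : (1 : ℝ) ≤ 1 / (X 0 : ℝ) * (4 * X 0 + 1) := by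
          have e3 := hX0 0
          rw [one_div, inv_mul_eq_div, le_div_iff₀ e3]
          linarith
        calc (K₁ : ℝ) = K₁ * 1 := by ring
          _ ≤ K₁ * (1 / (X 0 : ℝ) * (4 * X 0 + 1)) := mul_le_mul_of_nonneg_left e2 (Nat.cast_nonneg _)
          _ = _ := by ring) (by
        intro a ha hab
        have hge : c₁ * I.card ≤ ((I.filter (fun x => Rep ε (X 0) (P 0 x + a))).card : ℝ) := by
          by_contra hcon
          push Not at hcon
          exact hab (mem_filter.2 ⟨ha, hcon⟩)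
        obtain ⟨J, hJ⟩ : ∃ J, J = I.filter (fun x => Rep ε (X 0) (P 0 x + a)) := ⟨_, rfl⟩
        rw [← hJ] at hge
        have hsub : J ⊆ I := by rw [hJ]; exact filter_subset _ _
        have k2 := h2 (fun i => X i.succ) (fun i => hX i.succ) (fun i => P i.succ) J
          (fun i x hx => hI i.succ x (hsub hx)) (fun i => (hinj i.succ).mono (by exact_mod_cast hsub)) (by
            intro i
            refine le_trans ?_ hge
            calc c₁ * δ * (X i.succ : ℝ) / Real.log (X i.succ) = c₁ * (δ * X i.succ / Real.log (X i.succ)) := by ring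
              _ ≤ _ := mul_le_mul_of_nonneg_left (hcard i.succ) hc₁.le)
        rw [← hTc] at k2
        refine le_trans ?_ k2
        apply Nat.cast_le.2
        apply card_le_card
        intro b hb
        rw [mem_filter] at hb ⊢
        refine ⟨hb.1, ?_⟩
        have h3 := (hQ a b).1 hb.2
        have h4 : J.filter (fun x => ∀ i : Fin r, Rep ε (X i.succ) (P i.succ x + b i)) =
            I.filter (fun x => Rep ε (X 0) (P 0 x + a) ∧ ∀ i : Fin r, Rep ε (X i.succ) (P i.succ x + b i)) := by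
          rw [hJ, filter_filter]
        rw [h4]
        refine lt_of_lt_of_le h3 ?_
        calc c₁ * c₂ * (I.card : ℝ) = c₂ * (c₁ * I.card) := by ring
          _ ≤ c₂ * J.card := mul_le_mul_of_nonneg_left hge hc₂.le)
    have hcard2 : ((Fintype.piFinset fun i => Icc (-(2 * X i : ℤ)) (2 * X i)).filter (fun h : Fin (r + 1) → ℤ =>
        ((I.filter (fun x => ∀ i, Rep ε (X i) (P i x + h i))).card : ℝ) < c₁ * c₂ * I.card)).card ≤
        ((S ×ˢ T).filter (fun g => Q g.1 g.2)).card := by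
      apply card_le_card_of_injOn (fun g => (g 0, fun i : Fin r => g i.succ))
      · intro g hg
        rw [mem_coe, mem_filter, Fintype.mem_piFinset] at hg
        rw [mem_coe, mem_filter, mem_product, hT, Fintype.mem_piFinset]
        refine ⟨⟨hg.1 0, fun i => hg.1 i.succ⟩, ?_⟩
        rw [hQ]
        refine lt_of_le_of_lt ?_ hg.2
        apply Nat.cast_le.2
        apply card_le_card
        intro j hj
        rw [mem_filter] at hj ⊢
        refine ⟨hj.1, ?_⟩
        intro i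
        refine Fin.cases ?_ (fun i' => ?_) i
        · exact hj.2.1
        · exact hj.2.2 i'
      · intro g _ g' _ h
        simp only [Prod.mk.injEq] at h
        funext i
        refine Fin.cases h.1 (fun i' => ?_) i
        exact congrFun h.2 i'
    have h8 : (((Fintype.piFinset fun i => Icc (-(2 * X i : ℤ)) (2 * X i)).filter (fun h : Fin (r + 1) → ℤ =>
        ((I.filter (fun x => ∀ i, Rep ε (X i) (P i x + h i))).card : ℝ) < c₁ * c₂ * I.card)).card : ℝ) ≤
        (((S ×ˢ T).filter (fun g => Q g.1 g.2)).card : ℝ) := by exact_mod_cast hcard2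
    refine h8.trans (hfub.trans ?_)
    rw [hTc, hSc, Fin.sum_univ_succ, Fin.prod_univ_succ]
    have hb0 : (0 : ℝ) ≤ (4 * (X 0 : ℝ) + 1) * ∏ i : Fin r, (4 * (X i.succ : ℝ) + 1) := by positivity
    apply mul_le_mul_of_nonneg_right _ hb0
    have m1 : (K₁ : ℝ) ≤ ((max K₁ K₂ : ℕ) : ℝ) := by exact_mod_cast le_max_left _ _
    have m2 : (K₂ : ℝ) ≤ ((max K₁ K₂ : ℕ) : ℝ) := by exact_mod_cast le_max_right _ _
    have hx0 : (0 : ℝ) ≤ 1 / (X 0 : ℝ) := by positivity
    nlinarith [mul_le_mul_of_nonneg_right m1 hx0, mul_le_mul_of_nonneg_right m2 hσ0]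

end Pool.Agent.Q234.ShR
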