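import Mathlib
import Pool.Agent.Y877.SxJ

/-! Dense index sets: any number of independent shifts, and bounds for primes with larger indices. -/

set_option autoImplicit false

namespace Pool.Agent.Q234.StR

open Finset Pool.Agent.H373R2.T7 Pool.Agent.Y877.SX

open Classical in
/-- any number of shifts -/
theorem stepR (B C : ℕ) : ∀ (r : ℕ) (e : Fin r → ℕ), (∀ i, e i = 1 ∨ e i = 2) → ∀ (A : ℕ) (ε : ℝ), 0 < ε → ε ≤ 1 →
    ∃ K0 : ℕ, ∀ K1 : ℕ, ∃ n0 : ℕ, ∀ n : ℕ, n0 ≤ n →
    ∀ y : ℕ, K0 * Real.log (Real.log n) ≤ y → y ≤ K1 * Real.log (Real.log n) →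
    ∀ J : Finset ℕ, (n : ℝ) ≤ J.card * Real.log n ^ A → ∀ f : Fin r → ℕ → ℕ, (∀ i, Set.InjOn (f i) J) →
    (∀ i, ∀ j ∈ J, (f i j).Prime ∧ (f i j : ℝ) ≤ n * Real.log n ^ B) →
    ∀ g0 G : Fin r → ℕ, (∀ i, primorial y * (g0 i + G i) ≤ n ^ e i) →
    (∀ i, (n : ℝ) ^ e i ≤ primorial y * G i * Real.log n ^ C) →
    (((Fintype.piFinset fun i => Icc 1 (G i)).filter (fun g =>
      ((J.filter (fun j => ∀ i, (f i j ^ e i + primorial y * (g0 i + g i)).Prime)).card : ℝ) <
      (1 - ε) * (J.card / ∏ i, (Vz y * (e i * Real.log n))))).card : ℝ) ≤ ε * ∏ i, (G i : ℝ) := by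
  intro r
  induction r with
  | zero =>
    intro e he A ε hε hε1
    refine ⟨0, fun K1 => ⟨0, fun n _ y _ _ J _ f _ _ g0 G _ _ => ?_⟩⟩
    have h1 : (Fintype.piFinset fun i => Icc 1 (G i)).filter (fun g =>
      ((J.filter (fun j => ∀ i, (f i j ^ e i + primorial y * (g0 i + g i)).Prime)).card : ℝ) <
      (1 - ε) * (J.card / ∏ i, (Vz y * (e i * Real.log n)))) = ∅ := by
      apply filter_eq_empty_iff.2
      intro g _ hlt
      have h2 : J.filter (fun j => ∀ i, (f i j ^ e i + primorial y * (g0 i + g i)).Prime) = J :=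
        filter_true_of_mem fun j _ i => i.elim0
      rw [h2] at hlt
      simp only [Finset.univ_eq_empty, Finset.prod_empty, div_one] at hlt
      have h3 : (0 : ℝ) ≤ J.card := Nat.cast_nonneg _
      nlinarith
    rw [h1]
    simp only [Finset.card_empty, Nat.cast_zero, Finset.univ_eq_empty, Finset.prod_empty, mul_one]
    exact hε.le
  | succ r ih =>
    intro e he A ε hε hε1
    obtain ⟨K0, hK0⟩ := step (e 0) (he 0) A B C (ε / 2) (by positivity) (by linarith)
    obtain ⟨K0', hK0'⟩ := ih (fun i => e i.succ) (fun i => he i.succ) (A + 2) (ε / 2) (by positivity) (by linarith)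
    refine ⟨max K0 K0', fun K1 => ?_⟩
    obtain ⟨n0, hn0⟩ := hK0 K1
    obtain ⟨n0', hn0'⟩ := hK0' K1
    obtain ⟨n1, hn1⟩ := ev_L' (max 4 (Real.exp 1))
    refine ⟨max n0 (max n0' n1), fun n hn y hy1 hy2 J hJ f hi hf g0 G a1 a2 => ?_⟩
    have b1 : n0 ≤ n := le_trans (le_max_left _ _) hn
    have b2 : n0' ≤ n := le_trans (le_trans (le_max_left _ _) (le_max_right _ _)) hn
    have b3 : n1 ≤ n := le_trans (le_trans (le_max_right _ _) (le_max_right _ _)) hn
    have hL' := hn1 n b3
    have hL : 4 ≤ Real.log n := (le_max_left _ _).trans hL'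
    have hlL : 0 ≤ Real.log (Real.log n) := Real.log_nonneg (by linarith)
    have hy1a : (K0 : ℝ) * Real.log (Real.log n) ≤ y :=
      le_trans (mul_le_mul_of_nonneg_right (by exact_mod_cast le_max_left _ _) hlL) hy1
    have hy1b : (K0' : ℝ) * Real.log (Real.log n) ≤ y :=
      le_trans (mul_le_mul_of_nonneg_right (by exact_mod_cast le_max_right _ _) hlL) hy1
    have k1 := hn0 n b1 y hy1a hy2 J hJ (f 0) (hi 0) (hf 0) (g0 0) (G 0) (a1 0) (a2 0)
    have hVy := Vz_pos y
    have hVy1 : Vz y ≤ 1 := Vz_le_one y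
    have hL0 : 0 < Real.log n := by linarith
    have her : ∀ i, (0 : ℝ) < e i := fun i => by rcases he i with h | h <;> rw [h] <;> norm_num
    have hfac : ∀ i, 0 < Vz y * (e i * Real.log n) := fun i => mul_pos hVy (mul_pos (her i) hL0)
    obtain ⟨Q, hQ⟩ : ∃ Q : ℝ, Q = ∏ i : Fin r, (Vz y * (e i.succ * Real.log n)) := ⟨_, rfl⟩
    have hQ0 : 0 < Q := by rw [hQ]; exact prod_pos fun i _ => hfac i.succ
    have hprod : ∏ i, (Vz y * (e i * Real.log n)) = (Vz y * (e 0 * Real.log n)) * Q := by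
      rw [hQ, Fin.prod_univ_succ]
    obtain ⟨P, hP⟩ : ∃ P : ℕ → (Fin r → ℕ) → Prop, ∀ a b, P a b ↔
        ((J.filter (fun j => (f 0 j ^ e 0 + primorial y * (g0 0 + a)).Prime ∧
          ∀ i : Fin r, (f i.succ j ^ e i.succ + primorial y * (g0 i.succ + b i)).Prime)).card : ℝ) <
        (1 - ε) * (J.card / ((Vz y * (e 0 * Real.log n)) * Q)) := ⟨_, fun _ _ => Iff.rfl⟩
    set S := Icc 1 (G 0) with hS
    set T := Fintype.piFinset (fun i : Fin r => Icc 1 (G i.succ)) with hT
    have hTc : (T.card : ℝ) = ∏ i : Fin r, (G i.succ : ℝ) := by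
      rw [hT, Fintype.card_piFinset]
      push_cast
      apply prod_congr rfl
      intro i _
      simp
    have hfub := fub S T P (S.filter (fun g => ((J.filter (fun j => (f 0 j ^ e 0 + primorial y * (g0 0 + g)).Prime)).card : ℝ) <
        (1 - ε / 2) * (J.card / (Vz y * (e 0 * Real.log n))))) (ε / 2) (ε / 2) (by positivity) (by
          refine k1.trans (le_of_eq ?_)
          simp [hS]) (by
        intro a ha hab
        have hge : (1 - ε / 2) * (J.card / (Vz y * (e 0 * Real.log n))) ≤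
            ((J.filter (fun j => (f 0 j ^ e 0 + primorial y * (g0 0 + a)).Prime)).card : ℝ) := by
          by_contra hcon
          push Not at hcon
          exact hab (mem_filter.2 ⟨ha, hcon⟩)
        obtain ⟨J', hJ'⟩ : ∃ J', J' = J.filter (fun j => (f 0 j ^ e 0 + primorial y * (g0 0 + a)).Prime) := ⟨_, rfl⟩
        rw [← hJ'] at hge
        have hsubJ : J' ⊆ J := by rw [hJ']; exact filter_subset _ _
        have hd := dens A (e 0) (he 0) n J.card J'.card (Real.log n) (Vz y) (ε / 2) hL hVy hVy1 (by linarith)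
          (Nat.cast_nonneg _) hJ hge
        have k2 := hn0' n b2 y hy1b hy2 J' hd (fun i => f i.succ)
          (fun i => (hi i.succ).mono (by exact_mod_cast hsubJ)) (fun i j hj => hf i.succ j (hsubJ hj))
          (fun i => g0 i.succ) (fun i => G i.succ) (fun i => a1 i.succ) (fun i => a2 i.succ)
        rw [← hTc] at k2
        refine le_trans ?_ k2
        apply Nat.cast_le.2
        apply card_le_card
        intro b hb
        rw [mem_filter] at hb ⊢
        refine ⟨hb.1, ?_⟩
        have h3 := (hP a b).1 hb.2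
        have h4 : J'.filter (fun j => ∀ i : Fin r, (f i.succ j ^ e i.succ + primorial y * (g0 i.succ + b i)).Prime) =
            J.filter (fun j => (f 0 j ^ e 0 + primorial y * (g0 0 + a)).Prime ∧
            ∀ i : Fin r, (f i.succ j ^ e i.succ + primorial y * (g0 i.succ + b i)).Prime) := by
          rw [hJ', filter_filter]
        rw [h4, ← hQ]
        refine lt_of_lt_of_le h3 ?_
        have h5 : (1 - ε / 2) * (J.card / (Vz y * (e 0 * Real.log n))) / Q ≤ J'.card / Q :=
          div_le_div_of_nonneg_right hge hQ0.le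
        have h6 : (1 - ε / 2) * ((1 - ε / 2) * (J.card / (Vz y * (e 0 * Real.log n))) / Q) ≤
            (1 - ε / 2) * (J'.card / Q) := mul_le_mul_of_nonneg_left h5 (by linarith)
        refine le_trans ?_ h6
        have hf0 := hfac 0
        have h7 : (1 - ε / 2) * ((1 - ε / 2) * ((J.card : ℝ) / (Vz y * (e 0 * Real.log n))) / Q) =
            (1 - ε / 2) ^ 2 * (J.card / ((Vz y * (e 0 * Real.log n)) * Q)) := by
          field_simp
        rw [h7]
        apply mul_le_mul_of_nonneg_right _ (by positivity)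
        nlinarith)
    rw [hprod, Fin.prod_univ_succ]
    have hcard : ((Fintype.piFinset fun i => Icc 1 (G i)).filter (fun g =>
        ((J.filter (fun j => ∀ i, (f i j ^ e i + primorial y * (g0 i + g i)).Prime)).card : ℝ) <
        (1 - ε) * (J.card / ((Vz y * (e 0 * Real.log n)) * Q)))).card ≤
        ((S ×ˢ T).filter (fun g => P g.1 g.2)).card := by
      apply card_le_card_of_injOn (fun g => (g 0, fun i : Fin r => g i.succ))
      · intro g hg
        rw [mem_coe, mem_filter, Fintype.mem_piFinset] at hg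
        rw [mem_coe, mem_filter, mem_product, hT, Fintype.mem_piFinset]
        refine ⟨⟨hg.1 0, fun i => hg.1 i.succ⟩, ?_⟩
        rw [hP]
        refine lt_of_le_of_lt ?_ hg.2
        apply Nat.cast_le.2
        apply card_le_card
        intro j hj
        rw [mem_filter] at hj ⊢
        refine ⟨hj.1, ?_⟩
        intro i
        refine Fin.cases ?_ (fun i' => ?_) i
        · exact hj.2.1
        · exact hj.2.2 i'
      · intro g _ g' _ h
        simp only [Prod.mk.injEq] at h
        funext i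
        refine Fin.cases h.1 (fun i' => ?_) i
        exact congrFun h.2 i'
    have h8 : (((Fintype.piFinset fun i => Icc 1 (G i)).filter (fun g =>
        ((J.filter (fun j => ∀ i, (f i j ^ e i + primorial y * (g0 i + g i)).Prime)).card : ℝ) <
        (1 - ε) * (J.card / ((Vz y * (e 0 * Real.log n)) * Q)))).card : ℝ) ≤
        (((S ×ˢ T).filter (fun g => P g.1 g.2)).card : ℝ) := by exact_mod_cast hcard
    refine h8.trans (hfub.trans (le_of_eq ?_))
    rw [hTc, hS, Nat.card_Icc, Nat.add_sub_cancel]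
    ring

/-- the primes with indices up to `n log ^ B n` -/
lemma nth_le_logB (B : ℕ) : ∃ n0 : ℕ, ∀ n : ℕ, n0 ≤ n → ∀ i : ℕ, (i : ℝ) ≤ n * Real.log n ^ B →
    (Nat.nth Nat.Prime (i - 1) : ℝ) ≤ n * Real.log n ^ (B + 3) := by
  obtain ⟨n1, h1⟩ := nth_le_log
  obtain ⟨n2, h2⟩ := ev_L' 40
  obtain ⟨n3, h3⟩ := ev_log' B 1
  refine ⟨max n1 (max n2 (max n3 1)), fun n hn i hi => ?_⟩
  have b1 : n1 ≤ n := le_trans (le_max_left _ _) hn
  have b2 : n2 ≤ n := le_trans (le_trans (le_max_left _ _) (le_max_right _ _)) hn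
  have b3 : n3 ≤ n := le_trans (le_trans (le_trans (le_max_left _ _) (le_max_right _ _)) (le_max_right _ _)) hn
  have b4 : 1 ≤ n := le_trans (le_trans (le_trans (le_max_right _ _) (le_max_right _ _)) (le_max_right _ _)) hn
  have hL := h2 n b2
  have hs := h3 n b3
  obtain ⟨L, hLd⟩ : ∃ L, L = Real.log n := ⟨_, rfl⟩
  rw [← hLd] at hL hs hi ⊢
  rw [one_mul] at hs
  have hnr : (1 : ℝ) ≤ n := by exact_mod_cast b4
  have hn0 : (0 : ℝ) < n := by linarith
  have hL1 : 1 ≤ L ^ B := one_le_pow₀ (by linarith)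
  obtain ⟨m, hmd⟩ : ∃ m, m = ⌊(n : ℝ) * L ^ B⌋₊ := ⟨_, rfl⟩
  have hmu : (m : ℝ) ≤ n * L ^ B := by
    rw [hmd]
    exact Nat.floor_le (by positivity)
  have hnm : n ≤ m := by
    rw [hmd]
    apply Nat.le_floor
    exact le_mul_of_one_le_right hn0.le hL1
  have him : i ≤ m := by
    rw [hmd]
    exact Nat.le_floor hi
  have k2 := h1 m (b1.trans hnm) (i - 1) (by omega)
  refine k2.trans ?_
  have hm0 : (0 : ℝ) < m := lt_of_lt_of_le hn0 (by exact_mod_cast hnm)
  have hsn : √(n : ℝ) ≤ n := by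
    have h := Real.sq_sqrt hn0.le
    have h1 : 1 ≤ √(n : ℝ) := by rw [← Real.sqrt_one]; exact Real.sqrt_le_sqrt hnr
    nlinarith
  have hlm : Real.log m ≤ 2 * L := by
    have h1 : (m : ℝ) ≤ n ^ 2 := by
      rw [sq]
      exact hmu.trans (mul_le_mul_of_nonneg_left (hs.trans hsn) hn0.le)
    have := Real.log_le_log hm0 h1
    rw [Real.log_pow, ← hLd] at this
    push_cast at this
    exact this
  have hlm0 : 0 ≤ Real.log m := Real.log_natCast_nonneg m
  have h5 : Real.log m ^ 2 ≤ (2 * L) ^ 2 := pow_le_pow_left₀ hlm0 hlm 2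
  calc (m : ℝ) * Real.log m ^ 2 ≤ (n * L ^ B) * (2 * L) ^ 2 := mul_le_mul hmu h5 (by positivity) (by positivity)
    _ = n * (L ^ B * (4 * L ^ 2)) := by ring
    _ ≤ n * (L ^ B * (L * L ^ 2)) := by
        apply mul_le_mul_of_nonneg_left _ hn0.le
        apply mul_le_mul_of_nonneg_left _ (by positivity)
        apply mul_le_mul_of_nonneg_right (by linarith) (by positivity)
    _ = _ := by ring

end Pool.Agent.Q234.StR
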