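import Mathlib
import Pool.Agent.Q234.StR

/-! Primes whose indices are small multiples of the elements of a dense set. -/

set_option autoImplicit false

namespace Pool.Agent.Q234.StR

open Finset Pool.Agent.H373R2.T7 Pool.Agent.Y877.SX

/-- the `m`-th prime -/
noncomputable def pn (m : ℕ) : ℕ := Nat.nth Nat.Prime (m - 1)

lemma nth_inj : Function.Injective (Nat.nth Nat.Prime) := Nat.nth_injective Nat.infinite_setOfPred_prime

lemma pn_inj {a b : ℕ} (ha : 1 ≤ a) (hb : 1 ≤ b) (h : pn a = pn b) : a = b := by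
  have := nth_inj h
  omega

lemma pn_prime (m : ℕ) : (pn m).Prime := Nat.prime_nth_prime _

open Classical in
/-- the multipliers `a i ≤ log ^ B x` and an arbitrary dense set `S` of integers up to `x` -/
theorem mult (e : ℕ) (he : e = 1 ∨ e = 2) (r A B C : ℕ) (ε : ℝ) (hε : 0 < ε) (hε1 : ε ≤ 1) :
    ∃ K0 : ℕ, ∀ K1 : ℕ, ∃ n0 : ℕ, ∀ n : ℕ, n0 ≤ n →
    ∀ y : ℕ, K0 * Real.log (Real.log n) ≤ y → y ≤ K1 * Real.log (Real.log n) →
    ∀ S : Finset ℕ, S ⊆ Icc 1 n → (n : ℝ) ≤ S.card * Real.log n ^ A →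
    ∀ a : Fin r → ℕ, (∀ i, 1 ≤ a i) → (∀ i, (a i : ℝ) ≤ Real.log n ^ B) →
    ∀ g0 G : Fin r → ℕ, (∀ i, primorial y * (g0 i + G i) ≤ n ^ e) →
    (∀ i, (n : ℝ) ^ e ≤ primorial y * G i * Real.log n ^ C) →
    (((Fintype.piFinset fun i => Icc 1 (G i)).filter (fun g =>
      ((S.filter (fun j => ∀ i, (pn (a i * j) ^ e + primorial y * (g0 i + g i)).Prime)).card : ℝ) <
      (1 - ε) * (S.card / (e * Vz y * Real.log n) ^ r))).card : ℝ) ≤ ε * ∏ i, (G i : ℝ) := by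
  obtain ⟨K0, hK0⟩ := stepR (B + 3) C r (fun _ => e) (fun _ => he) A ε hε hε1
  refine ⟨K0, fun K1 => ?_⟩
  obtain ⟨n0, hn0⟩ := hK0 K1
  obtain ⟨n1, hn1⟩ := nth_le_logB B
  refine ⟨max n0 n1, fun n hn y hy1 hy2 S hS hSc a ha1 ha2 g0 G h1 h2 => ?_⟩
  have b1 : n0 ≤ n := le_trans (le_max_left _ _) hn
  have b2 : n1 ≤ n := le_trans (le_max_right _ _) hn
  have k := hn0 n b1 y hy1 hy2 S hSc (fun i j => pn (a i * j)) (by
      intro i x hx z hz hxz
      have hx1 := mem_Icc.1 (hS (mem_coe.1 hx))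
      have hz1 := mem_Icc.1 (hS (mem_coe.1 hz))
      have hai := ha1 i
      have h3 : a i * x = a i * z := pn_inj (Nat.mul_pos hai hx1.1) (Nat.mul_pos hai hz1.1) hxz
      exact Nat.eq_of_mul_eq_mul_left hai h3) (by
      intro i j hj
      refine ⟨pn_prime _, ?_⟩
      apply hn1 n b2
      have hj1 := mem_Icc.1 (hS hj)
      push_cast
      have h4 : (j : ℝ) ≤ n := by exact_mod_cast hj1.2
      have h5 := ha2 i
      have h6 : (0 : ℝ) ≤ j := Nat.cast_nonneg _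
      have h7 : (0 : ℝ) ≤ a i := Nat.cast_nonneg _
      calc (a i : ℝ) * j ≤ Real.log n ^ B * n := mul_le_mul h5 h4 h6 (h7.trans h5)
        _ = _ := by ring) g0 G h1 h2
  have e1 : ∏ _i : Fin r, (Vz y * (e * Real.log n)) = (e * Vz y * Real.log n) ^ r := by
    rw [prod_const, card_univ, Fintype.card_fin]
    congr 1
    ring
  rw [e1] at k
  exact k

end Pool.Agent.Q234.StR
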