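import Mathlib
import Pool.Agent.Y877.SxJ

/-! Dense index sets: any number of independent shifts of arbitrary integers without small prime factors. -/

set_option autoImplicit false

namespace Pool.Agent.Q234.StQ

open Finset Pool.Agent.H373R2.T7 Pool.Agent.Y877.SX

open Classical in
theorem oneQ (e : ℕ) (he : e = 1 ∨ e = 2) (A B C : ℕ) (ε : ℝ) (hε : 0 < ε) : ∃ K0 : ℕ, ∀ K1 : ℕ, ∃ n0 : ℕ, ∀ n : ℕ, n0 ≤ n →
    ∀ y : ℕ, K0 * Real.log (Real.log n) ≤ y → y ≤ K1 * Real.log (Real.log n) →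
    ∀ J : Finset ℕ, (n : ℝ) ≤ J.card * Real.log n ^ A → ∀ f : ℕ → ℕ, Set.InjOn f J →
    (∀ j ∈ J, 1 ≤ f j ∧ (∀ p : ℕ, p.Prime → p ≤ y → ¬ p ∣ f j) ∧ (f j : ℝ) ≤ n * Real.log n ^ B) →
    ∀ g0 G : ℕ, primorial y * (g0 + G) ≤ n ^ e → (n : ℝ) ^ e ≤ primorial y * G * Real.log n ^ C →
    (((Icc 1 G).filter (fun g => ((J.filter (fun j => (f j ^ e + primorial y * (g0 + g)).Prime)).card : ℝ) <
      (1 - ε) * (J.card / (Vz y * (e * Real.log n))))).card : ℝ) ≤ ε * G := by
  have he1 : 1 ≤ e := by omega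
  have he2 : e ≤ 2 := by omega
  obtain ⟨δ, hδd⟩ : ∃ δ, δ = ε / 4 := ⟨_, rfl⟩
  have hδ : 0 < δ := by rw [hδd]; positivity
  obtain ⟨K0, hK0⟩ := shifts e he (A + B) (C + 2 * B) δ hδ
  refine ⟨2 * K0, fun K1 => ?_⟩
  obtain ⟨x0, hx0⟩ := hK0 K1
  obtain ⟨n1, hn1⟩ := ev_L' (max (Real.exp 1) (((1 + 4 * B) / δ) ^ 2 + (1 + 4 * B) ^ 2))
  refine ⟨max x0 (max n1 1), fun n hn y hy1 hy2 J hJ f hf hfp g0 G hg1 hg2 => ?_⟩
  have b1 : x0 ≤ n := le_trans (le_max_left _ _) hn
  have b2 : n1 ≤ n := le_trans (le_trans (le_max_left _ _) (le_max_right _ _)) hn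
  have b3 : 1 ≤ n := le_trans (le_trans (le_max_right _ _) (le_max_right _ _)) hn
  have hL := hn1 n b2
  obtain ⟨L, hLd⟩ : ∃ L, L = Real.log n := ⟨_, rfl⟩
  rw [← hLd] at hL hy1 hy2 hJ hfp hg2 ⊢
  have hL1 : Real.exp 1 ≤ L := (le_max_left _ _).trans hL
  have hL2 : ((1 + 4 * B) / δ) ^ 2 + (1 + 4 * B) ^ 2 ≤ L := (le_max_right _ _).trans hL
  have hLe : 1 ≤ L := (Real.one_le_exp (by norm_num)).trans hL1
  have hL0 : 0 < L := by linarith
  have hs0 : 0 < √L := Real.sqrt_pos.2 hL0
  have hss : √L * √L = L := Real.mul_self_sqrt hL0.le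
  have hs1 : 1 ≤ √L := by rw [← Real.sqrt_one]; exact Real.sqrt_le_sqrt hLe
  have hs2 : (1 + 4 * (B : ℝ)) / δ ≤ √L := by
    apply Real.le_sqrt_of_sq_le
    have : 0 ≤ (1 + 4 * (B : ℝ)) ^ 2 := by positivity
    linarith
  have hs3 : 1 + 4 * (B : ℝ) ≤ √L := by
    apply Real.le_sqrt_of_sq_le
    have : 0 ≤ ((1 + 4 * (B : ℝ)) / δ) ^ 2 := by positivity
    linarith
  have hlog : Real.log L ≤ 2 * √L := by
    have h1 : Real.log L = 2 * Real.log (√L) := by
      rw [Real.log_sqrt hL0.le]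
      ring
    have h2 := Real.log_le_sub_one_of_pos hs0
    linarith
  have hlog1 : 1 ≤ Real.log L := by
    rw [← Real.log_exp 1]
    exact Real.log_le_log (Real.exp_pos 1) hL1
  have hnr : (1 : ℝ) ≤ n := by exact_mod_cast b3
  have hn0 : (0 : ℝ) < n := by linarith
  have hLB : 1 ≤ L ^ B := one_le_pow₀ hLe
  -- x
  obtain ⟨x, hxd⟩ : ∃ x, x = ⌊(n : ℝ) * L ^ B⌋₊ := ⟨_, rfl⟩
  have hnx : n ≤ x := by
    rw [hxd]
    apply Nat.le_floor
    exact le_mul_of_one_le_right hn0.le hLB
  have hxu : (x : ℝ) ≤ n * L ^ B := by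
    rw [hxd]
    exact Nat.floor_le (by positivity)
  have hnxr : (n : ℝ) ≤ x := by exact_mod_cast hnx
  have hx0r : (0 : ℝ) < x := by linarith
  have hLx : L ≤ Real.log x := by
    rw [hLd]
    exact Real.log_le_log hn0 hnxr
  have hlx : Real.log x ≤ L + B * Real.log L := by
    refine (Real.log_le_log hx0r hxu).trans (le_of_eq ?_)
    rw [Real.log_mul hn0.ne' (by positivity), Real.log_pow, ← hLd]
  have hsL : √L ≤ L := by
    calc √L = √L * 1 := (mul_one _).symm
      _ ≤ √L * √L := mul_le_mul_of_nonneg_left hs1 hs0.le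
      _ = L := hss
  have hlx2 : Real.log x ≤ L ^ 2 := by
    refine hlx.trans ?_
    have hB0 : (0 : ℝ) ≤ B := Nat.cast_nonneg B
    have h1 : (B : ℝ) * Real.log L ≤ B * (2 * √L) := mul_le_mul_of_nonneg_left hlog hB0
    have h2 : (B : ℝ) * √L ≤ B * L := mul_le_mul_of_nonneg_left hsL hB0
    have h3 : (1 + 4 * (B : ℝ)) * L ≤ L * L := mul_le_mul_of_nonneg_right (hs3.trans hsL) hL0.le
    have h4 : 0 ≤ (B : ℝ) * L := mul_nonneg hB0 hL0.le
    have h5 : L ^ 2 = L * L := sq L
    rw [h5]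
    linarith
  have hllx : Real.log (Real.log x) ≤ 2 * Real.log L := by
    have := Real.log_le_log (by linarith) hlx2
    rwa [Real.log_pow] at this
  have hllx' : Real.log L ≤ Real.log (Real.log x) := Real.log_le_log hL0 hLx
  have key := hx0 x (b1.trans hnx) y (by
    refine le_trans (mul_le_mul_of_nonneg_left hllx (Nat.cast_nonneg _)) (le_trans (le_of_eq ?_) hy1)
    push_cast
    ring) (hy2.trans (mul_le_mul_of_nonneg_left hllx' (Nat.cast_nonneg _))) (J.image f) (by
      intro s hs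
      rw [mem_image] at hs
      obtain ⟨j, hj, rfl⟩ := hs
      rw [mem_Icc]
      refine ⟨(hfp j hj).1, ?_⟩
      rw [hxd]
      exact Nat.le_floor (hfp j hj).2.2) (by
      rw [card_image_of_injOn hf]
      calc (x : ℝ) ≤ n * L ^ B := hxu
        _ ≤ (J.card * L ^ A) * L ^ B := by gcongr
        _ = J.card * L ^ (A + B) := by rw [pow_add]; ring
        _ ≤ J.card * Real.log x ^ (A + B) := by gcongr) (by
      intro s hs p hp hpy hd
      rw [mem_image] at hs
      obtain ⟨j, hj, rfl⟩ := hs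
      exact (hfp j hj).2.1 p hp hpy hd) g0 G (hg1.trans (Nat.pow_le_pow_left hnx e)) (by
      have h1 : (L ^ B) ^ e ≤ L ^ (2 * B) := by
        rw [← pow_mul]
        exact pow_le_pow_right₀ hLe (by rw [mul_comm]; exact Nat.mul_le_mul_right B he2)
      calc (x : ℝ) ^ e ≤ (n * L ^ B) ^ e := pow_le_pow_left₀ hx0r.le hxu e
        _ = (n : ℝ) ^ e * (L ^ B) ^ e := mul_pow _ _ _
        _ ≤ (primorial y * G * L ^ C) * L ^ (2 * B) := mul_le_mul hg2 h1 (by positivity) (by positivity)
        _ = primorial y * G * L ^ (C + 2 * B) := by rw [pow_add]; ring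
        _ ≤ primorial y * G * Real.log x ^ (C + 2 * B) := by gcongr)
  rw [card_image_of_injOn hf] at key
  have hG0 : (0 : ℝ) ≤ G := Nat.cast_nonneg G
  refine le_trans ?_ (key.trans (by
    have := mul_nonneg hε.le hG0
    rw [hδd]
    linarith))
  have hsub : (Icc 1 G).filter (fun g => ((J.filter (fun j => (f j ^ e + primorial y * (g0 + g)).Prime)).card : ℝ) <
      (1 - ε) * (J.card / (Vz y * (e * L)))) ⊆ (Icc 1 G).filter (fun g => (((J.image f).filter (fun s => (s ^ e + primorial y * (g0 + g)).Prime)).card : ℝ) *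
      Real.log (2 * (x : ℝ) ^ e) < (1 - 3 * δ) * (J.card * (Vz y)⁻¹)) := by
    intro g hg
    rw [mem_filter] at hg ⊢
    refine ⟨hg.1, ?_⟩
    have h1 : ((J.image f).filter (fun s => (s ^ e + primorial y * (g0 + g)).Prime)).card =
        (J.filter (fun j => (f j ^ e + primorial y * (g0 + g)).Prime)).card := by
      rw [filter_image, card_image_of_injOn]
      intro a ha b hb hab
      exact hf (mem_coe.2 (mem_filter.1 (mem_coe.1 ha)).1) (mem_coe.2 (mem_filter.1 (mem_coe.1 hb)).1) hab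
    rw [h1]
    obtain ⟨c, hc⟩ : ∃ c : ℝ, c = ((J.filter (fun j => (f j ^ e + primorial y * (g0 + g)).Prime)).card : ℝ) := ⟨_, rfl⟩
    have hc0 : 0 ≤ c := by rw [hc]; exact Nat.cast_nonneg _
    have h2 := hg.2
    rw [← hc] at h2 ⊢
    have her : (1 : ℝ) ≤ e := by exact_mod_cast he1
    have her2 : (e : ℝ) ≤ 2 := by exact_mod_cast he2
    have hVy := Vz_pos y
    have h3 : Real.log (2 * (x : ℝ) ^ e) ≤ (1 + δ) * (e * L) := by
      rw [Real.log_mul (by norm_num) (by positivity), Real.log_pow]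
      have h4 : (e : ℝ) * Real.log x ≤ e * (L + B * Real.log L) := by gcongr
      have h5 : (e : ℝ) * (B * Real.log L) ≤ 2 * (B * (2 * √L)) := by gcongr
      have h6 : 1 + 4 * (B : ℝ) ≤ δ * √L := by
        rw [div_le_iff₀ hδ] at hs2
        linarith
      have h7 : (1 + 4 * (B : ℝ)) * √L ≤ δ * √L * √L := mul_le_mul_of_nonneg_right h6 hs0.le
      have h8 : Real.log 2 ≤ √L := by
        have := Real.log_two_lt_d9
        linarith
      have h9 : δ * L * 1 ≤ δ * L * e := mul_le_mul_of_nonneg_left her (by positivity)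
      have h10 : δ * √L * √L = δ * L := by rw [mul_assoc, hss]
      have h12 : (1 + δ) * (e * L) = e * L + δ * L * e := by ring
      have h13 : (e : ℝ) * (L + B * Real.log L) = e * L + e * (B * Real.log L) := by ring
      have h14 : (1 + 4 * (B : ℝ)) * √L = √L + 2 * (B * (2 * √L)) := by ring
      rw [h12]
      rw [h13] at h4
      rw [h14] at h7
      linarith
    have h11 : 0 < Vz y * (e * L) := by positivity
    have hJ0 : (0 : ℝ) ≤ J.card := Nat.cast_nonneg _
    by_cases hε1 : 1 - ε ≤ 0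
    · exfalso
      have : (1 - ε) * ((J.card : ℝ) / (Vz y * (e * L))) ≤ 0 := mul_nonpos_of_nonpos_of_nonneg hε1 (by positivity)
      linarith
    · push Not at hε1
      have hJp : (0 : ℝ) < J.card := by
        by_contra h
        push Not at h
        have : (J.card : ℝ) * L ^ A ≤ 0 := mul_nonpos_of_nonpos_of_nonneg h (by positivity)
        linarith
      calc c * Real.log (2 * (x : ℝ) ^ e) ≤ c * ((1 + δ) * (e * L)) := mul_le_mul_of_nonneg_left h3 hc0
        _ < ((1 - ε) * (J.card / (Vz y * (e * L)))) * ((1 + δ) * (e * L)) := mul_lt_mul_of_pos_right h2 (by positivity)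
        _ = (1 - ε) * (1 + δ) * (J.card * (Vz y)⁻¹) := by
            field_simp
        _ ≤ (1 - 3 * δ) * (J.card * (Vz y)⁻¹) := by
            apply mul_le_mul_of_nonneg_right _ (by positivity)
            rw [hδd]
            have h15 : (1 - ε) * (1 + ε / 4) = 1 - 3 * (ε / 4) - ε ^ 2 / 4 := by ring
            rw [h15]
            linarith [sq_nonneg ε]
  exact_mod_cast card_le_card hsub


open Classical in
/-- any number of shifts -/
theorem stepQ (B C : ℕ) : ∀ (r : ℕ) (e : Fin r → ℕ), (∀ i, e i = 1 ∨ e i = 2) → ∀ (A : ℕ) (ε : ℝ), 0 < ε → ε ≤ 1 →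
    ∃ K0 : ℕ, ∀ K1 : ℕ, ∃ n0 : ℕ, ∀ n : ℕ, n0 ≤ n →
    ∀ y : ℕ, K0 * Real.log (Real.log n) ≤ y → y ≤ K1 * Real.log (Real.log n) →
    ∀ J : Finset ℕ, (n : ℝ) ≤ J.card * Real.log n ^ A → ∀ f : Fin r → ℕ → ℕ, (∀ i, Set.InjOn (f i) J) →
    (∀ i, ∀ j ∈ J, 1 ≤ f i j ∧ (∀ p : ℕ, p.Prime → p ≤ y → ¬ p ∣ f i j) ∧ (f i j : ℝ) ≤ n * Real.log n ^ B) →
    ∀ g0 G : Fin r → ℕ, (∀ i, primorial y * (g0 i + G i) ≤ n ^ e i) →
    (∀ i, (n : ℝ) ^ e i ≤ primorial y * G i * Real.log n ^ C) →
    (((Fintype.piFinset fun i => Icc 1 (G i)).filter (fun g =>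
      ((J.filter (fun j => ∀ i, (f i j ^ e i + primorial y * (g0 i + g i)).Prime)).card : ℝ) <
      (1 - ε) * (J.card / ∏ i, (Vz y * (e i * Real.log n))))).card : ℝ) ≤ ε * ∏ i, (G i : ℝ) := by
  intro r
  induction r with
  | zero =>
    intro e he A ε hε hε1
    refine ⟨0, fun K1 => ⟨0, fun n _ y _ _ J _ f _ _ g0 G _ _ => ?_⟩⟩
    have h1 : (Fintype.piFinset fun i => Icc 1 (G i)).filter (fun g =>
      ((J.filter (fun j => ∀ i, (f i j ^ e i + primorial y * (g0 i + g i)).Prime)).card : ℝ) <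
      (1 - ε) * (J.card / ∏ i, (Vz y * (e i * Real.log n)))) = ∅ := by
      apply filter_eq_empty_iff.2
      intro g _ hlt
      have h2 : J.filter (fun j => ∀ i, (f i j ^ e i + primorial y * (g0 i + g i)).Prime) = J :=
        filter_true_of_mem fun j _ i => i.elim0
      rw [h2] at hlt
      simp only [Finset.univ_eq_empty, Finset.prod_empty, div_one] at hlt
      have h3 : (0 : ℝ) ≤ J.card := Nat.cast_nonneg _
      nlinarith
    rw [h1]
    simp only [Finset.card_empty, Nat.cast_zero, Finset.univ_eq_empty, Finset.prod_empty, mul_one]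
    exact hε.le
  | succ r ih =>
    intro e he A ε hε hε1
    obtain ⟨K0, hK0⟩ := oneQ (e 0) (he 0) A B C (ε / 2) (by positivity)
    obtain ⟨K0', hK0'⟩ := ih (fun i => e i.succ) (fun i => he i.succ) (A + 2) (ε / 2) (by positivity) (by linarith)
    refine ⟨max K0 K0', fun K1 => ?_⟩
    obtain ⟨n0, hn0⟩ := hK0 K1
    obtain ⟨n0', hn0'⟩ := hK0' K1
    obtain ⟨n1, hn1⟩ := ev_L' (max 4 (Real.exp 1))
    refine ⟨max n0 (max n0' n1), fun n hn y hy1 hy2 J hJ f hi hf g0 G a1 a2 => ?_⟩
    have b1 : n0 ≤ n := le_trans (le_max_left _ _) hn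
    have b2 : n0' ≤ n := le_trans (le_trans (le_max_left _ _) (le_max_right _ _)) hn
    have b3 : n1 ≤ n := le_trans (le_trans (le_max_right _ _) (le_max_right _ _)) hn
    have hL' := hn1 n b3
    have hL : 4 ≤ Real.log n := (le_max_left _ _).trans hL'
    have hlL : 0 ≤ Real.log (Real.log n) := Real.log_nonneg (by linarith)
    have hy1a : (K0 : ℝ) * Real.log (Real.log n) ≤ y :=
      le_trans (mul_le_mul_of_nonneg_right (by exact_mod_cast le_max_left _ _) hlL) hy1
    have hy1b : (K0' : ℝ) * Real.log (Real.log n) ≤ y :=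
      le_trans (mul_le_mul_of_nonneg_right (by exact_mod_cast le_max_right _ _) hlL) hy1
    have k1 := hn0 n b1 y hy1a hy2 J hJ (f 0) (hi 0) (hf 0) (g0 0) (G 0) (a1 0) (a2 0)
    have hVy := Vz_pos y
    have hVy1 : Vz y ≤ 1 := Vz_le_one y
    have hL0 : 0 < Real.log n := by linarith
    have her : ∀ i, (0 : ℝ) < e i := fun i => by rcases he i with h | h <;> rw [h] <;> norm_num
    have hfac : ∀ i, 0 < Vz y * (e i * Real.log n) := fun i => mul_pos hVy (mul_pos (her i) hL0)
    obtain ⟨Q, hQ⟩ : ∃ Q : ℝ, Q = ∏ i : Fin r, (Vz y * (e i.succ * Real.log n)) := ⟨_, rfl⟩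
    have hQ0 : 0 < Q := by rw [hQ]; exact prod_pos fun i _ => hfac i.succ
    have hprod : ∏ i, (Vz y * (e i * Real.log n)) = (Vz y * (e 0 * Real.log n)) * Q := by
      rw [hQ, Fin.prod_univ_succ]
    obtain ⟨P, hP⟩ : ∃ P : ℕ → (Fin r → ℕ) → Prop, ∀ a b, P a b ↔
        ((J.filter (fun j => (f 0 j ^ e 0 + primorial y * (g0 0 + a)).Prime ∧
          ∀ i : Fin r, (f i.succ j ^ e i.succ + primorial y * (g0 i.succ + b i)).Prime)).card : ℝ) <
        (1 - ε) * (J.card / ((Vz y * (e 0 * Real.log n)) * Q)) := ⟨_, fun _ _ => Iff.rfl⟩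
    set S := Icc 1 (G 0) with hS
    set T := Fintype.piFinset (fun i : Fin r => Icc 1 (G i.succ)) with hT
    have hTc : (T.card : ℝ) = ∏ i : Fin r, (G i.succ : ℝ) := by
      rw [hT, Fintype.card_piFinset]
      push_cast
      apply prod_congr rfl
      intro i _
      simp
    have hfub := fub S T P (S.filter (fun g => ((J.filter (fun j => (f 0 j ^ e 0 + primorial y * (g0 0 + g)).Prime)).card : ℝ) <
        (1 - ε / 2) * (J.card / (Vz y * (e 0 * Real.log n))))) (ε / 2) (ε / 2) (by positivity) (by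
          refine k1.trans (le_of_eq ?_)
          simp [hS]) (by
        intro a ha hab
        have hge : (1 - ε / 2) * (J.card / (Vz y * (e 0 * Real.log n))) ≤
            ((J.filter (fun j => (f 0 j ^ e 0 + primorial y * (g0 0 + a)).Prime)).card : ℝ) := by
          by_contra hcon
          push Not at hcon
          exact hab (mem_filter.2 ⟨ha, hcon⟩)
        obtain ⟨J', hJ'⟩ : ∃ J', J' = J.filter (fun j => (f 0 j ^ e 0 + primorial y * (g0 0 + a)).Prime) := ⟨_, rfl⟩
        rw [← hJ'] at hge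
        have hsubJ : J' ⊆ J := by rw [hJ']; exact filter_subset _ _
        have hd := dens A (e 0) (he 0) n J.card J'.card (Real.log n) (Vz y) (ε / 2) hL hVy hVy1 (by linarith)
          (Nat.cast_nonneg _) hJ hge
        have k2 := hn0' n b2 y hy1b hy2 J' hd (fun i => f i.succ)
          (fun i => (hi i.succ).mono (by exact_mod_cast hsubJ)) (fun i j hj => hf i.succ j (hsubJ hj))
          (fun i => g0 i.succ) (fun i => G i.succ) (fun i => a1 i.succ) (fun i => a2 i.succ)
        rw [← hTc] at k2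
        refine le_trans ?_ k2
        apply Nat.cast_le.2
        apply card_le_card
        intro b hb
        rw [mem_filter] at hb ⊢
        refine ⟨hb.1, ?_⟩
        have h3 := (hP a b).1 hb.2
        have h4 : J'.filter (fun j => ∀ i : Fin r, (f i.succ j ^ e i.succ + primorial y * (g0 i.succ + b i)).Prime) =
            J.filter (fun j => (f 0 j ^ e 0 + primorial y * (g0 0 + a)).Prime ∧
            ∀ i : Fin r, (f i.succ j ^ e i.succ + primorial y * (g0 i.succ + b i)).Prime) := by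
          rw [hJ', filter_filter]
        rw [h4, ← hQ]
        refine lt_of_lt_of_le h3 ?_
        have h5 : (1 - ε / 2) * (J.card / (Vz y * (e 0 * Real.log n))) / Q ≤ J'.card / Q :=
          div_le_div_of_nonneg_right hge hQ0.le
        have h6 : (1 - ε / 2) * ((1 - ε / 2) * (J.card / (Vz y * (e 0 * Real.log n))) / Q) ≤
            (1 - ε / 2) * (J'.card / Q) := mul_le_mul_of_nonneg_left h5 (by linarith)
        refine le_trans ?_ h6
        have hf0 := hfac 0
        have h7 : (1 - ε / 2) * ((1 - ε / 2) * ((J.card : ℝ) / (Vz y * (e 0 * Real.log n))) / Q) =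
            (1 - ε / 2) ^ 2 * (J.card / ((Vz y * (e 0 * Real.log n)) * Q)) := by
          field_simp
        rw [h7]
        apply mul_le_mul_of_nonneg_right _ (by positivity)
        nlinarith)
    rw [hprod, Fin.prod_univ_succ]
    have hcard : ((Fintype.piFinset fun i => Icc 1 (G i)).filter (fun g =>
        ((J.filter (fun j => ∀ i, (f i j ^ e i + primorial y * (g0 i + g i)).Prime)).card : ℝ) <
        (1 - ε) * (J.card / ((Vz y * (e 0 * Real.log n)) * Q)))).card ≤
        ((S ×ˢ T).filter (fun g => P g.1 g.2)).card := by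
      apply card_le_card_of_injOn (fun g => (g 0, fun i : Fin r => g i.succ))
      · intro g hg
        rw [mem_coe, mem_filter, Fintype.mem_piFinset] at hg
        rw [mem_coe, mem_filter, mem_product, hT, Fintype.mem_piFinset]
        refine ⟨⟨hg.1 0, fun i => hg.1 i.succ⟩, ?_⟩
        rw [hP]
        refine lt_of_le_of_lt ?_ hg.2
        apply Nat.cast_le.2
        apply card_le_card
        intro j hj
        rw [mem_filter] at hj ⊢
        refine ⟨hj.1, ?_⟩
        intro i
        refine Fin.cases ?_ (fun i' => ?_) i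
        · exact hj.2.1
        · exact hj.2.2 i'
      · intro g _ g' _ h
        simp only [Prod.mk.injEq] at h
        funext i
        refine Fin.cases h.1 (fun i' => ?_) i
        exact congrFun h.2 i'
    have h8 : (((Fintype.piFinset fun i => Icc 1 (G i)).filter (fun g =>
        ((J.filter (fun j => ∀ i, (f i j ^ e i + primorial y * (g0 i + g i)).Prime)).card : ℝ) <
        (1 - ε) * (J.card / ((Vz y * (e 0 * Real.log n)) * Q)))).card : ℝ) ≤
        (((S ×ˢ T).filter (fun g => P g.1 g.2)).card : ℝ) := by exact_mod_cast hcard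
    refine h8.trans (hfub.trans (le_of_eq ?_))
    rw [hTc, hS, Nat.card_Icc, Nat.add_sub_cancel]
    ring


end Pool.Agent.Q234.StQ
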