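import Mathlib
import Pool.Agent.Y877.SxK
import Pool.Agent.Q9.DE.Tau

/-! The numbers `φ(k) + φ(n - k) / 2 + 1` for even `n`: many different values, by Chen's theorem. -/

set_option autoImplicit false

namespace Pool.Agent.Q234.TD

open Finset

/-- the values -/
noncomputable def D (n : ℕ) : Finset ℕ :=
  (Ioo 0 (n - 2)).image (fun k => Nat.totient k + Nat.totient (n - k) / 2 + 1)

/-- the value for `k = p` -/
noncomputable def v (n p : ℕ) : ℕ := Nat.totient p + Nat.totient (n - p) / 2 + 1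

lemma val1 {n p : ℕ} (hp : p.Prime) (hq : (n - p).Prime) : v n p = p + (n - p - 1) / 2 := by
  unfold v
  rw [Nat.totient_prime hp, Nat.totient_prime hq]
  have := hp.two_le
  omega

lemma val2 {n p b q : ℕ} (hp : p.Prime) (hb : b.Prime) (hq : q.Prime) (hbq : b ≠ q) (h : n - p = b * q) (hpn : p < n)
    (hb3 : 3 ≤ b) : 2 * v n p + (b + 1) * (q + 1) = 2 * n + 2 := by
  unfold v
  rw [Nat.totient_prime hp, h, Nat.totient_mul ((Nat.coprime_primes hb hq).2 hbq), Nat.totient_prime hb, Nat.totient_prime hq]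
  have h1 := hp.two_le
  have h2 := hq.two_le
  obtain ⟨a, ha⟩ := hb.odd_of_ne_two (by omega)
  obtain ⟨c, hc⟩ : ∃ c, q = c + 1 := ⟨q - 1, by omega⟩
  have e1 : (b - 1) * (q - 1) = 2 * (a * c) := by
    rw [ha, hc]
    simp only [Nat.add_sub_cancel]
    ring
  rw [e1, Nat.mul_div_cancel_left _ (by norm_num : 0 < 2)]
  have h3 : n = p + b * q := by omega
  have e2 : b * q = 2 * (a * c) + 2 * a + c + 1 := by
    rw [ha, hc]
    ring
  have e3 : (b + 1) * (q + 1) = 2 * (a * c) + 4 * a + 2 * c + 4 := by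
    rw [ha, hc]
    ring
  rw [e3, h3, e2]
  omega

lemma p2_cases {m : ℕ} (hm : 1 ≤ m) (h : m.primeFactorsList.length ≤ 2) :
    m = 1 ∨ m.Prime ∨ ∃ b q : ℕ, b.Prime ∧ q.Prime ∧ b ≤ q ∧ m = b * q := by
  have hprod := Nat.prod_primeFactorsList (by omega : m ≠ 0)
  have hpr : ∀ a ∈ m.primeFactorsList, a.Prime := fun a ha => Nat.prime_of_mem_primeFactorsList ha
  match hl : m.primeFactorsList with
  | [] =>
    left
    rw [hl] at hprod
    simpa using hprod.symm
  | [a] =>
    right; left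
    rw [hl] at hprod hpr
    have h1 : m = a := by simpa using hprod.symm
    rw [h1]
    exact hpr a (by simp)
  | [a, b] =>
    right; right
    rw [hl] at hprod hpr
    have h1 : m = a * b := by simpa using hprod.symm
    have ha := hpr a (by simp)
    have hb := hpr b (by simp)
    rcases le_total a b with h2 | h2
    · exact ⟨a, b, ha, hb, h2, h1⟩
    · exact ⟨b, a, hb, ha, h2, by rw [h1, mul_comm]⟩
  | a :: b :: c :: l =>
    exfalso
    rw [hl] at h
    simp at h

lemma v_mem {n p : ℕ} (hp : 0 < p) (h : p + 2 < n) : v n p ∈ D n := by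
  unfold D v
  rw [mem_image]
  exact ⟨p, mem_Ioo.2 ⟨hp, by omega⟩, rfl⟩

open Classical in
/-- the primes `p` with `n - p` prime -/
noncomputable def S1 (n : ℕ) : Finset ℕ := (range n).filter (fun p => p.Prime ∧ 2 < p ∧ p + 2 < n ∧ (n - p).Prime)

open Classical in
/-- the primes `p` with `n - p` a product of two different primes -/
noncomputable def S2 (n : ℕ) : Finset ℕ := (range n).filter (fun p => p.Prime ∧ 2 < p ∧ p + 2 < n ∧
  ∃ b q : ℕ, b.Prime ∧ q.Prime ∧ b < q ∧ n - p = b * q)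

lemma S_card {n : ℕ} (hn : Even n) : ((Ioc 0 n).filter (fun p : ℕ => p.Prime ∧ (n : ℤ) - p ≠ 0 ∧
    ((n : ℤ) - p).natAbs.primeFactorsList.length ≤ 2)).card ≤ (S1 n).card + (S2 n).card + (Nat.sqrt n + 3) := by
  classical
  have hsub : (Ioc 0 n).filter (fun p : ℕ => p.Prime ∧ (n : ℤ) - p ≠ 0 ∧
      ((n : ℤ) - p).natAbs.primeFactorsList.length ≤ 2) ⊆
      (S1 n ∪ S2 n) ∪ (({2} ∪ {n - 1}) ∪ ((range (Nat.sqrt n + 1)).image (fun b => n - b * b))) := by
    intro p hp
    rw [mem_filter, mem_Ioc] at hp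
    obtain ⟨⟨h0, hpn⟩, hpp, hne, hl⟩ := hp
    have h1 : ((n : ℤ) - p).natAbs = n - p := by omega
    rw [h1] at hl
    have h2 : p < n := by omega
    rw [mem_union, mem_union, mem_union, mem_union, mem_singleton, mem_singleton, mem_image]
    by_cases hp2 : p = 2
    · exact Or.inr (Or.inl (Or.inl hp2))
    have hp3 : 2 < p := by have := hpp.two_le; omega
    have hodd := hpp.odd_of_ne_two hp2
    obtain ⟨t, ht⟩ := hn
    obtain ⟨u, hu⟩ := hodd
    by_cases hp4 : p + 2 < n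
    · rcases p2_cases (by omega) hl with h3 | h3 | ⟨b, q, hb, hq, hbq, h3⟩
      · omega
      · left; left
        unfold S1
        rw [mem_filter, mem_range]
        exact ⟨h2, hpp, hp3, hp4, h3⟩
      · rcases Nat.lt_or_eq_of_le hbq with h4 | h4
        · left; right
          unfold S2
          rw [mem_filter, mem_range]
          exact ⟨h2, hpp, hp3, hp4, b, q, hb, hq, h4, h3⟩
        · right; right
          rw [← h4] at h3
          refine ⟨b, mem_range.2 ?_, by omega⟩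
          have : b * b ≤ n := by omega
          have := Nat.le_sqrt.2 this
          omega
    · right; left; right
      omega
  refine (card_le_card hsub).trans ((card_union_le _ _).trans (add_le_add (card_union_le _ _) ?_))
  refine (card_union_le _ _).trans ?_
  have e1 : (({2} : Finset ℕ) ∪ {n - 1}).card ≤ 2 := (card_union_le _ _).trans (by simp)
  have e2 : ((range (Nat.sqrt n + 1)).image (fun b => n - b * b)).card ≤ Nat.sqrt n + 1 :=
    card_image_le.trans (by rw [card_range])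
  omega

lemma S1_le {n : ℕ} (hn : Even n) : (S1 n).card ≤ (D n).card := by
  classical
  apply card_le_card_of_injOn (v n)
  · intro p hp
    rw [mem_coe] at hp ⊢
    unfold S1 at hp
    rw [mem_filter] at hp
    exact v_mem hp.2.1.pos hp.2.2.2.1
  · intro a ha b hb hab
    rw [mem_coe] at ha hb
    unfold S1 at ha hb
    rw [mem_filter, mem_range] at ha hb
    rw [val1 ha.2.1 ha.2.2.2.2, val1 hb.2.1 hb.2.2.2.2] at hab
    obtain ⟨t, ht⟩ := hn
    obtain ⟨u, hu⟩ := ha.2.1.odd_of_ne_two (by have := ha.2.2.1; omega)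
    obtain ⟨w, hw⟩ := hb.2.1.odd_of_ne_two (by have := hb.2.2.1; omega)
    omega

lemma S2_le (n : ℕ) (hn : Even n) : ((S2 n).card : ℝ) ^ 2 ≤ (D n).card * (((2 * n + 2 : ℕ) : ℝ) * (1 + Real.log ((2 * n + 2 : ℕ) : ℝ)) ^ 3) := by
  classical
  set W := (S2 n).image (v n) with hW
  have hsub : W ⊆ D n := by
    intro w hw
    rw [hW, mem_image] at hw
    obtain ⟨p, hp, rfl⟩ := hw
    unfold S2 at hp
    rw [mem_filter] at hp
    exact v_mem hp.2.1.pos hp.2.2.2.1
  have hdata : ∀ p ∈ S2 n, ∃ b q : ℕ, b.Prime ∧ q.Prime ∧ b < q ∧ n - p = b * q ∧ 3 ≤ b ∧ p < n ∧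
      2 * v n p + (b + 1) * (q + 1) = 2 * n + 2 := by
    intro p hp
    unfold S2 at hp
    rw [mem_filter, mem_range] at hp
    obtain ⟨h1, h2, h3, h4, b, q, hb, hq, hbq, h5⟩ := hp
    have hb3 : 3 ≤ b := by
      by_contra hcon
      have hb2 : b = 2 := by have := hb.two_le; omega
      rw [hb2] at h5
      obtain ⟨t, ht⟩ := hn
      obtain ⟨u, hu⟩ := h2.odd_of_ne_two (by omega)
      omega
    exact ⟨b, q, hb, hq, hbq, h5, hb3, h1, val2 h2 hb hq (by omega) h5 h1 hb3⟩
  have hfib : ∀ w ∈ W, ((S2 n).filter (fun p => v n p = w)).card ≤ (2 * n + 2 - 2 * w).divisors.card := by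
    intro w hw
    choose! b q hb hq hbq h5 hb3 h1 hval using hdata
    apply card_le_card_of_injOn (fun p => b p + 1)
    · intro p hp
      rw [mem_coe, mem_filter] at hp
      have e1 := hval p hp.1
      rw [hp.2] at e1
      rw [mem_coe, Nat.mem_divisors]
      have e2 : 2 * n + 2 - 2 * w = (b p + 1) * (q p + 1) := by omega
      rw [e2]
      exact ⟨Dvd.intro _ rfl, by positivity⟩
    · intro p hp p' hp' hpp
      rw [mem_coe, mem_filter] at hp hp'
      simp only at hpp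
      have e1 := hval p hp.1
      have e2 := hval p' hp'.1
      rw [hp.2] at e1
      rw [hp'.2] at e2
      have e3 : (b p + 1) * (q p + 1) = (b p + 1) * (q p' + 1) := by
        have : (b p + 1) * (q p + 1) = (b p' + 1) * (q p' + 1) := by omega
        rwa [← hpp] at this
      have e4 := Nat.eq_of_mul_eq_mul_left (by omega : 0 < b p + 1) e3
      have e5 := h5 p hp.1
      have e6 := h5 p' hp'.1
      have e7 := h1 p hp.1
      have e8 := h1 p' hp'.1
      have e9 : b p = b p' := by omega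
      have e10 : q p = q p' := by omega
      rw [e9, e10, ← e6] at e5
      omega
  have hcard : ((S2 n).card : ℝ) ≤ ∑ w ∈ W, ((2 * n + 2 - 2 * w).divisors.card : ℝ) := by
    have h1 : (S2 n).card = ∑ w ∈ W, ((S2 n).filter (fun p => v n p = w)).card :=
      card_eq_sum_card_image (v n) (S2 n)
    rw [h1]
    push_cast
    exact sum_le_sum fun w hw => by exact_mod_cast hfib w hw
  have hw2 : ∀ w ∈ W, 2 * w ≤ 2 * n + 1 := by
    intro w hw
    rw [hW, mem_image] at hw
    obtain ⟨p, hp, rfl⟩ := hw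
    obtain ⟨b, q, -, -, -, -, -, -, h⟩ := hdata p hp
    have : 0 < (b + 1) * (q + 1) := by positivity
    omega
  have hsq : ∑ w ∈ W, ((2 * n + 2 - 2 * w).divisors.card : ℝ) ^ 2 ≤ ((2 * n + 2 : ℕ) : ℝ) * (1 + Real.log ((2 * n + 2 : ℕ) : ℝ)) ^ 3 := by
    refine le_trans ?_ (Pool.Agent.Q9.DE.tau_sq (2 * n + 2))
    rw [← sum_image (g := fun w => 2 * n + 2 - 2 * w) (f := fun m => ((m.divisors.card : ℕ) : ℝ) ^ 2)]
    · apply sum_le_sum_of_subset_of_nonneg
      · intro m hm
        rw [mem_image] at hm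
        obtain ⟨w, hw, rfl⟩ := hm
        have := hw2 w hw
        rw [mem_Icc]
        omega
      · intro _ _ _
        positivity
    · intro a ha b hb hab
      have h1 := hw2 a ha
      have h2 := hw2 b hb
      simp only at hab
      omega
  calc ((S2 n).card : ℝ) ^ 2 ≤ (∑ w ∈ W, ((2 * n + 2 - 2 * w).divisors.card : ℝ)) ^ 2 :=
        pow_le_pow_left₀ (Nat.cast_nonneg _) hcard 2
    _ ≤ W.card * ∑ w ∈ W, ((2 * n + 2 - 2 * w).divisors.card : ℝ) ^ 2 := sq_sum_le_card_mul_sum_sq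
    _ ≤ (D n).card * (((2 * n + 2 : ℕ) : ℝ) * (1 + Real.log ((2 * n + 2 : ℕ) : ℝ)) ^ 3) := by
        apply mul_le_mul _ hsq (sum_nonneg fun _ _ => by positivity) (Nat.cast_nonneg _)
        exact_mod_cast card_le_card hsub

/-- many values for every even `n` -/
theorem D_card : ∃ n₀ : ℕ, ∀ n : ℕ, n₀ ≤ n → Even n → (n : ℝ) ≤ (D n).card * Real.log n ^ 9 := by
  obtain ⟨c, hc, X0, hX⟩ := Pool.Agent.Y877.SX.chen_cnt
  obtain ⟨n1, h1⟩ := Pool.Agent.H373R2.T7.ev_L' (max 4 (2 ^ 13 / c ^ 2 + 4 / c))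
  obtain ⟨n2, h2⟩ := Pool.Agent.H373R2.T7.ev_log' 2 (8 / c)
  refine ⟨max X0 (max n1 (max n2 16)), fun n hn hev => ?_⟩
  have b1 : X0 ≤ n := le_trans (le_max_left _ _) hn
  have b2 : n1 ≤ n := le_trans (le_trans (le_max_left _ _) (le_max_right _ _)) hn
  have b3 : n2 ≤ n := le_trans (le_trans (le_trans (le_max_left _ _) (le_max_right _ _)) (le_max_right _ _)) hn
  have b4 : 16 ≤ n := le_trans (le_trans (le_trans (le_max_right _ _) (le_max_right _ _)) (le_max_right _ _)) hn
  have hL := h1 n b2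
  have hs := h2 n b3
  have hch := hX n b1 n (by exact_mod_cast (by omega : n ≠ 0)) (by simp) (by exact_mod_cast hev)
  obtain ⟨L, hLd⟩ : ∃ L, L = Real.log n := ⟨_, rfl⟩
  rw [← hLd] at hL hs hch ⊢
  have hL4 : 4 ≤ L := (le_max_left _ _).trans hL
  have hLc : 2 ^ 13 / c ^ 2 + 4 / c ≤ L := (le_max_right _ _).trans hL
  have hL0 : 0 < L := by linarith
  have hnr : (16 : ℝ) ≤ n := by exact_mod_cast b4
  have hS := S_card hev
  have hS' : c * n / L ^ 2 ≤ (S1 n).card + (S2 n).card + (Nat.sqrt n + 3) := by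
    refine hch.trans ?_
    exact_mod_cast hS
  have hsq1 : ((Nat.sqrt n : ℕ) : ℝ) ≤ √(n : ℝ) := by
    apply Real.le_sqrt_of_sq_le
    exact_mod_cast Nat.sqrt_le' n
  have hsn : √(n : ℝ) * √(n : ℝ) = n := Real.mul_self_sqrt (by linarith)
  have hs4 : 4 ≤ √(n : ℝ) := by
    apply Real.le_sqrt_of_sq_le
    linarith
  have hsm : ((Nat.sqrt n : ℕ) : ℝ) + 3 ≤ c * n / L ^ 2 / 2 := by
    have e1 : 8 * L ^ 2 ≤ c * √(n : ℝ) := by
      rw [div_mul_eq_mul_div, div_le_iff₀ hc] at hs
      linarith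
    have e2 : 2 * √(n : ℝ) ≤ c * n / L ^ 2 / 2 := by
      rw [div_div, le_div_iff₀ (by positivity)]
      nlinarith
    linarith
  have hsum : c * n / L ^ 2 / 2 ≤ (S1 n).card + (S2 n).card := by linarith
  by_cases hcase : c * n / L ^ 2 / 4 ≤ ((S1 n).card : ℝ)
  · have e1 : ((S1 n).card : ℝ) ≤ (D n).card := by exact_mod_cast S1_le hev
    have e2 : c * n / L ^ 2 / 4 ≤ (D n).card := hcase.trans e1
    rw [div_div, div_le_iff₀ (by positivity)] at e2
    have e3 : 4 / c ≤ L := by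
      have : 0 ≤ 2 ^ 13 / c ^ 2 := by positivity
      linarith
    rw [div_le_iff₀ hc] at e3
    have hD0 : (0 : ℝ) ≤ (D n).card := Nat.cast_nonneg _
    have e4 : (n : ℝ) * 4 ≤ (c * n) * L := by nlinarith
    have e5 : (c * n) * L ≤ ((D n).card * (L ^ 2 * 4)) * L := mul_le_mul_of_nonneg_right e2 hL0.le
    have e6 : (n : ℝ) ≤ (D n).card * L ^ 3 := by nlinarith
    refine e6.trans (mul_le_mul_of_nonneg_left ?_ hD0)
    exact pow_le_pow_right₀ (by linarith) (by norm_num)
  · push Not at hcase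
    have e1 : c * n / L ^ 2 / 4 ≤ ((S2 n).card : ℝ) := by linarith
    have e2 := pow_le_pow_left₀ (by positivity) e1 2
    have e3 := e2.trans (S2_le n hev)
    have hlog : Real.log ((2 * n + 2 : ℕ) : ℝ) ≤ 2 * L := by
      have h6 : ((2 * n + 2 : ℕ) : ℝ) ≤ (n : ℝ) ^ 2 := by push_cast; nlinarith
      have := Real.log_le_log (by positivity) h6
      rwa [Real.log_pow, ← hLd, Nat.cast_ofNat] at this
    have e4 : ((2 * n + 2 : ℕ) : ℝ) * (1 + Real.log ((2 * n + 2 : ℕ) : ℝ)) ^ 3 ≤ (4 * n) * (4 * L) ^ 3 := by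
      have h0 : 0 ≤ Real.log ((2 * n + 2 : ℕ) : ℝ) := Real.log_natCast_nonneg _
      apply mul_le_mul _ _ (by positivity) (by positivity)
      · push_cast; linarith
      · apply pow_le_pow_left₀ (by positivity)
        linarith
    have hD0 : (0 : ℝ) ≤ (D n).card := Nat.cast_nonneg _
    have e5 : (c * n / L ^ 2 / 4) ^ 2 ≤ (D n).card * ((4 * n) * (4 * L) ^ 3) :=
      e3.trans (mul_le_mul_of_nonneg_left e4 hD0)
    have e6 : (c * n / L ^ 2 / 4) ^ 2 = c ^ 2 * (n : ℝ) ^ 2 / (L ^ 4 * 16) := by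
      field_simp
      norm_num
    rw [e6, div_le_iff₀ (by positivity)] at e5
    -- c² n² ≤ D * 4 n * 64 L³ * 16 L⁴
    have e7 : c ^ 2 * (n : ℝ) ≤ (D n).card * (2 ^ 12 * L ^ 7) := by
      have h7 : (n : ℝ) * (c ^ 2 * n) ≤ n * ((D n).card * (2 ^ 12 * L ^ 7)) := by
        calc (n : ℝ) * (c ^ 2 * n) = c ^ 2 * (n : ℝ) ^ 2 := by ring
          _ ≤ (D n).card * ((4 * n) * (4 * L) ^ 3) * (L ^ 4 * 16) := e5
          _ = n * ((D n).card * (2 ^ 12 * L ^ 7)) := by ring
      exact le_of_mul_le_mul_left h7 (by linarith)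
    have e8 : 2 ^ 12 ≤ c ^ 2 * L := by
      have : 0 ≤ 4 / c := by positivity
      have h8 : 2 ^ 13 / c ^ 2 ≤ L := by linarith
      rw [div_le_iff₀ (by positivity)] at h8
      linarith
    have e9 : c ^ 2 * (n : ℝ) ≤ c ^ 2 * ((D n).card * L ^ 8) := by
      calc c ^ 2 * (n : ℝ) ≤ (D n).card * (2 ^ 12 * L ^ 7) := e7
        _ ≤ (D n).card * ((c ^ 2 * L) * L ^ 7) := by gcongr
        _ = _ := by ring
    have e10 : (n : ℝ) ≤ (D n).card * L ^ 8 := le_of_mul_le_mul_left e9 (by positivity)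
    refine e10.trans (mul_le_mul_of_nonneg_left ?_ hD0)
    exact pow_le_pow_right₀ (by linarith) (by norm_num)

end Pool.Agent.Q234.TD
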