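import Mathlib
import Pool.Agent.Y886.PPD

/-! The primes `φ(k) + φ(n - k) / 2 + 1`: there are many of them for a positive proportion of the `n`. Gaps of the
sequence `p_q - q`. -/

set_option autoImplicit false
set_option maxHeartbeats 1000000

namespace Pool.Agent.Q234.TQ

open Finset Filter Pool.Agent.Y886.PP

/-- the primes `q (n, k)`, `1 ≤ k < n - 2` -/
noncomputable def Q (n : ℕ) : Finset ℕ :=
  ((Ioo 0 (n - 2)).image (fun k => Nat.totient k + Nat.totient (n - k) / 2 + 1)).filter Nat.Prime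

lemma mem_Q_le {n q : ℕ} (h : q ∈ Q n) : q.Prime ∧ q ≤ n + 1 := by
  unfold Q at h
  rw [mem_filter, mem_image] at h
  obtain ⟨⟨k, hk, rfl⟩, hp⟩ := h
  rw [mem_Ioo] at hk
  refine ⟨hp, ?_⟩
  have h1 := Nat.totient_le k
  have h2 := Nat.totient_le (n - k)
  omega

lemma fib_leQ {X N n : ℕ} : (fib X N n).card ≤ (Q n).card := by
  classical
  apply card_le_card_of_injOn (fun z => z.2 + z.1 - 1)
  · intro z hz
    rw [mem_coe] at hz ⊢
    unfold fib at hz
    obtain ⟨hz1, hz2⟩ := mem_filter.1 hz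
    unfold pairs at hz1
    rw [mem_filter, mem_product, mem_Icc] at hz1
    obtain ⟨⟨⟨h1, h2⟩, h3⟩, h4, h5, h6, h7, h8⟩ := hz1
    subst hz2
    unfold Q
    rw [mem_filter, mem_image]
    refine ⟨⟨z.2, mem_Ioo.2 ⟨h5.pos, by omega⟩, q_val h5 h4 h1⟩, h6⟩
  · intro a ha b hb hab
    rw [mem_coe] at ha hb
    unfold fib at ha hb
    obtain ⟨ha1, e1⟩ := mem_filter.1 ha
    obtain ⟨hb1, e2⟩ := mem_filter.1 hb
    unfold pairs at ha1 hb1
    rw [mem_filter, mem_product, mem_Icc] at ha1 hb1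
    have := ha1.1.1.1
    have := hb1.1.1.1
    simp only at hab
    exact Prod.ext (by omega) (by omega)

/-- the final form -/
theorem good_cardQ : ∃ c : ℝ, 0 < c ∧ ∀ᶠ x : ℕ in atTop,
    c * x ≤ (Set.ncard {n : ℕ | 32 ≤ n ∧ n ≤ x ∧ (n : ℝ) / Real.log n ^ 14 ≤ ((Q n).card : ℝ)} : ℝ) := by
  classical
  obtain ⟨c, hc, hs⟩ := sums_card
  obtain ⟨X0, h0⟩ := eventually_atTop.1 hs
  have tN : Tendsto (fun N : ℕ => (N : ℝ)) atTop atTop := tendsto_natCast_atTop_atTop
  have tL : Tendsto (fun N : ℕ => Real.log (N : ℝ)) atTop atTop := Real.tendsto_log_atTop.comp tN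
  refine ⟨c / 32, by positivity, ?_⟩
  obtain ⟨X1, h1⟩ := eventually_atTop.1 ((tL.eventually_ge_atTop (2 ^ 30)).and
    (tN.eventually_ge_atTop ((4 / c) ^ 2)))
  filter_upwards [eventually_ge_atTop (8 * (X0 + X1 + 1024))] with x hx
  obtain ⟨X, hX⟩ : ∃ X, X = x / 4 := ⟨_, rfl⟩
  have hX1 : X0 + X1 + 1024 ≤ X := by omega
  have hXx : x ≤ 8 * X := by omega
  have hXx' : 4 * X ≤ x := by omega
  obtain ⟨N, hNX, hN10, hN⟩ := h0 X (by omega)
  obtain ⟨g1, g2⟩ := h1 X (by omega)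
  have hX8 : (1024 : ℝ) ≤ X := by exact_mod_cast (by omega : 1024 ≤ X)
  have hXr : (x : ℝ) ≤ 8 * X := by exact_mod_cast hXx
  -- drop the small `n`
  obtain ⟨I, hI⟩ : ∃ I : Finset ℕ, I = (sums X N).filter (fun n : ℕ => (c / 2) * X ≤ (n : ℝ)) :=
    ⟨_, rfl⟩
  have hIcard : (c / 2) * X - 1 ≤ I.card := by
    have b1 : sums X N ⊆ I ∪ range (⌊(c / 2) * X⌋₊ + 1) := by
      intro n hn
      rw [mem_union, hI, mem_filter, mem_range]
      by_cases h : (c / 2) * X ≤ (n : ℝ)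
      · left
        exact ⟨hn, h⟩
      · right
        rw [not_le] at h
        exact Nat.lt_succ_of_le (Nat.le_floor h.le)
    have b2 := (card_le_card b1).trans (card_union_le _ _)
    rw [card_range] at b2
    have b3 : ((sums X N).card : ℝ) ≤ I.card + (⌊(c / 2) * X⌋₊ + 1) := by exact_mod_cast b2
    have b4 : (⌊(c / 2) * (X : ℝ)⌋₊ : ℝ) ≤ (c / 2) * X := Nat.floor_le (by positivity)
    linarith
  have hsub : (I : Set ℕ) ⊆ {n : ℕ | 32 ≤ n ∧ n ≤ x ∧ (n : ℝ) / Real.log n ^ 14 ≤ ((Q n).card : ℝ)} := by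
    intro n hn
    rw [mem_coe, hI, mem_filter] at hn
    have b1 := mem_Icc.1 (sums_mem hNX hn.1)
    -- `log n ≥ log X / 2`
    have b2 : (X : ℝ) ≤ (n : ℝ) ^ 2 := by
      have c1 : 4 ≤ c ^ 2 * X := by
        rw [div_pow, div_le_iff₀ (by positivity)] at g2
        nlinarith
      calc (X : ℝ) ≤ (c ^ 2 * X / 4) * X := by
            have : (1 : ℝ) ≤ c ^ 2 * X / 4 := by linarith
            exact le_mul_of_one_le_left (by linarith) this
        _ = ((c / 2) * X) ^ 2 := by ring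
        _ ≤ (n : ℝ) ^ 2 := by
            apply pow_le_pow_left₀ (by positivity) hn.2
    have b22 : 32 ≤ n := by
      have c1 : (1024 : ℝ) ≤ (n : ℝ) ^ 2 := hX8.trans b2
      have c2 : 1024 ≤ n ^ 2 := by exact_mod_cast c1
      nlinarith
    refine ⟨b22, by omega, ?_⟩
    have b3 : Real.log X ≤ 2 * Real.log n := by
      have := Real.log_le_log (by linarith) b2
      rw [Real.log_pow] at this
      exact_mod_cast this
    obtain ⟨L, hL⟩ : ∃ L, L = Real.log (X : ℝ) := ⟨_, rfl⟩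
    obtain ⟨l, hl⟩ : ∃ l, l = Real.log (n : ℝ) := ⟨_, rfl⟩
    rw [← hL] at g1 b3 hN10
    rw [← hl] at b3
    have b4 : L / 2 ≤ l := by linarith
    have b5 : L ^ 10 ≤ l ^ 11 := by
      calc L ^ 10 = (2 ^ 11) * L ^ 10 / 2 ^ 11 := by ring
        _ ≤ L * L ^ 10 / 2 ^ 11 := by gcongr; linarith
        _ = (L / 2) ^ 11 := by ring
        _ ≤ l ^ 11 := pow_le_pow_left₀ (by linarith) b4 11
    have b6 : (fib X N n).card ≤ (Q n).card := fib_leQ
    have b7 : (N : ℝ) / (128 * L ^ 3) ≤ ((fib X N n).card : ℝ) := by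
      have := hn.1
      unfold sums at this
      rw [hL]
      exact (mem_filter.1 this).2
    have b8 : (n : ℝ) / l ^ 14 ≤ N / (128 * L ^ 3) := by
      have c0 : (n : ℝ) ≤ 4 * X := by exact_mod_cast b1.2
      have c1 : (n : ℝ) ≤ 4 * (N * L ^ 10) := by linarith
      have hl0 : 0 < l := by linarith
      have hL0 : 0 < L := by linarith
      rw [div_le_div_iff₀ (by positivity) (by positivity)]
      have c2 : 512 * L ^ 13 ≤ l ^ 14 := by
        calc 512 * L ^ 13 = (512 * 2 ^ 14) * L ^ 13 / 2 ^ 14 := by ring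
          _ ≤ L * L ^ 13 / 2 ^ 14 := by gcongr; linarith
          _ = (L / 2) ^ 14 := by ring
          _ ≤ l ^ 14 := pow_le_pow_left₀ (by linarith) b4 14
      calc (n : ℝ) * (128 * L ^ 3) ≤ 4 * (N * L ^ 10) * (128 * L ^ 3) := by gcongr
        _ = N * (512 * L ^ 13) := by ring
        _ ≤ N * l ^ 14 := by gcongr
    show (n : ℝ) / Real.log n ^ 14 ≤ ((Q n).card : ℝ)
    rw [← hl]
    refine b8.trans (b7.trans ?_)
    exact_mod_cast b6
  have hfin : {n : ℕ | 32 ≤ n ∧ n ≤ x ∧ (n : ℝ) / Real.log n ^ 14 ≤ ((Q n).card : ℝ)}.Finite :=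
    (Set.finite_Iic x).subset fun n hn => hn.2.1
  have hcard : I.card ≤ Set.ncard {n : ℕ | 32 ≤ n ∧ n ≤ x ∧ (n : ℝ) / Real.log n ^ 14 ≤ ((Q n).card : ℝ)} := by
    rw [← Set.ncard_coe_finset]
    exact Set.ncard_le_ncard hsub hfin
  have hcard' : (I.card : ℝ) ≤ Set.ncard {n : ℕ | 32 ≤ n ∧ n ≤ x ∧ (n : ℝ) / Real.log n ^ 14 ≤ ((Q n).card : ℝ)} := by
    exact_mod_cast hcard
  have hcX : 1 ≤ c * X / 4 := by
    by_contra hcon
    rw [not_le] at hcon
    have d1 : (4 / c) ^ 2 ≤ X := g2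
    rw [div_pow, div_le_iff₀ (by positivity)] at d1
    nlinarith
  refine le_trans ?_ hcard'
  have d2 : c / 32 * (x : ℝ) ≤ c / 32 * (8 * X) := mul_le_mul_of_nonneg_left hXr (by positivity)
  linarith


lemma nth_step (m : ℕ) (hm : 1 ≤ m) : Nat.nth Nat.Prime m + 2 ≤ Nat.nth Nat.Prime (m + 1) := by
  have hinf := Nat.infinite_setOfPred_prime
  have h0 : Nat.nth Nat.Prime 0 = 2 := Nat.nth_prime_zero_eq_two
  have h1 : Nat.nth Nat.Prime 0 < Nat.nth Nat.Prime m := (Nat.nth_lt_nth hinf).2 (by omega)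
  have h2 : Nat.nth Nat.Prime m < Nat.nth Nat.Prime (m + 1) := (Nat.nth_lt_nth hinf).2 (by omega)
  have p1 : (Nat.nth Nat.Prime m).Prime := Nat.prime_nth_prime _
  have p2 : (Nat.nth Nat.Prime (m + 1)).Prime := Nat.prime_nth_prime _
  obtain ⟨a, ha⟩ := p1.odd_of_ne_two (by omega)
  obtain ⟨b, hb⟩ := p2.odd_of_ne_two (by omega)
  omega

lemma nth_add (m d : ℕ) (hm : 1 ≤ m) : Nat.nth Nat.Prime m + 2 * d ≤ Nat.nth Nat.Prime (m + d) := by
  induction d with
  | zero => simp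
  | succ d ih =>
    have := nth_step (m + d) (by omega)
    have e : m + (d + 1) = m + d + 1 := by ring
    rw [e]
    omega

/-- `p_q - q` increases strictly -/
lemma p_sub_lt {a b : ℕ} (ha : 2 ≤ a) (hab : a < b) :
    Nat.nth Nat.Prime (a - 1) - a < Nat.nth Nat.Prime (b - 1) - b ∧ a + 1 ≤ Nat.nth Nat.Prime (a - 1) := by
  have h1 := nth_add (a - 1) (b - a) (by omega)
  have e : a - 1 + (b - a) = b - 1 := by omega
  rw [e] at h1
  have h2 := Nat.add_two_le_nth_prime (a - 1)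
  constructor <;> omega

lemma p_sub_inj {a b : ℕ} (ha : 2 ≤ a) (hb : 2 ≤ b) (h : Nat.nth Nat.Prime (a - 1) - a = Nat.nth Nat.Prime (b - 1) - b) : a = b := by
  rcases lt_trichotomy a b with h1 | h1 | h1
  · have := (p_sub_lt ha h1).1
    omega
  · exact h1
  · have := (p_sub_lt hb h1).1
    omega

/-- the classes `b` for which `v + b` is a unit -/
lemma unit_classes (M v : ℕ) : ((Icc 1 M).filter (fun b => (v + b).Coprime M)).card = M.totient := by
  rw [← Nat.filter_coprime_Ico_eq_totient M (v + 1)]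
  apply card_bij (fun b _ => v + b)
  · intro b hb
    rw [mem_filter, mem_Icc] at hb
    rw [mem_filter, mem_Ico]
    exact ⟨by omega, hb.2.symm⟩
  · intro a _ b _ hab
    omega
  · intro x hx
    rw [mem_filter, mem_Ico] at hx
    refine ⟨x - v, ?_, by omega⟩
    rw [mem_filter, mem_Icc]
    refine ⟨by omega, ?_⟩
    have : v + (x - v) = x := by omega
    rw [this]
    exact hx.2.symm

end Pool.Agent.Q234.TQ
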